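import Pool.Agent.Lib_MP_1209e6_sk.Defs

/-! Elementary facts on places. -/

set_option autoImplicit false

open Filter Topology

namespace Pool.Agent.AbPencil

open Pool.Agent.Campana

/-- constants have order zero -/
theorem ord_const {K : Type} [Field K] [Algebra ℂ K] {O : ValuationSubring K} (hO : IsPlace O)
    {v : K → ℤ} (hv : IsOrd O v) {c : ℂ} (hc : c ≠ 0) : v (algebraMap ℂ K c) = 0 := by
  have h0 : algebraMap ℂ K c ≠ 0 := (map_ne_zero _).2 hc
  have h1 : 0 ≤ v (algebraMap ℂ K c) := (hv.mem_iff h0).1 (hO.1 c)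
  have h2 : 0 ≤ v (algebraMap ℂ K c)⁻¹ := by
    rw [← map_inv₀]
    exact (hv.mem_iff ((map_ne_zero _).2 (inv_ne_zero hc))).1 (hO.1 _)
  rw [hv.map_inv h0] at h2
  omega

/-- elements of positive order are transcendental -/
theorem trans_of_ord {K : Type} [Field K] [Algebra ℂ K] {O : ValuationSubring K} (hO : IsPlace O)
    {v : K → ℤ} (hv : IsOrd O v) {a : K} (ha : a ≠ 0) (h1 : 1 ≤ v a) : Transcendental ℂ a := by
  intro hA
  have hI : IsIntegral ℂ a := hA.isIntegral
  have h2 : (minpoly ℂ a).degree = 1 :=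
    IsAlgClosed.degree_eq_one_of_irreducible ℂ (minpoly.irreducible hI)
  obtain ⟨c, hc⟩ := (minpoly.mem_range_of_degree_eq_one ℂ a) h2
  have hc0 : c ≠ 0 := by
    rintro rfl
    exact ha (by rw [← hc, map_zero])
  have h3 := ord_const hO hv hc0
  rw [hc] at h3
  omega

end Pool.Agent.AbPencil
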