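import Pool.Agent.Lib_MP_1209e6_sk.M1
import Pool.Agent.Lib_MP_1209e6_sk.Z0

/-! PIECE C1: places over the points of a plane cubic. -/

set_option autoImplicit false

open Filter Topology

namespace Pool.Agent.AbPencil

open Pool.Agent.Campana

private lemma C1_add {K : Type} [Field K] {O : ValuationSubring K} {v : K → ℤ} (hv : IsOrd O v)
    {x y : K} (hx : x ≠ 0) (hy : y = 0 ∨ v x < v y) : x + y ≠ 0 ∧ v (x + y) = v x := by
  rcases eq_or_ne y 0 with rfl | hy0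
  · exact ⟨by simpa using hx, by simp⟩
  have hlt : v x < v y := hy.resolve_left hy0
  have hne : x + y ≠ 0 := by
    intro h
    have h1 : x = -y := by linear_combination h
    rw [h1, hv.map_neg hy0] at hlt
    omega
  refine ⟨hne, ?_⟩
  have h1 := hv.le_add (x := x) (y := y) (B := v x) (Or.inr le_rfl) (Or.inr hlt.le)
  by_contra hn
  have h3 : v x + 1 ≤ v (x + y) := by
    have := h1.resolve_left hne
    omega
  have h2 := hv.le_add (x := x + y) (y := -y) (B := v x + 1) (Or.inr h3)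
    (Or.inr (by rw [hv.map_neg hy0]; omega))
  rw [add_neg_cancel_right] at h2
  rcases h2 with h2 | h2
  · exact hx h2
  · omega

private lemma C1_mem {K : Type} [Field K] {O : ValuationSubring K} {v : K → ℤ} (hv : IsOrd O v)
    {x : K} (hx : 0 ≤ v x) : x ∈ O := by
  rcases eq_or_ne x 0 with rfl | h0
  · exact O.zero_mem
  · exact (hv.mem_iff h0).2 hx

private lemma C1_nonneg {K : Type} [Field K] {O : ValuationSubring K} {v : K → ℤ} (hv : IsOrd O v)
    {x : K} (hx : x ∈ O) (h0 : x ≠ 0) : 0 ≤ v x := (hv.mem_iff h0).1 hx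

private lemma C1_const {K : Type} [Field K] [Algebra ℂ K] {h : K} (hA : ¬ Transcendental ℂ h) :
    ∃ c : ℂ, algebraMap ℂ K c = h := by
  have hI : IsIntegral ℂ h := (not_not.1 hA : IsAlgebraic ℂ h).isIntegral
  exact (minpoly.mem_range_of_degree_eq_one ℂ h)
    (IsAlgClosed.degree_eq_one_of_irreducible ℂ (minpoly.irreducible hI))

private lemma C1_ne {K : Type} [Field K] [Algebra ℂ K] {x : K} (hx : Transcendental ℂ x) (e : ℂ) :
    x - algebraMap ℂ K e ≠ 0 := by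
  intro h
  apply hx
  rw [sub_eq_zero.1 h]
  exact isAlgebraic_algebraMap e

private lemma C1_chord {K : Type} [Field K] (a b c x y x₀ y₀ l h y' : K) (hxx : x - x₀ ≠ 0)
    (hl : l * (x - x₀) = y + y₀) (hh : h = l ^ 2 - a - x - x₀) (hy' : y' = l * (h - x₀) - y₀)
    (hy : y ^ 2 = x ^ 3 + a * x ^ 2 + b * x + c) (h₀ : y₀ ^ 2 = x₀ ^ 3 + a * x₀ ^ 2 + b * x₀ + c) :
    y' ^ 2 = h ^ 3 + a * h ^ 2 + b * h + c := by
  have key : (x - x₀) * (y' ^ 2 - (h ^ 3 + a * h ^ 2 + b * h + c)) = 0 := by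
    subst hy' hh
    linear_combination ((l ^ 2 - a - x - x₀) - x₀) * hy +
      ((l ^ 2 - a - x - x₀) - x₀) * (y + l * (x - x₀) - y₀) * hl - ((l ^ 2 - a - x - x₀) - x) * h₀
  exact sub_eq_zero.1 ((mul_eq_zero.1 key).resolve_left hxx)

private lemma C1_roots (a b c : ℂ) : ∃ e1 e2 e3 : ℂ, a = -(e1 + e2 + e3) ∧
    b = e1 * e2 + e1 * e3 + e2 * e3 ∧ c = -(e1 * e2 * e3) := by
  obtain ⟨e1, h1⟩ := IsAlgClosed.exists_root
    (Polynomial.X ^ 3 + Polynomial.C a * Polynomial.X ^ 2 + Polynomial.C b * Polynomial.X +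
      Polynomial.C c : Polynomial ℂ) (by
      have : (Polynomial.X ^ 3 + Polynomial.C a * Polynomial.X ^ 2 + Polynomial.C b * Polynomial.X +
        Polynomial.C c : Polynomial ℂ).degree = 3 := by compute_degree!
      rw [this]
      decide)
  have h2 : e1 ^ 3 + a * e1 ^ 2 + b * e1 + c = 0 := by
    simpa [Polynomial.IsRoot] using h1
  obtain ⟨s, hs⟩ := IsAlgClosed.exists_pow_nat_eq ((a + e1) ^ 2 - 4 * (b + a * e1 + e1 ^ 2))
    (n := 2) (by norm_num)
  refine ⟨e1, (-(a + e1) + s) / 2, (-(a + e1) - s) / 2, by ring, ?_, ?_⟩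
  · linear_combination (1 / 4 : ℂ) * hs
  · linear_combination h2 - (e1 / 4 : ℂ) * hs

private lemma C1_v2 {K : Type} [Field K] [Algebra ℂ K] {O : ValuationSubring K} {v : K → ℤ}
    (hv : IsOrd O v) {x y : K} (hx : Transcendental ℂ x) {e1 e2 e3 : ℂ} (hy0 : y ≠ 0)
    (hy : y ^ 2 = (x - algebraMap ℂ K e1) * (x - algebraMap ℂ K e2) * (x - algebraMap ℂ K e3)) :
    2 * v y = v (x - algebraMap ℂ K e1) + v (x - algebraMap ℂ K e2) + v (x - algebraMap ℂ K e3) := by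
  have h1 := congrArg v hy
  rw [hv.map_pow hy0, hv.map_mul (mul_ne_zero (C1_ne hx _) (C1_ne hx _)) (C1_ne hx _),
    hv.map_mul (C1_ne hx _) (C1_ne hx _)] at h1
  exact_mod_cast h1

private lemma C1_other {K : Type} [Field K] [Algebra ℂ K] {O : ValuationSubring K} (hO : IsPlace O)
    {v : K → ℤ} (hv : IsOrd O v) {x : K} {e1 e2 : ℂ} (h12 : e1 ≠ e2)
    (h1 : 1 ≤ v (x - algebraMap ℂ K e1)) : v (x - algebraMap ℂ K e2) = 0 := by
  have h2 : x - algebraMap ℂ K e2 = algebraMap ℂ K (e1 - e2) + (x - algebraMap ℂ K e1) := by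
    rw [map_sub]
    ring
  have h3 : v (algebraMap ℂ K (e1 - e2)) = 0 := ord_const hO hv (sub_ne_zero.2 h12)
  rw [h2, (C1_add hv ((map_ne_zero _).2 (sub_ne_zero.2 h12)) (Or.inr (by omega))).2, h3]

private lemma C1_pole {K : Type} [Field K] [Algebra ℂ K] {O : ValuationSubring K} (hO : IsPlace O)
    {v : K → ℤ} (hv : IsOrd O v) {x : K} (hx0 : x ≠ 0) (e : ℂ)
    (h1 : v x < 0) : v (x - algebraMap ℂ K e) = v x := by
  rw [sub_eq_add_neg]
  refine (C1_add hv hx0 ?_).2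
  rcases eq_or_ne e 0 with rfl | he
  · left
    simp
  · right
    rw [hv.map_neg ((map_ne_zero _).2 he), ord_const hO hv he]
    exact h1

/-- a square root of a cubic polynomial in `x` is not a polynomial in `x` -/
private lemma C1_nsq {K : Type} [Field K] [Algebra ℂ K] {x y : K} (hx : Transcendental ℂ x)
    (a b c : ℂ) (hy : y ^ 2 = x ^ 3 + algebraMap ℂ K a * x ^ 2 + algebraMap ℂ K b * x +
      algebraMap ℂ K c) (g : Polynomial ℂ) : y ≠ Polynomial.aeval x g := by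
  intro h
  have h1 : Polynomial.aeval x (g ^ 2 - (Polynomial.X ^ 3 + Polynomial.C a * Polynomial.X ^ 2 +
      Polynomial.C b * Polynomial.X + Polynomial.C c)) = 0 := by
    simp only [map_sub, map_add, map_mul, map_pow, Polynomial.aeval_X, Polynomial.aeval_C]
    rw [← h, hy]
    ring
  have h2 := (transcendental_iff.1 hx) _ h1
  have h3 : (g ^ 2).natDegree = 3 := by
    rw [sub_eq_zero.1 h2]
    compute_degree!
  rw [Polynomial.natDegree_pow] at h3
  omega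

private lemma C1_trans_y {K : Type} [Field K] [Algebra ℂ K] {x y : K} (hx : Transcendental ℂ x)
    (a b c : ℂ) (hy : y ^ 2 = x ^ 3 + algebraMap ℂ K a * x ^ 2 + algebraMap ℂ K b * x +
      algebraMap ℂ K c) : Transcendental ℂ y := by
  by_contra hA
  obtain ⟨e, he⟩ := C1_const hA
  exact C1_nsq hx a b c hy (Polynomial.C e) (by rw [Polynomial.aeval_C, he])

/-- at a pole of `x` the function `h` is integral -/
private lemma C1_at_pole {K : Type} [Field K] [Algebra ℂ K] {O : ValuationSubring K}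
    (hO : IsPlace O) {v : K → ℤ} (hv : IsOrd O v) {x y h : K} (hx : Transcendental ℂ x)
    (a b c x₀ y₀ : ℂ) (hy : y ^ 2 = x ^ 3 + algebraMap ℂ K a * x ^ 2 + algebraMap ℂ K b * x +
      algebraMap ℂ K c)
    (hh : (h + algebraMap ℂ K a + x + algebraMap ℂ K x₀) * (x - algebraMap ℂ K x₀) ^ 2 =
      (y + algebraMap ℂ K y₀) ^ 2) (hx1 : v x < 0) : h ∈ O := by
  have hx0 : x ≠ 0 := by
    rintro rfl
    exact hx isAlgebraic_zero
  have hy0 : y ≠ 0 := by
    rintro rfl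
    exact (C1_trans_y hx a b c hy) isAlgebraic_zero
  have hi : x⁻¹ ∈ O := by
    rw [hv.mem_iff (inv_ne_zero hx0), hv.map_inv hx0]
    omega
  have hC : ∀ e : ℂ, algebraMap ℂ K e ∈ O := hO.1
  -- the order of `y`
  have hP : x ^ 3 + algebraMap ℂ K a * x ^ 2 + algebraMap ℂ K b * x + algebraMap ℂ K c =
      x ^ 3 * (1 + x⁻¹ * (algebraMap ℂ K a + algebraMap ℂ K b * x⁻¹ +
        algebraMap ℂ K c * x⁻¹ ^ 2)) := by
    field_simp
    ring
  have hunit : ∀ w ∈ O, (1 + x⁻¹ * w) ≠ 0 ∧ v (1 + x⁻¹ * w) = 0 := by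
    intro w hw
    have h1 := C1_add hv (x := (1 : K)) (y := x⁻¹ * w) one_ne_zero (by
      rcases eq_or_ne w 0 with rfl | hw0
      · left; simp
      · right
        rw [hv.map_one, hv.map_mul (inv_ne_zero hx0) hw0, hv.map_inv hx0]
        have := C1_nonneg hv hw hw0
        omega)
    rwa [hv.map_one] at h1
  have hw1 : algebraMap ℂ K a + algebraMap ℂ K b * x⁻¹ + algebraMap ℂ K c * x⁻¹ ^ 2 ∈ O :=
    O.add_mem _ _ (O.add_mem _ _ (hC a) (O.mul_mem _ _ (hC b) hi))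
      (O.mul_mem _ _ (hC c) (pow_mem hi 2))
  have hvy : 2 * v y = 3 * v x := by
    have h1 := congrArg v (hy.trans hP)
    rw [hv.map_pow hy0, hv.map_mul (pow_ne_zero _ hx0) (hunit _ hw1).1, (hunit _ hw1).2,
      hv.map_pow hx0] at h1
    push_cast at h1
    omega
  have hyx : y * x⁻¹ ^ 2 ∈ O := by
    rw [hv.mem_iff (mul_ne_zero hy0 (pow_ne_zero _ (inv_ne_zero hx0))),
      hv.map_mul hy0 (pow_ne_zero _ (inv_ne_zero hx0)), hv.map_pow (inv_ne_zero hx0),
      hv.map_inv hx0]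
    push_cast
    omega
  have hu := hunit (-algebraMap ℂ K x₀) (O.neg_mem _ (hC x₀))
  have hmain : h * (1 + x⁻¹ * -algebraMap ℂ K x₀) ^ 2 ∈ O := by
    have h1 : h * (1 + x⁻¹ * -algebraMap ℂ K x₀) ^ 2 =
        algebraMap ℂ K x₀ + (algebraMap ℂ K b + algebraMap ℂ K x₀ ^ 2 +
          2 * algebraMap ℂ K a * algebraMap ℂ K x₀) * x⁻¹ +
        (algebraMap ℂ K c - algebraMap ℂ K x₀ ^ 3 - algebraMap ℂ K a * algebraMap ℂ K x₀ ^ 2 +
          algebraMap ℂ K y₀ ^ 2) * x⁻¹ ^ 2 + 2 * algebraMap ℂ K y₀ * (y * x⁻¹ ^ 2) := by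
      have h2 : (h * (1 + x⁻¹ * -algebraMap ℂ K x₀) ^ 2) * x ^ 2 =
          (algebraMap ℂ K x₀ + (algebraMap ℂ K b + algebraMap ℂ K x₀ ^ 2 +
          2 * algebraMap ℂ K a * algebraMap ℂ K x₀) * x⁻¹ +
        (algebraMap ℂ K c - algebraMap ℂ K x₀ ^ 3 - algebraMap ℂ K a * algebraMap ℂ K x₀ ^ 2 +
          algebraMap ℂ K y₀ ^ 2) * x⁻¹ ^ 2 + 2 * algebraMap ℂ K y₀ * (y * x⁻¹ ^ 2)) * x ^ 2 := by
        have h3 : x⁻¹ * x = 1 := inv_mul_cancel₀ hx0
        have h4 : (1 + x⁻¹ * -algebraMap ℂ K x₀) * x = x - algebraMap ℂ K x₀ := by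
          linear_combination (-algebraMap ℂ K x₀) * h3
        have h5 : (h * (1 + x⁻¹ * -algebraMap ℂ K x₀) ^ 2) * x ^ 2 =
            h * (x - algebraMap ℂ K x₀) ^ 2 := by
          rw [← h4]; ring
        have h6 : (algebraMap ℂ K x₀ + (algebraMap ℂ K b + algebraMap ℂ K x₀ ^ 2 +
          2 * algebraMap ℂ K a * algebraMap ℂ K x₀) * x⁻¹ +
        (algebraMap ℂ K c - algebraMap ℂ K x₀ ^ 3 - algebraMap ℂ K a * algebraMap ℂ K x₀ ^ 2 +
          algebraMap ℂ K y₀ ^ 2) * x⁻¹ ^ 2 + 2 * algebraMap ℂ K y₀ * (y * x⁻¹ ^ 2)) * x ^ 2 =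
            algebraMap ℂ K x₀ * x ^ 2 + (algebraMap ℂ K b + algebraMap ℂ K x₀ ^ 2 +
          2 * algebraMap ℂ K a * algebraMap ℂ K x₀) * x +
        (algebraMap ℂ K c - algebraMap ℂ K x₀ ^ 3 - algebraMap ℂ K a * algebraMap ℂ K x₀ ^ 2 +
          algebraMap ℂ K y₀ ^ 2) + 2 * algebraMap ℂ K y₀ * y := by
          field_simp
        rw [h5, h6]
        linear_combination hh + hy
      exact mul_right_cancel₀ (pow_ne_zero 2 hx0) h2
    rw [h1]
    have c2 : (2 : K) ∈ O := by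
      rw [← map_ofNat (algebraMap ℂ K) 2]
      exact hC 2
    have e1 : algebraMap ℂ K b + algebraMap ℂ K x₀ ^ 2 +
          2 * algebraMap ℂ K a * algebraMap ℂ K x₀ ∈ O :=
      O.add_mem _ _ (O.add_mem _ _ (hC b) (pow_mem (hC x₀) 2))
        (O.mul_mem _ _ (O.mul_mem _ _ c2 (hC a)) (hC x₀))
    have e2 : algebraMap ℂ K c - algebraMap ℂ K x₀ ^ 3 - algebraMap ℂ K a * algebraMap ℂ K x₀ ^ 2 +
          algebraMap ℂ K y₀ ^ 2 ∈ O :=
      O.add_mem _ _ (sub_mem (sub_mem (hC c) (pow_mem (hC x₀) 3))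
        (O.mul_mem _ _ (hC a) (pow_mem (hC x₀) 2))) (pow_mem (hC y₀) 2)
    exact O.add_mem _ _ (O.add_mem _ _ (O.add_mem _ _ (hC x₀) (O.mul_mem _ _ e1 hi))
      (O.mul_mem _ _ e2 (pow_mem hi 2))) (O.mul_mem _ _ (O.mul_mem _ _ c2 (hC y₀)) hyx)
  rcases eq_or_ne h 0 with rfl | hh0
  · exact O.zero_mem
  rw [hv.mem_iff (mul_ne_zero hh0 (pow_ne_zero _ hu.1)), hv.map_mul hh0 (pow_ne_zero _ hu.1),
    hv.map_pow hu.1, hu.2] at hmain
  exact (hv.mem_iff hh0).2 (by simpa using hmain)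

/-- the orders at a place where `h` has a pole of order 2 -/
private lemma C1_fin {K : Type} [Field K] [Algebra ℂ K] {O : ValuationSubring K}
    (hO : IsPlace O) {v : K → ℤ} (hv : IsOrd O v) {x y h l : K} (hx : Transcendental ℂ x)
    (a b c x₀ y₀ : ℂ) (hy : y ^ 2 = x ^ 3 + algebraMap ℂ K a * x ^ 2 + algebraMap ℂ K b * x +
      algebraMap ℂ K c)
    (hl : l * (x - algebraMap ℂ K x₀) = y + algebraMap ℂ K y₀)
    (hh : h = l ^ 2 - algebraMap ℂ K a - x - algebraMap ℂ K x₀) (hh0 : h ≠ 0) (hhv : v h = -2) :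
    x ∈ O ∧ y ∈ O ∧ l ≠ 0 ∧ v l = -1 := by
  have hC : ∀ e : ℂ, algebraMap ℂ K e ∈ O := hO.1
  have hx0 : x ≠ 0 := by
    rintro rfl
    exact hx isAlgebraic_zero
  have hty := C1_trans_y hx a b c hy
  have hy0 : y ≠ 0 := by
    rintro rfl
    exact hty isAlgebraic_zero
  have hhO : h ∉ O := by
    intro hm
    have := C1_nonneg hv hm hh0
    omega
  have hxO : x ∈ O := by
    by_contra hn
    have h1 : v x < 0 := by
      by_contra h2
      exact hn (C1_mem hv (by omega))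
    refine hhO (C1_at_pole hO hv hx a b c x₀ y₀ hy ?_ h1)
    rw [← hl, hh]
    ring
  have hyO : y ∈ O := by
    apply C1_mem hv
    have h1 : y ^ 2 ∈ O := by
      rw [hy]
      exact O.add_mem _ _ (O.add_mem _ _ (O.add_mem _ _ (pow_mem hxO 3)
        (O.mul_mem _ _ (hC a) (pow_mem hxO 2))) (O.mul_mem _ _ (hC b) hxO)) (hC c)
    have h2 := C1_nonneg hv h1 (pow_ne_zero 2 hy0)
    rw [hv.map_pow hy0] at h2
    push_cast at h2
    omega
  have hsO : algebraMap ℂ K a + x + algebraMap ℂ K x₀ ∈ O :=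
    O.add_mem _ _ (O.add_mem _ _ (hC a) hxO) (hC x₀)
  have hl0 : l ≠ 0 := by
    rintro rfl
    apply hhO
    rw [hh]
    have h1 : (0 : K) ^ 2 - algebraMap ℂ K a - x - algebraMap ℂ K x₀ =
        -(algebraMap ℂ K a + x + algebraMap ℂ K x₀) := by ring
    rw [h1]
    exact O.neg_mem _ hsO
  refine ⟨hxO, hyO, hl0, ?_⟩
  have h1 : l ^ 2 = h + (algebraMap ℂ K a + x + algebraMap ℂ K x₀) := by
    rw [hh]
    ring
  have h2 := C1_add hv (x := h) (y := algebraMap ℂ K a + x + algebraMap ℂ K x₀) hh0 (by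
    by_cases h3 : algebraMap ℂ K a + x + algebraMap ℂ K x₀ = 0
    · exact Or.inl h3
    · right
      have := C1_nonneg hv hsO h3
      omega)
  rw [← h1, hv.map_pow hl0, hhv] at h2
  have h3 := h2.2
  push_cast at h3
  omega

/-- `P(x) - P(x₀) = (x - x₀) q` -/
private lemma C1_q {K : Type} [Field K] [Algebra ℂ K] {x y l : K}
    (hx : Transcendental ℂ x) (a b c x₀ y₀ : ℂ)
    (hy : y ^ 2 = x ^ 3 + algebraMap ℂ K a * x ^ 2 + algebraMap ℂ K b * x + algebraMap ℂ K c)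
    (h₀ : y₀ ^ 2 = x₀ ^ 3 + a * x₀ ^ 2 + b * x₀ + c)
    (hl : l * (x - algebraMap ℂ K x₀) = y + algebraMap ℂ K y₀) :
    l * (y - algebraMap ℂ K y₀) = algebraMap ℂ K (3 * x₀ ^ 2 + 2 * a * x₀ + b) +
      (x - algebraMap ℂ K x₀) * (x + 2 * algebraMap ℂ K x₀ + algebraMap ℂ K a) := by
  have h1 := congrArg (algebraMap ℂ K) h₀
  simp only [map_add, map_mul, map_pow] at h1
  have h2 : (x - algebraMap ℂ K x₀) * (l * (y - algebraMap ℂ K y₀) -
      (algebraMap ℂ K (3 * x₀ ^ 2 + 2 * a * x₀ + b) +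
      (x - algebraMap ℂ K x₀) * (x + 2 * algebraMap ℂ K x₀ + algebraMap ℂ K a))) = 0 := by
    simp only [map_add, map_mul, map_pow, map_ofNat]
    linear_combination (y - algebraMap ℂ K y₀) * hl + hy - h1
  exact sub_eq_zero.1 ((mul_eq_zero.1 h2).resolve_left (C1_ne hx x₀))

/-- Proof. `v x < 0` for a place `O` iff `v x⁻¹ ≥ 1`, and then `3 v x = 2 v y`, so `v x⁻¹` is even and `≥ 2`. At a place with
`v (x - e) ≥ 1`, where `e` is a root of the cubic, `y² = (x - e) q(x)` with `q(e) ≠ 0`, so `v (x - e) = 2 v y` is even and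
`≥ 2`. Let `μ` be as in `exists_mult` for `T = x`: `μ none ≥ 2` and `μ (some e_i) ≥ 2` for the three different roots `e_i`;
`hbd` for `S = {none, some e_1, some e_2, some e_3}`: `∑ (1 - 1/μ) ≤ 2` and each term is `≥ 1/2`, so `μ none = 2`. The
place with `v x⁻¹ = 2` has `v x = -2`, `v y = -3`. -/
theorem cubic_inf_on {K : Type} [Field K] [Algebra ℂ K] (T₀ : Finset K)
    (hT₀ : IntermediateField.adjoin ℂ (T₀ : Set K) = ⊤) (a b c : ℂ)
    (hd : ∀ x : ℂ, x ^ 3 + a * x ^ 2 + b * x + c = 0 → 3 * x ^ 2 + 2 * a * x + b ≠ 0) (x y : K)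
    (hbd : BoundOn ({x, y} : Set K))
    (hx : Transcendental ℂ x)
    (hy : y ^ 2 = x ^ 3 + algebraMap ℂ K a * x ^ 2 + algebraMap ℂ K b * x + algebraMap ℂ K c) :
    ∃ (O : ValuationSubring K) (v : K → ℤ), IsPlace O ∧ IsOrd O v ∧ v x = -2 ∧ v y = -3 := by
  classical
  obtain ⟨e1, e2, e3, ha, hb, hc⟩ := C1_roots a b c
  have h12 : e1 ≠ e2 := by
    rintro rfl
    exact hd e1 (by rw [ha, hb, hc]; ring) (by rw [ha, hb]; ring)
  have h13 : e1 ≠ e3 := by
    rintro rfl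
    exact hd e1 (by rw [ha, hb, hc]; ring) (by rw [ha, hb]; ring)
  have h23 : e2 ≠ e3 := by
    rintro rfl
    exact hd e2 (by rw [ha, hb, hc]; ring) (by rw [ha, hb]; ring)
  have hy1 : y ^ 2 = (x - algebraMap ℂ K e1) * (x - algebraMap ℂ K e2) *
      (x - algebraMap ℂ K e3) := by
    rw [hy, ha, hb, hc]
    simp only [map_neg, map_add, map_mul]
    ring
  have hx0 : x ≠ 0 := by
    rintro rfl
    exact hx isAlgebraic_zero
  have hy0 : y ≠ 0 := by
    rintro rfl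
    have h1 : (x - algebraMap ℂ K e1) * (x - algebraMap ℂ K e2) *
        (x - algebraMap ℂ K e3) ≠ 0 :=
      mul_ne_zero (mul_ne_zero (C1_ne hx _) (C1_ne hx _)) (C1_ne hx _)
    exact h1 (by rw [← hy1]; simp)
  obtain ⟨μ, hμ1, hμ2, hμ3⟩ := exists_mult T₀ hT₀ x hx
  have m1 : 2 ≤ μ (some e1) := by
    obtain ⟨O, v, hO, hv, h1⟩ := hμ3 (some e1)
    have h1' : v (x - algebraMap ℂ K e1) = μ (some e1) := h1
    have h2 := hμ1 (some e1)
    have h3 := C1_v2 hv hx hy0 hy1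
    have h6 : 1 ≤ v (x - algebraMap ℂ K e1) := by omega
    have h4 := C1_other hO hv h12 h6
    have h5 := C1_other hO hv h13 h6
    omega
  have m2 : 2 ≤ μ (some e2) := by
    obtain ⟨O, v, hO, hv, h1⟩ := hμ3 (some e2)
    have h1' : v (x - algebraMap ℂ K e2) = μ (some e2) := h1
    have h2 := hμ1 (some e2)
    have h3 := C1_v2 hv hx hy0 hy1
    have h6 : 1 ≤ v (x - algebraMap ℂ K e2) := by omega
    have h4 := C1_other hO hv h12.symm h6
    have h5 := C1_other hO hv h23 h6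
    omega
  have m3 : 2 ≤ μ (some e3) := by
    obtain ⟨O, v, hO, hv, h1⟩ := hμ3 (some e3)
    have h1' : v (x - algebraMap ℂ K e3) = μ (some e3) := h1
    have h2 := hμ1 (some e3)
    have h3 := C1_v2 hv hx hy0 hy1
    have h6 : 1 ≤ v (x - algebraMap ℂ K e3) := by omega
    have h4 := C1_other hO hv h13.symm h6
    have h5 := C1_other hO hv h23.symm h6
    omega
  have hpole : ∀ (O : ValuationSubring K) (v : K → ℤ), IsPlace O → IsOrd O v → v x < 0 →
      2 * v y = 3 * v x := by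
    intro O v hO hv h1
    have h3 := C1_v2 hv hx hy0 hy1
    rw [C1_pole hO hv hx0 e1 h1, C1_pole hO hv hx0 e2 h1, C1_pole hO hv hx0 e3 h1] at h3
    omega
  obtain ⟨O, v, hO, hv, h1⟩ := hμ3 none
  have h1' : v x⁻¹ = μ none := h1
  have h2 := hμ1 none
  rw [hv.map_inv hx0] at h1'
  have h3 := hpole O v hO hv (by omega)
  have m0 : 2 ≤ μ none := by omega
  have hsum := hbd x (IntermediateField.subset_adjoin _ _ (Or.inl rfl)) hx μ hμ1 hμ2 {none, some e1, some e2, some e3}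
  rw [Finset.sum_insert (by simp), Finset.sum_insert (by simp [h12, h13]),
    Finset.sum_insert (by simp [h23]), Finset.sum_singleton] at hsum
  have hhalf : ∀ n : ℕ, 2 ≤ n → (1 / 2 : ℝ) ≤ 1 - 1 / (n : ℝ) := by
    intro n hn
    have h4 : (2 : ℝ) ≤ n := by exact_mod_cast hn
    have h5 : 1 / (n : ℝ) ≤ 1 / 2 := by
      apply one_div_le_one_div_of_le (by norm_num) h4
    linarith
  have hm0 : μ none = 2 := by
    by_contra hne
    have h6 : 3 ≤ μ none := by omega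
    have h4 : (3 : ℝ) ≤ (μ none : ℝ) := by exact_mod_cast h6
    have h5 : 1 / (μ none : ℝ) ≤ 1 / 3 := one_div_le_one_div_of_le (by norm_num) h4
    have := hhalf _ m1
    have := hhalf _ m2
    have := hhalf _ m3
    linarith
  refine ⟨O, v, hO, hv, ?_, ?_⟩ <;> omega

/-- Proof. Translation by `- (x₀, y₀)`: `λ = (y + y₀) / (x - x₀)`, `h = λ² - a - x - x₀`, `y' = λ (h - x₀) - y₀`, and
`y'² = h³ + a h² + b h + c` (`field_simp`, `ring` with the two equations). `h` is transcendental: otherwise it is a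
constant `c₀` (`ℂ` is algebraically closed) and `(y + y₀)² = (c₀ + a + x + x₀) (x - x₀)²`, so `2 y₀ y` is a polynomial in
`x`, `y ∈ ℂ[x]`, impossible since `y²` is a polynomial of degree 3 in the transcendental `x`. `cubic_inf` for `(h, y')`: a
place with `v h = -2`. Claim `v (x - x₀) = 1` and `v (y - y₀) ≥ 1`. If `v x < 0` then `v x = -2 m`, `v y = -3 m` and
`h = (y² - (a + x + x₀)(x - x₀)² + 2 y y₀ + y₀²) / (x - x₀)²`, where `y² - (a + x + x₀)(x - x₀)²` is a polynomial of degree `≤ 2`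
in `x`, so `v h ≥ 0`, contradiction. So `x, y ∈ O`; if `x - x₀` is a unit then `h ∈ O`, contradiction. So `v (x - x₀) ≥ 1`, and
`y² - y₀² = (x - x₀) q` with `q ∈ O`, so `v (y - y₀) ≥ 1` or `v (y + y₀) ≥ 1`. In the second case `y - y₀` is a unit (`2 y₀ ≠ 0`)
and `λ = q / (y - y₀) ∈ O`, `h ∈ O`, contradiction. So `v (y - y₀) ≥ 1`, `y + y₀` is a unit, `v λ = - v (x - x₀)`, and
`v h = 2 v λ = -2`. -/
theorem cubic_point_on {K : Type} [Field K] [Algebra ℂ K] (T₀ : Finset K)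
    (hT₀ : IntermediateField.adjoin ℂ (T₀ : Set K) = ⊤) (a b c : ℂ)
    (hd : ∀ x : ℂ, x ^ 3 + a * x ^ 2 + b * x + c = 0 → 3 * x ^ 2 + 2 * a * x + b ≠ 0) (x y : K)
    (hbd : BoundOn ({x, y} : Set K))
    (hx : Transcendental ℂ x)
    (hy : y ^ 2 = x ^ 3 + algebraMap ℂ K a * x ^ 2 + algebraMap ℂ K b * x + algebraMap ℂ K c)
    (x₀ y₀ : ℂ) (h₀ : y₀ ^ 2 = x₀ ^ 3 + a * x₀ ^ 2 + b * x₀ + c) (hy₀ : y₀ ≠ 0) :
    ∃ (O : ValuationSubring K) (v : K → ℤ), IsPlace O ∧ IsOrd O v ∧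
      v (x - algebraMap ℂ K x₀) = 1 ∧ 1 ≤ v (y - algebraMap ℂ K y₀) := by
  have hxx := C1_ne hx x₀
  set l : K := (y + algebraMap ℂ K y₀) / (x - algebraMap ℂ K x₀) with hldef
  have hl : l * (x - algebraMap ℂ K x₀) = y + algebraMap ℂ K y₀ := div_mul_cancel₀ _ hxx
  have hlF : l ∈ IntermediateField.adjoin ℂ ({x, y} : Set K) := by
    rw [hldef]
    exact div_mem (add_mem (IntermediateField.subset_adjoin _ _ (Or.inr rfl))
      (IntermediateField.algebraMap_mem _ _)) (sub_mem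
        (IntermediateField.subset_adjoin _ _ (Or.inl rfl)) (IntermediateField.algebraMap_mem _ _))
  clear_value l
  obtain ⟨h, hh⟩ : ∃ h : K, h = l ^ 2 - algebraMap ℂ K a - x - algebraMap ℂ K x₀ := ⟨_, rfl⟩
  have hhF : h ∈ IntermediateField.adjoin ℂ ({x, y} : Set K) := by
    rw [hh]
    exact sub_mem (sub_mem (sub_mem (pow_mem hlF 2) (IntermediateField.algebraMap_mem _ _))
      (IntermediateField.subset_adjoin _ _ (Or.inl rfl))) (IntermediateField.algebraMap_mem _ _)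
  obtain ⟨y', hy'⟩ : ∃ y' : K, y' = l * (h - algebraMap ℂ K x₀) - algebraMap ℂ K y₀ := ⟨_, rfl⟩
  have hyF : y' ∈ IntermediateField.adjoin ℂ ({x, y} : Set K) := by
    rw [hy']
    exact sub_mem (mul_mem hlF (sub_mem hhF (IntermediateField.algebraMap_mem _ _)))
      (IntermediateField.algebraMap_mem _ _)
  have h1 := congrArg (algebraMap ℂ K) h₀
  simp only [map_add, map_mul, map_pow] at h1
  have hch := C1_chord _ _ _ _ _ _ _ l h y' hxx hl hh hy' hy h1
  have hht : Transcendental ℂ h := by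
    by_contra hA
    obtain ⟨e, he⟩ := C1_const hA
    refine C1_nsq hx a b c hy (Polynomial.C (1 / (2 * y₀)) *
      ((Polynomial.C e + Polynomial.C a + Polynomial.X + Polynomial.C x₀) *
        (Polynomial.X - Polynomial.C x₀) ^ 2 - (Polynomial.X ^ 3 +
        Polynomial.C a * Polynomial.X ^ 2 + Polynomial.C b * Polynomial.X + Polynomial.C c) -
        Polynomial.C y₀ ^ 2)) ?_
    have hy2 : algebraMap ℂ K y₀ ≠ 0 := (map_ne_zero _).2 hy₀
    have hinv : algebraMap ℂ K (1 / (2 * y₀)) * (2 * algebraMap ℂ K y₀) = 1 := by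
      have : (1 / (2 * y₀)) * (2 * y₀) = 1 := by field_simp
      have h2 := congrArg (algebraMap ℂ K) this
      simpa only [map_mul, map_one, map_ofNat] using h2
    simp only [map_sub, map_add, map_mul, map_pow, Polynomial.aeval_X, Polynomial.aeval_C]
    have h3 : (algebraMap ℂ K e + algebraMap ℂ K a + x + algebraMap ℂ K x₀) *
        (x - algebraMap ℂ K x₀) ^ 2 - (x ^ 3 + algebraMap ℂ K a * x ^ 2 + algebraMap ℂ K b * x +
          algebraMap ℂ K c) - algebraMap ℂ K y₀ ^ 2 = (2 * algebraMap ℂ K y₀) * y := by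
      rw [← hy, he, hh]
      linear_combination (l * (x - algebraMap ℂ K x₀) + y + algebraMap ℂ K y₀) * hl
    rw [h3]
    linear_combination (-y) * hinv
  have hh0 : h ≠ 0 := by
    rintro rfl
    exact hht isAlgebraic_zero
  obtain ⟨O, v, hO, hv, hhv, -⟩ := cubic_inf_on T₀ hT₀ a b c hd h y' (hbd.mono (by
    rintro u (rfl | rfl)
    · exact hhF
    · exact hyF)) hht hch
  obtain ⟨hxO, hyO, hl0, hvl⟩ := C1_fin hO hv hx a b c x₀ y₀ hy hl hh hh0 hhv
  have hC : ∀ e : ℂ, algebraMap ℂ K e ∈ O := hO.1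
  have c2 : (2 : K) ∈ O := by
    rw [← map_ofNat (algebraMap ℂ K) 2]
    exact hC 2
  have hty := C1_trans_y hx a b c hy
  have hym := C1_ne hty y₀
  have hq := C1_q hx a b c x₀ y₀ hy h₀ hl
  have hqO : l * (y - algebraMap ℂ K y₀) ∈ O := by
    rw [hq]
    exact O.add_mem _ _ (hC _) (O.mul_mem _ _ (sub_mem hxO (hC _))
      (O.add_mem _ _ (O.add_mem _ _ hxO (O.mul_mem _ _ c2 (hC _))) (hC _)))
  have h2 := C1_nonneg hv hqO (mul_ne_zero hl0 hym)
  rw [hv.map_mul hl0 hym, hvl] at h2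
  have h3 : 1 ≤ v (y - algebraMap ℂ K y₀) := by omega
  have h4 : v (algebraMap ℂ K (2 * y₀)) = 0 := ord_const hO hv (mul_ne_zero two_ne_zero hy₀)
  have h5 := (C1_add hv (x := algebraMap ℂ K (2 * y₀)) (y := y - algebraMap ℂ K y₀)
    ((map_ne_zero _).2 (mul_ne_zero two_ne_zero hy₀)) (Or.inr (by omega))).2
  have h6 : algebraMap ℂ K (2 * y₀) + (y - algebraMap ℂ K y₀) = y + algebraMap ℂ K y₀ := by
    simp only [map_mul, map_ofNat]
    ring
  rw [h6, h4, ← hl, hv.map_mul hl0 hxx, hvl] at h5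
  exact ⟨O, v, hO, hv, by omega, h3⟩

/-- Proof. `x³ + a x² + b x + c = (x - x₀) q(x)`, `q(x₀) ≠ 0`; `λ = y / (x - x₀)`, `h = λ² - a - x - x₀ = q(x)/(x - x₀) - a - x - x₀`
is transcendental (a nonconstant rational function of `x`), `y' = λ (h - x₀)`, `y'² = h³ + a h² + b h + c`. `cubic_inf` for
`(h, y')`: `v h = -2`. If `v x < 0` then `q(x)/(x - x₀) - x` has order `≥ 0` (`q` is monic of degree 2), contradiction; so
`x ∈ O`, and `x - x₀` is not a unit, `q(x)` is a unit, `v h = - v (x - x₀)`, so `v (x - x₀) = 2` and `2 v y = v (x - x₀) = 2`. -/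
theorem cubic_root_on {K : Type} [Field K] [Algebra ℂ K] (T₀ : Finset K)
    (hT₀ : IntermediateField.adjoin ℂ (T₀ : Set K) = ⊤) (a b c : ℂ)
    (hd : ∀ x : ℂ, x ^ 3 + a * x ^ 2 + b * x + c = 0 → 3 * x ^ 2 + 2 * a * x + b ≠ 0) (x y : K)
    (hbd : BoundOn ({x, y} : Set K))
    (hx : Transcendental ℂ x)
    (hy : y ^ 2 = x ^ 3 + algebraMap ℂ K a * x ^ 2 + algebraMap ℂ K b * x + algebraMap ℂ K c)
    (x₀ : ℂ) (h₀ : x₀ ^ 3 + a * x₀ ^ 2 + b * x₀ + c = 0) :
    ∃ (O : ValuationSubring K) (v : K → ℤ), IsPlace O ∧ IsOrd O v ∧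
      v (x - algebraMap ℂ K x₀) = 2 ∧ v y = 1 := by
  have hxx := C1_ne hx x₀
  have h₀' : (0 : ℂ) ^ 2 = x₀ ^ 3 + a * x₀ ^ 2 + b * x₀ + c := by rw [h₀]; ring
  set l : K := (y + algebraMap ℂ K 0) / (x - algebraMap ℂ K x₀) with hldef
  have hl : l * (x - algebraMap ℂ K x₀) = y + algebraMap ℂ K 0 := div_mul_cancel₀ _ hxx
  have hlF : l ∈ IntermediateField.adjoin ℂ ({x, y} : Set K) := by
    rw [hldef]
    exact div_mem (add_mem (IntermediateField.subset_adjoin _ _ (Or.inr rfl))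
      (IntermediateField.algebraMap_mem _ _)) (sub_mem
        (IntermediateField.subset_adjoin _ _ (Or.inl rfl)) (IntermediateField.algebraMap_mem _ _))
  clear_value l
  obtain ⟨h, hh⟩ : ∃ h : K, h = l ^ 2 - algebraMap ℂ K a - x - algebraMap ℂ K x₀ := ⟨_, rfl⟩
  have hhF : h ∈ IntermediateField.adjoin ℂ ({x, y} : Set K) := by
    rw [hh]
    exact sub_mem (sub_mem (sub_mem (pow_mem hlF 2) (IntermediateField.algebraMap_mem _ _))
      (IntermediateField.subset_adjoin _ _ (Or.inl rfl))) (IntermediateField.algebraMap_mem _ _)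
  obtain ⟨y', hy'⟩ : ∃ y' : K, y' = l * (h - algebraMap ℂ K x₀) - algebraMap ℂ K 0 := ⟨_, rfl⟩
  have hyF : y' ∈ IntermediateField.adjoin ℂ ({x, y} : Set K) := by
    rw [hy']
    exact sub_mem (mul_mem hlF (sub_mem hhF (IntermediateField.algebraMap_mem _ _)))
      (IntermediateField.algebraMap_mem _ _)
  have h1 := congrArg (algebraMap ℂ K) h₀'
  simp only [map_add, map_mul, map_pow] at h1
  have hch := C1_chord _ _ _ _ _ _ _ l h y' hxx hl hh hy' hy h1
  have hq := C1_q hx a b c x₀ 0 hy h₀' hl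
  have hht : Transcendental ℂ h := by
    by_contra hA
    obtain ⟨e, he⟩ := C1_const hA
    have h2 : Polynomial.aeval x ((Polynomial.C e + Polynomial.C a + Polynomial.X +
        Polynomial.C x₀) * (Polynomial.X - Polynomial.C x₀) -
        (Polynomial.C (3 * x₀ ^ 2 + 2 * a * x₀ + b) + (Polynomial.X - Polynomial.C x₀) *
        (Polynomial.X + 2 * Polynomial.C x₀ + Polynomial.C a)) : Polynomial ℂ) = 0 := by
      have h4 : l * (y + algebraMap ℂ K 0) = algebraMap ℂ K (3 * x₀ ^ 2 + 2 * a * x₀ + b) +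
          (x - algebraMap ℂ K x₀) * (x + 2 * algebraMap ℂ K x₀ + algebraMap ℂ K a) := by
        rw [← hq, map_zero]
        ring
      have h5 : Polynomial.aeval x (Polynomial.C (3 * x₀ ^ 2 + 2 * a * x₀ + b) : Polynomial ℂ) =
          algebraMap ℂ K (3 * x₀ ^ 2 + 2 * a * x₀ + b) := Polynomial.aeval_C _ _
      rw [map_sub, map_add _ (Polynomial.C (3 * x₀ ^ 2 + 2 * a * x₀ + b)), h5]
      simp only [map_sub, map_add, map_mul, Polynomial.aeval_X, Polynomial.aeval_C, map_ofNat,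
        map_pow] at h4 ⊢
      rw [he, hh]
      linear_combination l * hl + h4
    have h3 := (transcendental_iff.1 hx) _ h2
    have h4 := congrArg (Polynomial.eval x₀) h3
    simp only [Polynomial.eval_sub, Polynomial.eval_add, Polynomial.eval_mul, Polynomial.eval_C,
      Polynomial.eval_X, Polynomial.eval_zero, sub_self, mul_zero, zero_mul, add_zero,
      zero_sub, neg_eq_zero] at h4
    exact hd x₀ h₀ h4
  have hh0 : h ≠ 0 := by
    rintro rfl
    exact hht isAlgebraic_zero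
  obtain ⟨O, v, hO, hv, hhv, -⟩ := cubic_inf_on T₀ hT₀ a b c hd h y' (hbd.mono (by
    rintro u (rfl | rfl)
    · exact hhF
    · exact hyF)) hht hch
  obtain ⟨hxO, hyO, hl0, hvl⟩ := C1_fin hO hv hx a b c x₀ 0 hy hl hh hh0 hhv
  have hC : ∀ e : ℂ, algebraMap ℂ K e ∈ O := hO.1
  have c2 : (2 : K) ∈ O := by
    rw [← map_ofNat (algebraMap ℂ K) 2]
    exact hC 2
  have hty := C1_trans_y hx a b c hy
  have hy0 : y ≠ 0 := by
    rintro rfl
    exact hty isAlgebraic_zero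
  rw [map_zero, add_zero] at hl
  rw [map_zero, sub_zero] at hq
  have h2 := congrArg v hl
  rw [hv.map_mul hl0 hxx, hvl] at h2
  have h3 := C1_nonneg hv hyO hy0
  have h4 := hd x₀ h₀
  have h5 := (C1_add hv (x := algebraMap ℂ K (3 * x₀ ^ 2 + 2 * a * x₀ + b))
    (y := (x - algebraMap ℂ K x₀) * (x + 2 * algebraMap ℂ K x₀ + algebraMap ℂ K a))
    ((map_ne_zero _).2 h4) (by
      by_cases h6 : x + 2 * algebraMap ℂ K x₀ + algebraMap ℂ K a = 0
      · left
        rw [h6, mul_zero]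
      · right
        have h7 : x + 2 * algebraMap ℂ K x₀ + algebraMap ℂ K a ∈ O :=
          O.add_mem _ _ (O.add_mem _ _ hxO (O.mul_mem _ _ c2 (hC _))) (hC _)
        have h8 := C1_nonneg hv h7 h6
        rw [ord_const hO hv h4, hv.map_mul hxx h6]
        omega)).2
  rw [← hq, ord_const hO hv h4, hv.map_mul hl0 hy0, hvl] at h5
  exact ⟨O, v, hO, hv, by omega, by omega⟩

theorem cubic_inf {K : Type} [Field K] [Algebra ℂ K] (T₀ : Finset K)
    (hT₀ : IntermediateField.adjoin ℂ (T₀ : Set K) = ⊤) (hbd : PencilBound K) (a b c : ℂ)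
    (hd : ∀ x : ℂ, x ^ 3 + a * x ^ 2 + b * x + c = 0 → 3 * x ^ 2 + 2 * a * x + b ≠ 0) (x y : K)
    (hx : Transcendental ℂ x)
    (hy : y ^ 2 = x ^ 3 + algebraMap ℂ K a * x ^ 2 + algebraMap ℂ K b * x + algebraMap ℂ K c) :
    ∃ (O : ValuationSubring K) (v : K → ℤ), IsPlace O ∧ IsOrd O v ∧ v x = -2 ∧ v y = -3 :=
  cubic_inf_on T₀ hT₀ a b c hd x y (hbd.on _) hx hy

theorem cubic_point {K : Type} [Field K] [Algebra ℂ K] (T₀ : Finset K)
    (hT₀ : IntermediateField.adjoin ℂ (T₀ : Set K) = ⊤) (hbd : PencilBound K) (a b c : ℂ)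
    (hd : ∀ x : ℂ, x ^ 3 + a * x ^ 2 + b * x + c = 0 → 3 * x ^ 2 + 2 * a * x + b ≠ 0) (x y : K)
    (hx : Transcendental ℂ x)
    (hy : y ^ 2 = x ^ 3 + algebraMap ℂ K a * x ^ 2 + algebraMap ℂ K b * x + algebraMap ℂ K c)
    (x₀ y₀ : ℂ) (h₀ : y₀ ^ 2 = x₀ ^ 3 + a * x₀ ^ 2 + b * x₀ + c) (hy₀ : y₀ ≠ 0) :
    ∃ (O : ValuationSubring K) (v : K → ℤ), IsPlace O ∧ IsOrd O v ∧
      v (x - algebraMap ℂ K x₀) = 1 ∧ 1 ≤ v (y - algebraMap ℂ K y₀) :=
  cubic_point_on T₀ hT₀ a b c hd x y (hbd.on _) hx hy x₀ y₀ h₀ hy₀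

theorem cubic_root {K : Type} [Field K] [Algebra ℂ K] (T₀ : Finset K)
    (hT₀ : IntermediateField.adjoin ℂ (T₀ : Set K) = ⊤) (hbd : PencilBound K) (a b c : ℂ)
    (hd : ∀ x : ℂ, x ^ 3 + a * x ^ 2 + b * x + c = 0 → 3 * x ^ 2 + 2 * a * x + b ≠ 0) (x y : K)
    (hx : Transcendental ℂ x)
    (hy : y ^ 2 = x ^ 3 + algebraMap ℂ K a * x ^ 2 + algebraMap ℂ K b * x + algebraMap ℂ K c)
    (x₀ : ℂ) (h₀ : x₀ ^ 3 + a * x₀ ^ 2 + b * x₀ + c = 0) :
    ∃ (O : ValuationSubring K) (v : K → ℤ), IsPlace O ∧ IsOrd O v ∧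
      v (x - algebraMap ℂ K x₀) = 2 ∧ v y = 1 :=
  cubic_root_on T₀ hT₀ a b c hd x y (hbd.on _) hx hy x₀ h₀

end Pool.Agent.AbPencil
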