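import Pool.Agent.Lib_MP_1209e6_sp.Defs
import Pool.Agent.Lib_MP_1209e6_ag.Rational
import Pool.Agent.Lib_MP_1209e6_ag.Der
import Pool.Agent.Lib_MP_1209e6_ag.Place

/-! PIECE Z12: unramified places over almost all points. -/

set_option autoImplicit false

open Filter Topology

namespace Pool.Agent.AbPencil

open Pool.Agent.Campana

open MvPolynomial in
open scoped IntermediateField.algebraAdjoinAdjoin in
private lemma Z12_rel {K : Type} [Field K] [Algebra ℂ K] (T y : K) (t : Set K) (hTt : T ∈ t)
    (ht : AlgebraicIndependent ℂ (fun i : t => (i : K)))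
    (hy : IsIntegral (Algebra.adjoin ℂ ({T} : Set K)) y) (b y₀ : ℂ)
    (h : ∀ p : MvPolynomial (Fin 2) ℂ, MvPolynomial.aeval ![T, y] p = 0 →
        MvPolynomial.aeval ![b, y₀] p = 0)
    (q : MvPolynomial (Fin 2) (IntermediateField.adjoin ℂ (t \ {T})))
    (hq : MvPolynomial.aeval ![T, y] q = 0) :
    MvPolynomial.aeval (R := IntermediateField.adjoin ℂ (t \ {T})) ![algebraMap ℂ K b, algebraMap ℂ K y₀] q = 0 := by
  classical
  let Y : Type := {i : t // (i : K) ≠ T}
  let x : Y → K := fun i => ((i : t) : K)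
  have hY : AlgebraicIndependent (Algebra.adjoin ℂ ({T} : Set K)) x := by
    have h1 := ht.adjoin_of_disjoint (s := {i : t | (i : K) = T}) (t := {i : t | (i : K) ≠ T})
      (by
        rw [Set.disjoint_left]
        intro i hi hi'
        exact hi' hi)
    have h2 : (fun i : t => (i : K)) '' {i : t | (i : K) = T} = {T} := by
      ext z
      simp only [Set.mem_image, Set.mem_ofPred_eq, Set.mem_singleton_iff]
      constructor
      · rintro ⟨i, hi, rfl⟩
        exact hi
      · rintro rfl
        exact ⟨⟨z, hTt⟩, rfl, rfl⟩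
    rw [h2] at h1
    exact h1
  let E := integralClosure (Algebra.adjoin ℂ ({T} : Set K)) K
  have hE : AlgebraicIndependent E x := hY.integralClosure
  let T' : E := algebraMap (Algebra.adjoin ℂ ({T} : Set K)) E ⟨T, Algebra.subset_adjoin rfl⟩
  let y' : E := ⟨y, hy⟩
  -- evaluation of polynomials in `Y` over polynomials in two variables
  let ev : (Fin 2 → K) → (MvPolynomial Y (MvPolynomial (Fin 2) ℂ) →+* K) := fun w =>
    eval₂Hom ((aeval w : MvPolynomial (Fin 2) ℂ →ₐ[ℂ] K) : MvPolynomial (Fin 2) ℂ →+* K) x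
  have hev : ∀ r, ev ![T, y] r = 0 → ev ![algebraMap ℂ K b, algebraMap ℂ K y₀] r = 0 := by
    intro r hr
    have h1 : ev ![T, y] r = aeval x (map ((aeval ![T', y'] : MvPolynomial (Fin 2) ℂ →ₐ[ℂ] E) :
        MvPolynomial (Fin 2) ℂ →+* E) r) := by
      rw [aeval_def, eval₂_map]
      have h3 : ((aeval ![T, y] : MvPolynomial (Fin 2) ℂ →ₐ[ℂ] K) : MvPolynomial (Fin 2) ℂ →+* K) =
          (algebraMap E K).comp ((aeval ![T', y'] : MvPolynomial (Fin 2) ℂ →ₐ[ℂ] E) :
        MvPolynomial (Fin 2) ℂ →+* E) := by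
        apply MvPolynomial.ringHom_ext
        · intro c
          simp
        · intro i
          fin_cases i
          · simp
            rfl
          · simp
            rfl
      simp only [ev]
      rw [h3]
      rfl
    have h2 := (algebraicIndependent_iff.1 hE) _ (h1.symm.trans hr)
    have h4 : map ((aeval ![b, y₀] : MvPolynomial (Fin 2) ℂ →ₐ[ℂ] ℂ) :
        MvPolynomial (Fin 2) ℂ →+* ℂ) r = 0 := by
      ext m
      rw [coeff_map, coeff_zero]
      apply h
      have h5 := congrArg (coeff m) h2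
      rw [coeff_map, coeff_zero] at h5
      have h6 := congrArg (algebraMap E K) h5
      rw [map_zero] at h6
      rw [← h6]
      have h3 : ((aeval ![T, y] : MvPolynomial (Fin 2) ℂ →ₐ[ℂ] K) : MvPolynomial (Fin 2) ℂ →+* K) =
          (algebraMap E K).comp ((aeval ![T', y'] : MvPolynomial (Fin 2) ℂ →ₐ[ℂ] E) :
        MvPolynomial (Fin 2) ℂ →+* E) := by
        apply MvPolynomial.ringHom_ext
        · intro c
          simp
        · intro i
          fin_cases i
          · simp
            rfl
          · simp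
            rfl
      exact congrArg (fun f : MvPolynomial (Fin 2) ℂ →+* K => f (coeff m r)) h3
    have h7 : ev ![algebraMap ℂ K b, algebraMap ℂ K y₀] r = eval₂ (algebraMap ℂ K) x
        (map ((aeval ![b, y₀] : MvPolynomial (Fin 2) ℂ →ₐ[ℂ] ℂ) :
        MvPolynomial (Fin 2) ℂ →+* ℂ) r) := by
      rw [eval₂_map]
      have h3 : ((aeval ![algebraMap ℂ K b, algebraMap ℂ K y₀] : MvPolynomial (Fin 2) ℂ →ₐ[ℂ] K) :
          MvPolynomial (Fin 2) ℂ →+* K) =
          (algebraMap ℂ K).comp ((aeval ![b, y₀] : MvPolynomial (Fin 2) ℂ →ₐ[ℂ] ℂ) :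
        MvPolynomial (Fin 2) ℂ →+* ℂ) := by
        apply MvPolynomial.ringHom_ext
        · intro c
          simp
        · intro i
          fin_cases i <;> simp
      simp only [ev]
      rw [h3]
      rfl
    rw [h7, h4, eval₂_zero]
  -- clear denominators
  obtain ⟨d, hd0, p, hp⟩ : ∃ d : K, d ≠ 0 ∧ ∃ p : (Fin 2 →₀ ℕ) → MvPolynomial Y ℂ,
      ∀ n, aeval x (p n) = d * ((coeff n q : IntermediateField.adjoin ℂ (t \ {T})) : K) := by
    obtain ⟨d, hd⟩ := IsLocalization.exist_integer_multiples_of_finset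
      (nonZeroDivisors (Algebra.adjoin ℂ (t \ {T}))) (q.support.image fun n => coeff n q)
    refine ⟨((d : Algebra.adjoin ℂ (t \ {T})) : K), ?_, ?_⟩
    · intro h0
      exact nonZeroDivisors.ne_zero d.2 (Subtype.ext h0)
    have h1 : ∀ n, ∃ P : MvPolynomial Y ℂ, aeval x P =
        ((d : Algebra.adjoin ℂ (t \ {T})) : K) * ((coeff n q : IntermediateField.adjoin ℂ (t \ {T})) : K) := by
      intro n
      by_cases hn : n ∈ q.support
      · obtain ⟨e, he⟩ := hd (coeff n q) (Finset.mem_image_of_mem _ hn)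
        have he2 : (e : K) = ((d : Algebra.adjoin ℂ (t \ {T})) : K) * ((coeff n q : IntermediateField.adjoin ℂ (t \ {T})) : K) := by
          have := congrArg (fun z : IntermediateField.adjoin ℂ (t \ {T}) => (z : K)) he
          exact this
        have h2 : (e : K) ∈ Algebra.adjoin ℂ (Set.range x) := by
          have h3 : Set.range x = t \ {T} := by
            ext z
            constructor
            · rintro ⟨i, rfl⟩
              exact ⟨i.1.2, i.2⟩
            · rintro ⟨hz, hz'⟩
              exact ⟨⟨⟨z, hz⟩, hz'⟩, rfl⟩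
          rw [h3]
          exact e.2
        rw [Algebra.adjoin_range_eq_range_aeval] at h2
        obtain ⟨P, hP⟩ := h2
        exact ⟨P, by rw [← he2]; exact hP⟩
      · rw [notMem_support_iff] at hn
        exact ⟨0, by rw [hn]; simp⟩
    choose p hp using h1
    exact ⟨p, hp⟩
  let q' : MvPolynomial Y (MvPolynomial (Fin 2) ℂ) :=
    ∑ n ∈ q.support, C (monomial n (1 : ℂ)) * map C (p n)
  have hq' : ∀ w : Fin 2 → K, ev w q' = d * aeval w q := by
    intro w
    simp only [q', map_sum, map_mul]
    rw [aeval_def, eval₂_eq', Finset.mul_sum]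
    refine Finset.sum_congr rfl fun n _ => ?_
    have h1 : ev w (C (monomial n (1 : ℂ))) = ∏ i, w i ^ n i := by
      simp only [ev, coe_eval₂Hom, eval₂_C]
      change aeval w (monomial n (1 : ℂ)) = _
      rw [aeval_monomial, map_one, one_mul, Finsupp.prod_fintype]
      simp
    have h2 : ev w (map C (p n)) = aeval x (p n) := by
      simp only [ev, coe_eval₂Hom]
      rw [eval₂_map, aeval_def]
      congr 1
      ext c
      simp
    rw [h1, h2, hp]
    change _ = d * (((coeff n q : IntermediateField.adjoin ℂ (t \ {T})) : K) * _)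
    ring
  have h1 := hev q' (by rw [hq', hq, mul_zero])
  rw [hq'] at h1
  have h2 := (mul_eq_zero.1 h1).resolve_left hd0
  have h3 : ((aeval (R := IntermediateField.adjoin ℂ (t \ {T})) ![algebraMap ℂ K b, algebraMap ℂ K y₀] q : K)) = 0 := h2
  exact h3

open Polynomial IntermediateField in
private lemma Z12_core {F K : Type} [Field F] [Field K] [Algebra F K] (τ : K)
    (hτ : Transcendental F τ) [FiniteDimensional F⟮τ⟯ K] [Algebra.IsSeparable F⟮τ⟯ K]
    (D : Derivation F K K) (hD : D τ = 1) (y : K)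
    (hy : ∃ p : F[X][X], p.Monic ∧ eval₂ ((aeval τ : F[X] →ₐ[F] K) : F[X] →+* K) y p = 0)
    {r : ℕ} (δ : Fin r → K) :
    ∃ G : F[X], G ≠ 0 ∧ ∀ b y₀ : F, G.eval b ≠ 0 →
      (∀ q : MvPolynomial (Fin 2) F, MvPolynomial.aeval ![τ, y] q = 0 →
        MvPolynomial.aeval ![b, y₀] q = 0) →
      ∃ O : ValuationSubring K, IsDiscreteValuationRing O ∧ (∀ c : F, algebraMap F K c ∈ O) ∧
        (τ - algebraMap F K b)⁻¹ ∉ O ∧
        (y = algebraMap F K y₀ ∨ (y - algebraMap F K y₀)⁻¹ ∉ O) ∧
        (∀ i, δ i ∈ O ∧ (δ i)⁻¹ ∈ O) ∧ ∀ x ∈ O, D x ∈ O := by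
  have hinj : ∀ A : F[X], aeval τ A = 0 → A = 0 := fun A h => (transcendental_iff.1 hτ) A h
  let i1 : Algebra F[X] F⟮τ⟯ := (aeval (AdjoinSimple.gen F τ) : F[X] →ₐ[F] F⟮τ⟯).toAlgebra
  let i2 : Algebra F[X] K := (aeval τ : F[X] →ₐ[F] K).toAlgebra
  have hmap : ∀ p : F[X], algebraMap F⟮τ⟯ K (algebraMap F[X] F⟮τ⟯ p) = algebraMap F[X] K p := by
    intro p
    change algebraMap F⟮τ⟯ K (aeval (AdjoinSimple.gen F τ) p) = aeval τ p
    rw [← aeval_algebraMap_apply, AdjoinSimple.algebraMap_gen]
  have i3 : IsScalarTower F[X] F⟮τ⟯ K := IsScalarTower.of_algebraMap_eq fun p => (hmap p).symm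
  have i4 : FaithfulSMul F[X] F⟮τ⟯ := (faithfulSMul_iff_algebraMap_injective _ _).2 <|
    (injective_iff_map_eq_zero _).2 fun p hp => by
      refine hinj p ?_
      have h1 := hmap p
      rw [hp, map_zero] at h1
      exact h1.symm
  have i5 : IsFractionRing F[X] F⟮τ⟯ := by
    refine IsFractionRing.of_field F[X] F⟮τ⟯ fun z => ?_
    obtain ⟨A, B, h⟩ := (IntermediateField.mem_adjoin_simple_iff F (z : K)).1 z.2
    refine ⟨A, B, Subtype.ext ?_⟩
    rw [h]
    have h1 := hmap A
    have h2 := hmap B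
    change _ = algebraMap F⟮τ⟯ K (algebraMap F[X] F⟮τ⟯ A / algebraMap F[X] F⟮τ⟯ B)
    rw [map_div₀, h1, h2]
    rfl
  have i6 : IsDedekindDomain (integralClosure F[X] K) :=
    integralClosure.isDedekindDomain F[X] F⟮τ⟯ K
  have i7 : IsFractionRing (integralClosure F[X] K) K :=
    integralClosure.isFractionRing_of_finite_extension F⟮τ⟯ K
  have i8 : Module.Finite F[X] (integralClosure F[X] K) :=
    IsIntegralClosure.finite F[X] F⟮τ⟯ K (integralClosure F[X] K)
  obtain ⟨s, hs⟩ := i8.fg_top
  classical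
  obtain ⟨G, hG0, hG⟩ := exists_integral_multiples F[X] F⟮τ⟯ (L := K)
    ((s.image fun z : integralClosure F[X] K => D (z : K)) ∪ (Finset.univ.image δ ∪ Finset.univ.image fun i => (δ i)⁻¹))
  refine ⟨G, hG0, fun b y₀ hGb hrel => ?_⟩
  have hsm : ∀ (a : F[X]) (x : K), a • x = aeval τ a * x := fun a x => rfl
  let T' : integralClosure F[X] K := algebraMap F[X] _ X
  have hT' : (T' : K) = τ := aeval_X τ
  have hyint : IsIntegral F[X] y := by
    obtain ⟨p, hp, hp2⟩ := hy
    exact ⟨p, hp, hp2⟩
  let y' : integralClosure F[X] K := ⟨y, hyint⟩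
  let ι : MvPolynomial (Fin 2) F →+* integralClosure F[X] K :=
    MvPolynomial.eval₂Hom ((algebraMap F[X] (integralClosure F[X] K)).comp C) ![T', y']
  have hι : ∀ q, ((ι q : integralClosure F[X] K) : K) = MvPolynomial.aeval ![τ, y] q := by
    intro q
    have h3 : ((algebraMap (integralClosure F[X] K) K).comp ι) =
        ((MvPolynomial.aeval ![τ, y] : MvPolynomial (Fin 2) F →ₐ[F] K) : MvPolynomial (Fin 2) F →+* K) := by
      apply MvPolynomial.ringHom_ext
      · intro c
        simp [ι]
        exact aeval_C τ c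
      · intro i
        fin_cases i
        · simpa [ι] using hT'
        · simp [ι, y']
    exact congrArg (fun f : MvPolynomial (Fin 2) F →+* K => f q) h3
  let i9 : Algebra (MvPolynomial (Fin 2) F) (integralClosure F[X] K) := ι.toAlgebra
  have hι2 : ∀ a : F[X], ι (aeval (MvPolynomial.X 0) a) = algebraMap F[X] _ a := by
    intro a
    apply Subtype.ext
    rw [hι]
    change _ = aeval τ a
    rw [← aeval_algHom_apply]
    simp
  have i10 : Algebra.IsIntegral (MvPolynomial (Fin 2) F) (integralClosure F[X] K) := by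
    constructor
    have h1 : (ι.comp ((aeval (MvPolynomial.X 0) : F[X] →ₐ[F] MvPolynomial (Fin 2) F) :
        F[X] →+* MvPolynomial (Fin 2) F)).IsIntegral := by
      have h2 : (ι.comp ((aeval (MvPolynomial.X 0) : F[X] →ₐ[F] MvPolynomial (Fin 2) F) :
        F[X] →+* MvPolynomial (Fin 2) F)) = algebraMap F[X] (integralClosure F[X] K) := by
        exact RingHom.ext hι2
      rw [h2]
      intro x
      exact Algebra.IsIntegral.isIntegral x
    exact RingHom.IsIntegral.tower_top _ _ h1
  have i11 : (RingHom.ker (MvPolynomial.aeval ![b, y₀] : MvPolynomial (Fin 2) F →ₐ[F] F)).IsPrime :=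
    RingHom.ker_isPrime _
  obtain ⟨Q, hQ, hQ2⟩ := Ideal.exists_ideal_over_prime_of_isIntegral_of_isDomain
    (S := integralClosure F[X] K)
    (RingHom.ker (MvPolynomial.aeval ![b, y₀] : MvPolynomial (Fin 2) F →ₐ[F] F)) (by
      intro q hq
      rw [RingHom.mem_ker] at hq ⊢
      apply hrel
      rw [← hι]
      exact congrArg Subtype.val hq)
  have hQ3 : ∀ q : MvPolynomial (Fin 2) F, ι q ∈ Q ↔ MvPolynomial.aeval ![b, y₀] q = 0 := by
    intro q
    have h1 : q ∈ Q.comap (algebraMap (MvPolynomial (Fin 2) F) (integralClosure F[X] K)) ↔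
        q ∈ (RingHom.ker (MvPolynomial.aeval ![b, y₀] : MvPolynomial (Fin 2) F →ₐ[F] F)) := by
      rw [hQ2]
    rw [RingHom.mem_ker] at h1
    exact h1
  have hX1 : ι (MvPolynomial.X 0 - MvPolynomial.C b) ∈ Q := by
    rw [hQ3]
    simp
  have hX2 : ι (MvPolynomial.X 1 - MvPolynomial.C y₀) ∈ Q := by
    rw [hQ3]
    simp
  have hX1' : ((ι (MvPolynomial.X 0 - MvPolynomial.C b) : integralClosure F[X] K) : K) = τ - algebraMap F K b := by
    rw [hι]
    simp
  have hX2' : ((ι (MvPolynomial.X 1 - MvPolynomial.C y₀) : integralClosure F[X] K) : K) = y - algebraMap F K y₀ := by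
    rw [hι]
    simp
  have hGQ : algebraMap F[X] (integralClosure F[X] K) G ∉ Q := by
    rw [← hι2, hQ3]
    intro h
    apply hGb
    rw [← aeval_algHom_apply] at h
    simpa [coe_aeval_eq_eval] using h
  have hτb : τ - algebraMap F K b ≠ 0 := by
    intro h
    apply hτ
    rw [sub_eq_zero.1 h]
    exact isAlgebraic_algebraMap b
  let v : IsDedekindDomain.HeightOneSpectrum (integralClosure F[X] K) :=
    { asIdeal := Q
      isPrime := hQ
      ne_bot := by
        intro h
        rw [h, Ideal.mem_bot] at hX1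
        apply hτb
        rw [← hX1', hX1]
        rfl }
  -- elements of `Q` are not invertible in `O`
  have hnon : ∀ z : integralClosure F[X] K, z ∈ Q → (z : K) ≠ 0 →
      ((z : K))⁻¹ ∉ v.valuationSubringAtPrime K := by
    rintro z hz hz0 ⟨a, s, hs, h⟩
    apply hs
    have hs0 : (s : K) ≠ 0 := by
      intro h0
      apply hs
      have : s = 0 := Subtype.ext h0
      rw [this]
      exact Q.zero_mem
    have h1 : s = a * z := by
      apply Subtype.ext
      change (s : K) = (a : K) * _
      have h2 : (z : K)⁻¹ = (a : K) * (s : K)⁻¹ := h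
      field_simp at h2
      rw [h2, mul_comm]
    rw [h1]
    exact Q.mul_mem_left _ hz
  have hmem : ∀ z : integralClosure F[X] K, (z : K) ∈ v.valuationSubringAtPrime K := by
    intro z
    refine ⟨z, 1, ?_, ?_⟩
    · intro h
      exact hQ.ne_top ((Ideal.eq_top_iff_one _).2 h)
    · rw [map_one, inv_one, mul_one]
      rfl
  have hmem2 : ∀ z : K, IsIntegral F[X] (G • z) → z ∈ v.valuationSubringAtPrime K := by
    intro z hz
    refine ⟨⟨G • z, hz⟩, algebraMap F[X] _ G, hGQ, ?_⟩
    have hG1 : aeval τ G ≠ 0 := fun h => hG0 (hinj G h)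
    change z = (aeval τ G * z) * (aeval τ G)⁻¹
    field_simp
  have hmemF : ∀ c : F, algebraMap F K c ∈ v.valuationSubringAtPrime K := by
    intro c
    have h1 := hmem (algebraMap F[X] _ (C c))
    have h2 : ((algebraMap F[X] (integralClosure F[X] K) (C c) : integralClosure F[X] K) : K) =
        algebraMap F K c := aeval_C τ c
    rwa [h2] at h1
  have hDB : ∀ z : integralClosure F[X] K, D (z : K) ∈ v.valuationSubringAtPrime K := by
    intro z
    have hz : z ∈ Submodule.span F[X] (s : Set (integralClosure F[X] K)) := by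
      rw [hs]
      trivial
    induction hz using Submodule.span_induction with
    | mem z hz =>
      apply hmem2
      apply hG
      apply Finset.mem_union_left
      exact Finset.mem_image_of_mem (fun z : integralClosure F[X] K => D (z : K)) hz
    | zero =>
      change D (0 : K) ∈ _
      rw [map_zero]
      exact zero_mem _
    | add a c _ _ ha hc =>
      change D ((a : K) + (c : K)) ∈ _
      rw [map_add]
      exact add_mem ha hc
    | smul a c _ hc =>
      change D (aeval τ a * (c : K)) ∈ _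
      rw [Derivation.leibniz, Derivation.map_aeval, hD]
      have h1 : aeval τ a ∈ v.valuationSubringAtPrime K := hmem (algebraMap F[X] _ a)
      have h2 : aeval τ (derivative a) ∈ v.valuationSubringAtPrime K :=
        hmem (algebraMap F[X] _ (derivative a))
      simp only [smul_eq_mul, mul_one]
      exact add_mem (mul_mem h1 hc) (mul_mem (hmem c) h2)
  refine ⟨v.valuationSubringAtPrime K, RatPlace.dvr_of_height_one v, hmemF, ?_, ?_, ?_, ?_⟩
  · rw [← hX1']
    exact hnon _ hX1 (by rw [hX1']; exact hτb)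
  · by_cases h0 : y = algebraMap F K y₀
    · exact Or.inl h0
    · right
      rw [← hX2']
      exact hnon _ hX2 (by rw [hX2']; exact sub_ne_zero.2 h0)
  · intro i
    constructor
    · apply hmem2
      apply hG
      exact Finset.mem_union_right _ (Finset.mem_union_left _ (Finset.mem_image_of_mem _ (Finset.mem_univ i)))
    · apply hmem2
      apply hG
      exact Finset.mem_union_right _ (Finset.mem_union_right _
        (Finset.mem_image_of_mem (fun i => (δ i)⁻¹) (Finset.mem_univ i)))
  · rintro x ⟨a, s, hs, h⟩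
    have hsinv : ((s : K))⁻¹ ∈ v.valuationSubringAtPrime K := by
      refine ⟨1, s, hs, ?_⟩
      rw [map_one, one_mul]
      rfl
    have h2 : x = (a : K) * (s : K)⁻¹ := h
    rw [h2, Derivation.leibniz, Derivation.leibniz_inv]
    simp only [smul_eq_mul]
    have h3 := hDB a
    have h4 := hDB s
    refine add_mem (mul_mem (hmem a) ?_) (mul_mem hsinv h3)
    exact mul_mem (neg_mem (pow_mem hsinv 2)) h4

/-- Compare `exists_place_over` in `Lib_MP_1209e6_sp/P0.lean`. Proof. `{T} ∪ Y` a transcendence basis of `K`, `F = ℂ(Y)`,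
`A = F[T]`, `B` = the integral closure of `A` in `K`: a Dedekind domain with fraction field `K`, finite over `A` (`K` is
finite and separable over `F(T)`), generated by `η_1, …, η_s` as an `A`-module; `y ∈ B`. Let `D₀` be the derivation of `K` with
`D₀ T = 1`, `D₀ = 0` on `Y` (`exists_derivation`), so `D₀ = 0` on `F`. For all but finitely many maximal ideals `p` of `B` we
have `D₀ η_j ∈ B_p` for all `j` and `v_p (δ i) = 0` for all `i`; each `p` contains at most one `T - b`. Let `S` be the set of
the exceptional `b`. Let `b ∉ S` and `y₀` be as in the hypothesis. There is a ring homomorphism `F[T, y] → F` over `F` with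
`T ↦ b`, `y ↦ y₀`: if `q(T, y) = 0` with `q ∈ F[X_1, X_2]`, clear denominators so that `q ∈ ℂ[Y][X_1, X_2]`; since `Y` is
algebraically independent over `ℂ(T, y)` (`y` is algebraic over `ℂ(T)`), all coefficients of monomials in `Y`
vanish at `(T, y)`, so they vanish at `(b, y₀)`. Its kernel is a prime ideal of `F[T, y]`; `B` is integral over `F[T, y]`, so
there is a prime `p` of `B` over it (lying over), which contains `T - b` and `y - y₀`. Let `O`, `v` be its place.
`D₀ (B) ⊆ B_p`, so `D₀ (O) ⊆ O`. If `v (T - b) ≥ 2` then `v (D₀ (T - b)) ≥ 1`, but `D₀ (T - b) = 1`. So `v (T - b) = 1`. -/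
theorem good_places {K : Type} [Field K] [Algebra ℂ K] (T₀ : Finset K)
    (hT₀ : IntermediateField.adjoin ℂ (T₀ : Set K) = ⊤) (T : K) (hT : Transcendental ℂ T) (y : K)
    (hy : IsIntegral (Algebra.adjoin ℂ ({T} : Set K)) y) {r : ℕ} (δ : Fin r → K)
    (hδ : ∀ i, δ i ≠ 0) :
    ∃ S : Finset ℂ, ∀ b : ℂ, b ∉ S → ∀ y₀ : ℂ,
      (∀ p : MvPolynomial (Fin 2) ℂ, MvPolynomial.aeval ![T, y] p = 0 →
        MvPolynomial.aeval ![b, y₀] p = 0) →
      ∃ (O : ValuationSubring K) (v : K → ℤ), IsPlace O ∧ IsOrd O v ∧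
        v (T - algebraMap ℂ K b) = 1 ∧
        (y = algebraMap ℂ K y₀ ∨ 1 ≤ v (y - algebraMap ℂ K y₀)) ∧ ∀ i, v (δ i) = 0 := by
  have h1 : AlgebraicIndepOn ℂ id ({T} : Set K) := by
    exact (algebraicIndependent_singleton_iff (x := fun i : ({T} : Set K) => id (i : K))
      ⟨T, rfl⟩).2 hT
  obtain ⟨t, htT, ht⟩ := exists_isTranscendenceBasis_superset h1
  have hTt : T ∈ t := htT rfl
  let F : IntermediateField ℂ K := IntermediateField.adjoin ℂ (t \ {T})
  have hF : Transcendental F T := by
    have h2 := ht.1.transcendental_adjoin (s := {i : t | (i : K) ≠ T}) (i := ⟨T, hTt⟩) (by simp)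
    have h3 : (fun i : t => (i : K)) '' {i : t | (i : K) ≠ T} = t \ {T} := by
      ext z
      simp only [Set.mem_image, Set.mem_sdiff, Set.mem_singleton_iff]
      constructor
      · rintro ⟨i, hi, rfl⟩
        exact ⟨i.2, hi⟩
      · rintro ⟨hz, hz'⟩
        exact ⟨⟨z, hz⟩, hz', rfl⟩
    rw [h3] at h2
    exact IntermediateField.transcendental_adjoin_iff.2 h2
  have halg : ∀ a : K, IsIntegral (IntermediateField.adjoin F {T}) a := by
    intro a
    have h2 : IsAlgebraic (IntermediateField.adjoin ℂ (Set.range fun i : t => (i : K))) a :=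
      ht.isAlgebraic_field.isAlgebraic a
    have hle : IntermediateField.adjoin ℂ (Set.range fun i : t => (i : K)) ≤
        (IntermediateField.restrictScalars ℂ (IntermediateField.adjoin F {T})) := by
      rw [IntermediateField.adjoin_le_iff]
      rintro _ ⟨i, rfl⟩
      by_cases hi : (i : K) = T
      · change (i : K) ∈ (IntermediateField.adjoin F {T})
        rw [hi]
        exact IntermediateField.mem_adjoin_simple_self F T
      · have h3 : (i : K) ∈ F := IntermediateField.subset_adjoin ℂ _ ⟨i.2, hi⟩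
        exact IntermediateField.algebraMap_mem (IntermediateField.adjoin F {T}) (⟨i, h3⟩ : F)
    obtain ⟨p, hp0, hp⟩ := h2
    refine IsAlgebraic.isIntegral ⟨p.map (IntermediateField.inclusion hle).toRingHom, ?_, ?_⟩
    · exact (Polynomial.map_ne_zero_iff (IntermediateField.inclusion hle).toRingHom.injective).2 hp0
    · rw [Polynomial.aeval_def, Polynomial.eval₂_map]
      exact hp
  have htop : IntermediateField.adjoin (IntermediateField.adjoin F {T}) (T₀ : Set K) = ⊤ := by
    rw [eq_top_iff]
    intro a _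
    have h2 : IntermediateField.adjoin ℂ (T₀ : Set K) ≤
        (IntermediateField.restrictScalars ℂ (IntermediateField.restrictScalars F
          (IntermediateField.adjoin (IntermediateField.adjoin F {T}) (T₀ : Set K)))) := by
      rw [IntermediateField.adjoin_le_iff]
      exact IntermediateField.subset_adjoin (IntermediateField.adjoin F {T}) (T₀ : Set K)
    rw [hT₀] at h2
    exact h2 IntermediateField.mem_top
  have i1 : FiniteDimensional (IntermediateField.adjoin F {T})
      (IntermediateField.adjoin (IntermediateField.adjoin F {T}) (T₀ : Set K)) :=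
    IntermediateField.finiteDimensional_adjoin fun x _ => halg x
  have i2 : FiniteDimensional (IntermediateField.adjoin F {T}) K := by
    rw [htop] at i1
    exact FiniteDimensional.of_surjective
      (IntermediateField.topEquiv (F := (IntermediateField.adjoin F {T})) (E := K)).toLinearEquiv.toLinearMap
      (IntermediateField.topEquiv (F := (IntermediateField.adjoin F {T})) (E := K)).surjective
  have i3 : CharZero (IntermediateField.adjoin F {T}) :=
    charZero_of_injective_algebraMap (algebraMap ℂ (IntermediateField.adjoin F {T})).injective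
  have i4 : Algebra.IsAlgebraic (IntermediateField.adjoin F {T}) K := ⟨fun a => (halg a).isAlgebraic⟩
  have i5 : Algebra.IsSeparable (IntermediateField.adjoin F {T}) K := inferInstance
  have i6 : CharZero F := charZero_of_injective_algebraMap (algebraMap ℂ F).injective
  -- the derivation
  obtain ⟨D, hD⟩ := exists_derivation (k := F) (fun _ : Unit => T)
    ((algebraicIndependent_unique_type_iff).2 hF) (fun _ => 1)
  have hD1 : D T = 1 := hD ()
  -- `y` is integral over `F[T]`
  have hy2 : ∃ p : Polynomial (Polynomial F), p.Monic ∧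
      Polynomial.eval₂ ((Polynomial.aeval T : Polynomial F →ₐ[F] K) : Polynomial F →+* K) y p = 0 := by
    obtain ⟨p₀, hp₀, hp₀'⟩ := hy
    let g : Polynomial ℂ →+* Algebra.adjoin ℂ ({T} : Set K) :=
      ((Polynomial.aeval (⟨T, Algebra.subset_adjoin rfl⟩ : Algebra.adjoin ℂ ({T} : Set K)) :
        Polynomial ℂ →ₐ[ℂ] Algebra.adjoin ℂ ({T} : Set K)) :
        Polynomial ℂ →+* Algebra.adjoin ℂ ({T} : Set K))
    have hgc : ∀ P, ((g P : Algebra.adjoin ℂ ({T} : Set K)) : K) = Polynomial.aeval T P := by
      intro P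
      have := Polynomial.aeval_algHom_apply (Algebra.adjoin ℂ ({T} : Set K)).val
        (⟨T, Algebra.subset_adjoin rfl⟩ : Algebra.adjoin ℂ ({T} : Set K)) P
      exact this.symm
    have hg : Function.Surjective g := by
      rintro ⟨z, hz⟩
      rw [Algebra.adjoin_singleton_eq_range_aeval] at hz
      obtain ⟨P, hP⟩ := hz
      exact ⟨P, Subtype.ext ((hgc P).trans hP)⟩
    have hl : p₀ ∈ Polynomial.lifts g := by
      obtain ⟨q, hq⟩ := Polynomial.map_surjective g hg p₀
      exact (Polynomial.mem_lifts p₀).2 ⟨q, hq⟩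
    obtain ⟨q, hq1, _, hq2⟩ := Polynomial.lifts_and_natDegree_eq_and_monic hl hp₀
    refine ⟨q.map (Polynomial.mapRingHom (algebraMap ℂ F)), hq2.map _, ?_⟩
    rw [Polynomial.eval₂_map]
    rw [← hq1, Polynomial.eval₂_map] at hp₀'
    rw [← hp₀']
    congr 1
    apply Polynomial.ringHom_ext
    · intro c
      change Polynomial.aeval T ((Polynomial.C c).map (algebraMap ℂ F)) = ((g (Polynomial.C c) : Algebra.adjoin ℂ ({T} : Set K)) : K)
      rw [hgc]
      simp
    · change Polynomial.aeval T ((Polynomial.X : Polynomial ℂ).map (algebraMap ℂ F)) = ((g Polynomial.X : Algebra.adjoin ℂ ({T} : Set K)) : K)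
      rw [hgc]
      simp
  obtain ⟨G, hG0, hG⟩ := Z12_core T hF D hD1 y hy2 δ
  have hfin : {b : ℂ | G.eval (algebraMap ℂ F b) = 0}.Finite := by
    have h2 : {z : F | G.eval z = 0}.Finite := by
      classical
      refine (G.roots.toFinset.finite_toSet).subset fun z hz => ?_
      rw [Finset.mem_coe, Multiset.mem_toFinset]
      exact (Polynomial.mem_roots hG0).2 hz
    exact h2.preimage ((algebraMap ℂ F).injective.injOn)
  refine ⟨hfin.toFinset, fun b hb y₀ hrel => ?_⟩
  rw [Set.Finite.mem_toFinset] at hb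
  obtain ⟨O, hO1, hO2, hO3, hO4, hO5, hO6⟩ := hG (algebraMap ℂ F b) (algebraMap ℂ F y₀) hb (by
    intro q hq
    have h2 := Z12_rel T y t hTt ht.1 hy b y₀ hrel q hq
    have h3 : (algebraMap F K) (MvPolynomial.aeval ![algebraMap ℂ F b, algebraMap ℂ F y₀] q) = 0 := by
      rw [← h2]
      have h4 : (![algebraMap ℂ K b, algebraMap ℂ K y₀] : Fin 2 → K) =
          fun i => algebraMap F K (![algebraMap ℂ F b, algebraMap ℂ F y₀] i) := by
        funext i
        fin_cases i <;> rfl
      rw [h4]
      exact (MvPolynomial.aeval_algebraMap_apply K _ q).symm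
    exact (map_eq_zero (algebraMap F K)).1 h3)
  have hO : IsPlace O := ⟨fun c => hO2 (algebraMap ℂ F c), hO1⟩
  obtain ⟨v, hv⟩ := place_order O hO
  have hpos : ∀ x : K, x ≠ 0 → x⁻¹ ∉ O → 1 ≤ v x := by
    intro x hx hx2
    by_contra hlt
    apply hx2
    have h2 := F_ord_inv hv x hx
    have h3 : 0 ≤ v x⁻¹ := by
      rw [h2]
      omega
    exact (hv.2.1 _ (inv_ne_zero hx)).2 h3
  have hTb : T - algebraMap ℂ K b ≠ 0 := by
    intro h
    apply hT
    rw [sub_eq_zero.1 h]
    exact isAlgebraic_algebraMap b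
  have hv1 : 1 ≤ v (T - algebraMap ℂ K b) := hpos _ hTb hO3
  refine ⟨O, v, hO, hv, ?_, ?_, ?_⟩
  · by_contra hne
    have h2 : 2 ≤ v (T - algebraMap ℂ K b) := by omega
    obtain ⟨π, hπ0, hπ⟩ := hv.2.2
    have hπO : π ∈ O := (hv.2.1 _ hπ0).2 (by omega)
    let w : K := (T - algebraMap ℂ K b) * (π ^ 2)⁻¹
    have hw0 : w ≠ 0 := mul_ne_zero hTb (inv_ne_zero (pow_ne_zero 2 hπ0))
    have hwv : v w = v (T - algebraMap ℂ K b) - 2 := by
      simp only [w]
      rw [hv.1 _ _ hTb (inv_ne_zero (pow_ne_zero 2 hπ0)), F_ord_inv hv _ (pow_ne_zero 2 hπ0),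
        pow_two, hv.1 _ _ hπ0 hπ0, hπ]
      ring
    have hwO : w ∈ O := (hv.2.1 _ hw0).2 (by omega)
    have h3 : T - algebraMap ℂ K b = π * (π * w) := by
      simp only [w]
      field_simp
    have h4 : D (T - algebraMap ℂ K b) = 1 := by
      rw [map_sub, hD1]
      have : D (algebraMap ℂ K b) = 0 := D.map_algebraMap (algebraMap ℂ F b)
      rw [this, sub_zero]
    have h5 : D (T - algebraMap ℂ K b) = π * (D (π * w) + w * D π) := by
      rw [h3, D.leibniz π (π * w)]
      simp only [smul_eq_mul]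
      ring
    have h6 : D (π * w) + w * D π ∈ O :=
      add_mem (hO6 _ (mul_mem hπO hwO)) (mul_mem hwO (hO6 _ hπO))
    have h7 : π⁻¹ ∈ O := by
      have h8 : π⁻¹ = D (π * w) + w * D π := by
        rw [h4] at h5
        field_simp
        rw [h5]
      rw [h8]
      exact h6
    have h8 := (hv.2.1 _ (inv_ne_zero hπ0)).1 h7
    rw [F_ord_inv hv _ hπ0, hπ] at h8
    omega
  · by_cases h0 : y = algebraMap ℂ K y₀
    · exact Or.inl h0
    · refine Or.inr (hpos _ (sub_ne_zero.2 h0) (hO4.resolve_left h0))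
  · intro i
    have h2 := (hv.2.1 _ (hδ i)).1 (hO5 i).1
    have h3 := (hv.2.1 _ (inv_ne_zero (hδ i))).1 (hO5 i).2
    rw [F_ord_inv hv _ (hδ i)] at h3
    omega

end Pool.Agent.AbPencil
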