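import Pool.Agent.Lib_MP_1209e6_ab.N2
import Pool.Agent.Lib_MP_1209e6_sk.Z12

/-! PIECE C2: relations on a plane cubic. -/

set_option autoImplicit false

open Filter Topology

namespace Pool.Agent.AbPencil

open Pool.Agent.Campana Pool.Agent.AbFib

/-- the cubic polynomial -/
private noncomputable def cubF (a b c : ℂ) : Polynomial ℂ :=
  Polynomial.X ^ 3 + Polynomial.C a * Polynomial.X ^ 2 + Polynomial.C b * Polynomial.X +
    Polynomial.C c

private theorem cubF_natDegree (a b c : ℂ) : (cubF a b c).natDegree = 3 := by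
  unfold cubF
  compute_degree!

private theorem cubF_ne (a b c : ℂ) : cubF a b c ≠ 0 := by
  intro h
  have := cubF_natDegree a b c
  rw [h] at this
  simp at this

private theorem cubF_aeval {R : Type} [CommRing R] [Algebra ℂ R] (a b c : ℂ) (x : R) :
    Polynomial.aeval x (cubF a b c) =
      x ^ 3 + algebraMap ℂ R a * x ^ 2 + algebraMap ℂ R b * x + algebraMap ℂ R c := by
  simp [cubF]

private theorem cub_sq (a b c : ℂ) (p q : Polynomial ℂ) (h : p ^ 2 = q ^ 2 * cubF a b c) :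
    p = 0 ∧ q = 0 := by
  have hq : q = 0 := by
    by_contra hq
    have hd : (p ^ 2).natDegree = (q ^ 2 * cubF a b c).natDegree := by rw [h]
    rw [Polynomial.natDegree_mul (pow_ne_zero 2 hq) (cubF_ne a b c), Polynomial.natDegree_pow,
      Polynomial.natDegree_pow, cubF_natDegree] at hd
    omega
  refine ⟨?_, hq⟩
  rw [hq] at h
  simpa using h

/-- reduction modulo the cubic -/
private theorem cub_reduce (a b c : ℂ) (p : MvPolynomial (Fin 2) ℂ) :
    ∃ (q : MvPolynomial (Fin 2) ℂ) (p₀ p₁ : Polynomial ℂ),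
      p = q * (MvPolynomial.X 1 ^ 2 - (MvPolynomial.X 0 ^ 3 +
        MvPolynomial.C a * MvPolynomial.X 0 ^ 2 + MvPolynomial.C b * MvPolynomial.X 0 +
          MvPolynomial.C c)) + Polynomial.aeval (MvPolynomial.X 0 : MvPolynomial (Fin 2) ℂ) p₀ +
        Polynomial.aeval (MvPolynomial.X 0 : MvPolynomial (Fin 2) ℂ) p₁ * MvPolynomial.X 1 := by
  induction p using MvPolynomial.induction_on with
  | C e =>
    refine ⟨0, Polynomial.C e, 0, ?_⟩
    simp [MvPolynomial.algebraMap_eq]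
  | add p p' hp hp' =>
    obtain ⟨q, p₀, p₁, h⟩ := hp
    obtain ⟨q', p₀', p₁', h'⟩ := hp'
    refine ⟨q + q', p₀ + p₀', p₁ + p₁', ?_⟩
    rw [map_add, map_add]
    linear_combination h + h'
  | mul_X p i hp =>
    obtain ⟨q, p₀, p₁, h⟩ := hp
    fin_cases i
    · refine ⟨q * MvPolynomial.X 0, p₀ * Polynomial.X, p₁ * Polynomial.X, ?_⟩
      rw [map_mul, map_mul, Polynomial.aeval_X]
      change p * MvPolynomial.X 0 = _
      linear_combination (MvPolynomial.X 0) * h
    · refine ⟨q * MvPolynomial.X 1 +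
        Polynomial.aeval (MvPolynomial.X 0 : MvPolynomial (Fin 2) ℂ) p₁, p₁ * cubF a b c, p₀, ?_⟩
      rw [map_mul, cubF_aeval]
      change p * MvPolynomial.X 1 = _
      simp only [MvPolynomial.algebraMap_eq]
      linear_combination (MvPolynomial.X 1) * h

private theorem cub_aeval {R : Type} [CommRing R] [Algebra ℂ R] (x y : R) (p : Polynomial ℂ) :
    MvPolynomial.aeval ![x, y] (Polynomial.aeval (MvPolynomial.X 0 : MvPolynomial (Fin 2) ℂ) p) =
      Polynomial.aeval x p := by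
  rw [← Polynomial.aeval_algHom_apply]
  simp

/-- Proof. Modulo `Y² - (X³ + a X² + b X + c)` write `p = p₀(X) + p₁(X) Y`. `p(x, y) = 0` gives `p₀(x)² = p₁(x)² (x³ + …)`, hence
`p₀² = p₁² (X³ + …)` as polynomials (`x` is transcendental), so `p₀ = p₁ = 0` (degrees). -/
theorem cubic_rel {K : Type} [Field K] [Algebra ℂ K] (a b c : ℂ) (x y : K)
    (hx : Transcendental ℂ x)
    (hy : y ^ 2 = x ^ 3 + algebraMap ℂ K a * x ^ 2 + algebraMap ℂ K b * x + algebraMap ℂ K c)
    (p : MvPolynomial (Fin 2) ℂ) (hp : MvPolynomial.aeval ![x, y] p = 0) :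
    ∃ q : MvPolynomial (Fin 2) ℂ, p = q * (MvPolynomial.X 1 ^ 2 - (MvPolynomial.X 0 ^ 3 +
      MvPolynomial.C a * MvPolynomial.X 0 ^ 2 + MvPolynomial.C b * MvPolynomial.X 0 +
        MvPolynomial.C c)) := by
  obtain ⟨q, p₀, p₁, h⟩ := cub_reduce a b c p
  have h1 : Polynomial.aeval x p₀ + Polynomial.aeval x p₁ * y = 0 := by
    rw [h] at hp
    simp only [map_add, map_mul, map_sub, map_pow, MvPolynomial.aeval_X, MvPolynomial.aeval_C,
      cub_aeval, Matrix.cons_val_zero, Matrix.cons_val_one] at hp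
    rw [hy] at hp
    linear_combination hp
  have h2 : Polynomial.aeval x (p₀ ^ 2 - p₁ ^ 2 * cubF a b c) = 0 := by
    rw [map_sub, map_mul, map_pow, map_pow, cubF_aeval, ← hy]
    linear_combination (Polynomial.aeval x p₀ - Polynomial.aeval x p₁ * y) * h1
  have h3 : p₀ ^ 2 - p₁ ^ 2 * cubF a b c = 0 := by
    by_contra hne
    exact hx ⟨_, hne, h2⟩
  obtain ⟨h4, h5⟩ := cub_sq a b c p₀ p₁ (sub_eq_zero.1 h3)
  refine ⟨q, ?_⟩
  rw [h4, h5] at h
  simpa using h

/-- `good_places` with `T = x` (`y` is integral over `ℂ[x]`; the relations between `x, y` vanish at `(x₀, y₀)` by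
`cubic_rel`); `y ≠ y₀` because `y` is transcendental. -/
theorem cubic_good {K : Type} [Field K] [Algebra ℂ K] (T₀ : Finset K)
    (hT₀ : IntermediateField.adjoin ℂ (T₀ : Set K) = ⊤) (a b c : ℂ) (x y : K)
    (hx : Transcendental ℂ x)
    (hy : y ^ 2 = x ^ 3 + algebraMap ℂ K a * x ^ 2 + algebraMap ℂ K b * x + algebraMap ℂ K c)
    {r : ℕ} (δ : Fin r → K) (hδ : ∀ i, δ i ≠ 0) :
    ∃ S : Finset ℂ, ∀ x₀ : ℂ, x₀ ∉ S → ∀ y₀ : ℂ, y₀ ^ 2 = x₀ ^ 3 + a * x₀ ^ 2 + b * x₀ + c →
      ∃ (O : ValuationSubring K) (v : K → ℤ), IsPlace O ∧ IsOrd O v ∧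
        v (x - algebraMap ℂ K x₀) = 1 ∧ 1 ≤ v (y - algebraMap ℂ K y₀) ∧ ∀ i, v (δ i) = 0 := by
  have hint : IsIntegral (Algebra.adjoin ℂ ({x} : Set K)) y := by
    refine IsIntegral.of_pow (n := 2) (by norm_num) ?_
    have hxm : x ∈ Algebra.adjoin ℂ ({x} : Set K) := Algebra.subset_adjoin rfl
    have hym : y ^ 2 ∈ Algebra.adjoin ℂ ({x} : Set K) := by
      rw [hy]
      exact add_mem (add_mem (add_mem (pow_mem hxm 3)
        (mul_mem (Subalgebra.algebraMap_mem _ a) (pow_mem hxm 2)))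
          (mul_mem (Subalgebra.algebraMap_mem _ b) hxm)) (Subalgebra.algebraMap_mem _ c)
    exact isIntegral_algebraMap (x := (⟨y ^ 2, hym⟩ : Algebra.adjoin ℂ ({x} : Set K)))
  obtain ⟨S, hS⟩ := good_places T₀ hT₀ x hx y hint δ hδ
  refine ⟨S, fun x₀ hx₀ y₀ hy₀ => ?_⟩
  obtain ⟨O, v, hO, hv, h1, h2, h3⟩ := hS x₀ hx₀ y₀ (by
    intro p hp
    obtain ⟨q, rfl⟩ := cubic_rel a b c x y hx hy p hp
    simp only [map_add, map_mul, map_sub, map_pow, MvPolynomial.aeval_X, MvPolynomial.aeval_C,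
      Matrix.cons_val_zero, Matrix.cons_val_one, Algebra.algebraMap_self, RingHom.id_apply]
    rw [hy₀]
    ring)
  refine ⟨O, v, hO, hv, h1, ?_, h3⟩
  rcases h2 with h2 | h2
  · exfalso
    refine hx ⟨cubF a b c - Polynomial.C (y₀ ^ 2), ?_, ?_⟩
    · intro h0
      have h4 : (cubF a b c - Polynomial.C (y₀ ^ 2)).natDegree = 3 := by
        rw [Polynomial.natDegree_sub_C, cubF_natDegree]
      rw [h0] at h4
      simp at h4
    · rw [map_sub, cubF_aeval, ← hy, Polynomial.aeval_C, h2, ← map_pow, sub_self]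
  · exact h2

/-- Proof. Meromorphic by assumption. `p(x, y) = 0` implies `p(ux, uy) = 0` by `cubic_rel`. Conversely let
`p(ux, uy) = 0` near `0`, `p ≡ p₀(X) + p₁(X) Y` modulo the cubic; `(p₀² - p₁² (X³ + …))(ux) = 0` near `0`; a nonzero polynomial
in `ux` is nonzero off `0` by `hu3` (it is a product of linear factors), so `p₀² = p₁² (X³ + …)`, `p₀ = p₁ = 0` and `p(x, y) = 0`. -/
theorem cubic_dense {K : Type} [Field K] [Algebra ℂ K] (a b c : ℂ) (x y : K)
    (hx : Transcendental ℂ x)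
    (hy : y ^ 2 = x ^ 3 + algebraMap ℂ K a * x ^ 2 + algebraMap ℂ K b * x + algebraMap ℂ K c)
    (ux uy : ℂ → ℂ) (hu0 : ∀ z, MeromorphicAt ux z) (hu1 : ∀ z, MeromorphicAt uy z)
    (hu2 : ∀ z₀, ∀ᶠ z in 𝓝[≠] z₀, uy z ^ 2 = ux z ^ 3 + a * ux z ^ 2 + b * ux z + c)
    (hu3 : ∀ e : ℂ, ∀ z₀, ∀ᶠ z in 𝓝[≠] z₀, ux z ≠ e) :
    IsDenseCurve ![x, y] fun z => ![ux z, uy z] := by
  refine ⟨fun z => ?_, fun p => ⟨fun hp z₀ => ?_, fun hp => ?_⟩⟩
  · obtain ⟨m, hm⟩ := hu0 z
    obtain ⟨n, hn⟩ := hu1 z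
    refine ⟨m + n, analyticAt_pi_iff.2 fun i => ?_⟩
    have hz : AnalyticAt ℂ (fun w : ℂ => w - z) z := analyticAt_id.sub analyticAt_const
    fin_cases i
    · refine ((hz.pow n).smul hm).congr (Filter.Eventually.of_forall fun w => ?_)
      change (w - z) ^ n * ((w - z) ^ m * ux w) = (w - z) ^ (m + n) * ux w
      ring
    · refine ((hz.pow m).smul hn).congr (Filter.Eventually.of_forall fun w => ?_)
      change (w - z) ^ m * ((w - z) ^ n * uy w) = (w - z) ^ (m + n) * uy w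
      ring
  · obtain ⟨q, rfl⟩ := cubic_rel a b c x y hx hy p hp
    filter_upwards [hu2 z₀] with z hz
    simp only [map_add, map_mul, map_sub, map_pow, MvPolynomial.eval_X, MvPolynomial.eval_C,
      Matrix.cons_val_zero, Matrix.cons_val_one]
    rw [hz]
    ring
  · obtain ⟨q, p₀, p₁, h⟩ := cub_reduce a b c p
    have h1 : ∀ᶠ z in 𝓝[≠] (0 : ℂ),
        Polynomial.eval (ux z) (p₀ ^ 2 - p₁ ^ 2 * cubF a b c) = 0 := by
      filter_upwards [hp 0, hu2 0] with z hz1 hz2
      have h2 : Polynomial.eval (ux z) p₀ + Polynomial.eval (ux z) p₁ * uy z = 0 := by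
        have h5 : ∀ r : Polynomial ℂ, MvPolynomial.eval ![ux z, uy z]
            (Polynomial.aeval (MvPolynomial.X 0 : MvPolynomial (Fin 2) ℂ) r) =
              Polynomial.eval (ux z) r := by
          intro r
          have h6 := cub_aeval (ux z) (uy z) r
          rw [MvPolynomial.aeval_eq_eval] at h6
          rw [← Polynomial.coe_aeval_eq_eval]
          exact h6
        rw [h] at hz1
        simp only [map_add, map_mul, map_sub, map_pow, MvPolynomial.eval_X, MvPolynomial.eval_C,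
          Matrix.cons_val_zero, Matrix.cons_val_one, h5] at hz1
        rw [hz2] at hz1
        linear_combination hz1
      have h3 : Polynomial.eval (ux z) (cubF a b c) = uy z ^ 2 := by
        rw [hz2]
        simp [cubF]
      rw [Polynomial.eval_sub, Polynomial.eval_mul, Polynomial.eval_pow, Polynomial.eval_pow, h3]
      linear_combination (Polynomial.eval (ux z) p₀ - Polynomial.eval (ux z) p₁ * uy z) * h2
    have h3 : p₀ ^ 2 - p₁ ^ 2 * cubF a b c = 0 := by
      by_contra hne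
      have h4 : ∀ᶠ z in 𝓝[≠] (0 : ℂ),
          ∀ e ∈ (p₀ ^ 2 - p₁ ^ 2 * cubF a b c).roots.toFinset, ux z ≠ e := by
        rw [Filter.eventually_all_finset]
        intro e _
        exact hu3 e 0
      obtain ⟨z, hz1, hz2⟩ := (h1.and h4).exists
      refine hz2 (ux z) ?_ rfl
      rw [Multiset.mem_toFinset, Polynomial.mem_roots hne]
      exact hz1
    obtain ⟨h4, h5⟩ := cub_sq a b c p₀ p₁ (sub_eq_zero.1 h3)
    rw [h, h4, h5]
    simp only [map_add, map_mul, map_sub, map_pow, MvPolynomial.aeval_X, MvPolynomial.aeval_C,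
      map_zero, Matrix.cons_val_zero, Matrix.cons_val_one]
    rw [hy]
    ring

end Pool.Agent.AbPencil
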