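import Pool.Agent.Lib_MP_1209e6_ab.Defs

/-!
# Special pencils of abelian type: definitions for the statement

`MP_1209e6_ag`. `X` is a variety with function field `K` and a pencil whose generic fibre is the quotient of
an abelian torsor by a finite abelian group.
-/

set_option autoImplicit false

namespace Pool.Agent.AbPencil

open Pool.Agent.AbFib

/-- the field of rational functions in `r` variables `w_1, …, w_r` over `K` -/
abbrev KW (K : Type) [Field K] (r : ℕ) : Type := FractionRing (MvPolynomial (Fin r) K)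

/-- the variables `w_i` -/
noncomputable def wv {K : Type} [Field K] {r : ℕ} (i : Fin r) : KW K r :=
  algebraMap (MvPolynomial (Fin r) K) (KW K r) (MvPolynomial.X i)

/-- The functions `t` and `w_i ^ n_i / δ_i` in `K(w_1, …, w_r)`. -/
noncomputable def twist {K : Type} [Field K] {n₀ r : ℕ} (t : Fin n₀ → K) (δ : Fin r → K)
    (n : Fin r → ℕ) : Fin (n₀ + r) → KW K r :=
  Fin.append (fun a => algebraMap K (KW K r) (t a)) fun i => wv i ^ n i / algebraMap K (KW K r) (δ i)

/-- The functions `t 0, t 1` are the coordinates of a curve of genus at most one: a line (`t 1 = 0`) or a plane cubic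
`y² = x³ + a x² + b x + c` with distinct roots; `t 0` is not constant. -/
def IsBase {K : Type} [Field K] [Algebra ℂ K] (t : Fin 2 → K) : Prop :=
  Transcendental ℂ (t 0) ∧ (t 1 = 0 ∨ ∃ a b c : ℂ,
    (∀ x : ℂ, x ^ 3 + a * x ^ 2 + b * x + c = 0 → 3 * x ^ 2 + 2 * a * x + b ≠ 0) ∧
    t 1 ^ 2 = t 0 ^ 3 + algebraMap ℂ K a * t 0 ^ 2 + algebraMap ℂ K b * t 0 + algebraMap ℂ K c)

/-- The fibration `t` on the variety with function field `K` is of abelian type: for some `δ_i ∈ K^*` and `n_i ≥ 1`
(`1 ≤ i ≤ r`) the functions `t` and `d_i = w_i ^ n_i / δ_i` on `K(w_1, …, w_r)` define an abelian fibration. In other words, the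
covers `w_i ^ n_i = d_i δ_i` of the generic fibre `V` of `t`, where the `d_i` are free parameters, are abelian torsors, so
`V` is the quotient of an abelian torsor by a finite abelian group. The case `r = 0` is: `V` is an abelian torsor. -/
def IsAbelianType {K : Type} [Field K] [Algebra ℂ K] {n₀ : ℕ} (t : Fin n₀ → K) : Prop :=
  ∃ (r N : ℕ) (δ : Fin r → K) (n : Fin r → ℕ) (x : Fin (N + 1) → KW K r),
    (∀ i, δ i ≠ 0) ∧ (∀ i, 1 ≤ n i) ∧ IsAbelianFibration (twist t δ n) x

end Pool.Agent.AbPencil
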