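import Pool.Agent.Lib_MP_1209e6_sp.Defs
import Pool.Agent.Lib_MP_1209e6_sk.Stmt

/-!
# Special pencils of abelian type: definitions (only used in the proof)
-/

set_option autoImplicit false

open Filter Topology

namespace Pool.Agent.AbPencil

open Pool.Agent.Campana Pool.Agent.AbFib

/-- The germs `F` at `z₀` (off `z₀`) satisfy all polynomial relations over `ℂ` between the elements `h`. -/
def Rel {L : Type} [Field L] [Algebra ℂ L] {ι : Type} (z₀ : ℂ) (h : ι → L) (F : ℂ → ι → ℂ) : Prop :=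
  ∀ p : MvPolynomial ι ℂ, MvPolynomial.aeval h p = 0 → ∀ᶠ z in 𝓝[≠] z₀, MvPolynomial.aeval (F z) p = 0

/-- At `z₀` the base curve `U` comes from a place `O` of `K`: there are `τ = A(t)/B(t)` of order `e ≥ 1` at `O`
such that `s = A(U)/B(U)` is holomorphic at `z₀` of order `k e`, and elements `g j ∈ O`, `g 0 = τ`, such that `t`
is given by quotients of polynomials in the `g j`, and `U` by the same quotients of polynomials in `G j` for all
germs `G` which satisfy the relations between the `g j` and start with `s`. Finally `ν i = - k v(δ i)`. -/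
def LocalPlace {K : Type} [Field K] [Algebra ℂ K] {n₀ r : ℕ} (t : Fin n₀ → K)
    (U : ℂ → Fin n₀ → ℂ) (δ : Fin r → K) (z₀ : ℂ) (ν : Fin r → ℤ) : Prop :=
  ∃ (O : ValuationSubring K) (v : K → ℤ) (e k m : ℕ) (g : Fin (m + 1) → K) (s : ℂ → ℂ)
    (A B : MvPolynomial (Fin n₀) ℂ) (A' B' : Fin n₀ → MvPolynomial (Fin (m + 1)) ℂ),
    IsPlace O ∧ IsOrd O v ∧ 1 ≤ e ∧ 1 ≤ k ∧ (∀ j, g j ∈ O) ∧ g 0 ≠ 0 ∧ v (g 0) = e ∧
    (∀ i, ν i = -((k : ℤ) * v (δ i))) ∧
    AnalyticAt ℂ s z₀ ∧ analyticOrderAt s z₀ = (k * e : ℕ) ∧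
    MvPolynomial.aeval t B ≠ 0 ∧ g 0 * MvPolynomial.aeval t B = MvPolynomial.aeval t A ∧
    (∀ᶠ z in 𝓝[≠] z₀, s z * MvPolynomial.aeval (U z) B = MvPolynomial.aeval (U z) A) ∧
    (∀ a, MvPolynomial.aeval g (B' a) ≠ 0 ∧
      MvPolynomial.aeval g (B' a) * t a = MvPolynomial.aeval g (A' a)) ∧
    ∀ G : ℂ → Fin (m + 1) → ℂ, AnalyticAt ℂ G z₀ → (∀ᶠ z in 𝓝 z₀, G z 0 = s z) → Rel z₀ g G →
      ∀ a, ∀ᶠ z in 𝓝[≠] z₀, MvPolynomial.aeval (G z) (B' a) ≠ 0 ∧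
        MvPolynomial.aeval (G z) (B' a) * U z a = MvPolynomial.aeval (G z) (A' a)

end Pool.Agent.AbPencil
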