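import Pool.Agent.Lib_MP_1209e6_ab.B1
import Pool.Agent.Lib_MP_1209e6_sk.Defs

/-! PIECE Z7: relations between germs. -/

set_option autoImplicit false

open Filter Topology

namespace Pool.Agent.AbPencil

open Pool.Agent.Campana Pool.Agent.AbFib

/-- `MvPolynomial.aeval_rename` for the renaming `σ`. -/
theorem rel_map {L : Type} [Field L] [Algebra ℂ L] {ι κ : Type} (σ : κ → ι) {z₀ : ℂ} {h : ι → L}
    {F : ℂ → ι → ℂ} (hR : Rel z₀ h F) : Rel z₀ (fun k => h (σ k)) fun z k => F z (σ k) := by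
  intro p hp
  have h1 : MvPolynomial.aeval h (MvPolynomial.rename σ p) = 0 := by
    rw [MvPolynomial.aeval_rename]
    exact hp
  filter_upwards [hR _ h1] with z hz
  rw [MvPolynomial.aeval_rename] at hz
  exact hz

/-- The relations of all polynomials hold on a common punctured neighbourhood (Hilbert basis theorem:
the ideal of relations is finitely generated). -/
theorem rel_uniform {L : Type} [Field L] [Algebra ℂ L] {ι : Type} [Finite ι] {z₀ : ℂ} {h : ι → L}
    {F : ℂ → ι → ℂ} (hR : Rel z₀ h F) :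
    ∀ᶠ z in 𝓝[≠] z₀, ∀ p : MvPolynomial ι ℂ, MvPolynomial.aeval h p = 0 →
      MvPolynomial.aeval (F z) p = 0 := by
  classical
  obtain ⟨S, hS⟩ : (RingHom.ker (MvPolynomial.aeval h : MvPolynomial ι ℂ →ₐ[ℂ] L)).FG :=
    IsNoetherian.noetherian _
  have h1 : ∀ᶠ z in 𝓝[≠] z₀, ∀ p ∈ S, MvPolynomial.aeval (F z) p = 0 := by
    rw [Filter.eventually_all_finset]
    intro p hp
    refine hR p ?_
    have : p ∈ RingHom.ker (MvPolynomial.aeval h : MvPolynomial ι ℂ →ₐ[ℂ] L) := by
      rw [← hS]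
      exact Ideal.subset_span hp
    exact this
  filter_upwards [h1] with z hz p hp
  have hpm : p ∈ Ideal.span (S : Set (MvPolynomial ι ℂ)) := by
    rw [hS]
    exact hp
  have hle : Ideal.span (S : Set (MvPolynomial ι ℂ)) ≤
      RingHom.ker (MvPolynomial.aeval (F z) : MvPolynomial ι ℂ →ₐ[ℂ] ℂ) := by
    rw [Ideal.span_le]
    intro r hr
    exact hz r hr
  exact hle hpm

/-- substitution of fractions with several denominators -/
private theorem z7_subst {ι κ : Type} [Finite κ] (A B : κ → MvPolynomial ι ℂ)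
    (p : MvPolynomial (ι ⊕ κ) ℂ) :
    ∃ (R : MvPolynomial ι ℂ) (S : MvPolynomial ι ℂ), ∀ {k : Type} [Field k] [Algebra ℂ k]
      (ρ : ι → k) (q : κ → k), (∀ i, MvPolynomial.aeval ρ (B i) ≠ 0) →
      (∀ i, MvPolynomial.aeval ρ (B i) * q i = MvPolynomial.aeval ρ (A i)) →
      MvPolynomial.aeval ρ S ≠ 0 ∧
        MvPolynomial.aeval ρ R = MvPolynomial.aeval ρ S * MvPolynomial.aeval (Sum.elim ρ q) p := by
  induction p using MvPolynomial.induction_on with
  | C a =>
    refine ⟨MvPolynomial.C a, 1, ?_⟩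
    intro k _ _ ρ q hB hq
    simp
  | add p₁ p₂ h₁ h₂ =>
    obtain ⟨R₁, S₁, h₁⟩ := h₁
    obtain ⟨R₂, S₂, h₂⟩ := h₂
    refine ⟨R₁ * S₂ + R₂ * S₁, S₁ * S₂, ?_⟩
    intro k _ _ ρ q hB hq
    obtain ⟨a1, a2⟩ := h₁ ρ q hB hq
    obtain ⟨b1, b2⟩ := h₂ ρ q hB hq
    refine ⟨by rw [map_mul]; exact mul_ne_zero a1 b1, ?_⟩
    rw [map_add, map_mul, map_mul, map_mul, map_add, a2, b2]
    ring
  | mul_X p s hp =>
    obtain ⟨R₁, S₁, h₁⟩ := hp
    rcases s with i | i
    · refine ⟨R₁ * MvPolynomial.X i, S₁, ?_⟩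
      intro k _ _ ρ q hB hq
      obtain ⟨a1, a2⟩ := h₁ ρ q hB hq
      refine ⟨a1, ?_⟩
      rw [map_mul, map_mul, a2, MvPolynomial.aeval_X, MvPolynomial.aeval_X, Sum.elim_inl]
      ring
    · refine ⟨R₁ * A i, S₁ * B i, ?_⟩
      intro k _ _ ρ q hB hq
      obtain ⟨a1, a2⟩ := h₁ ρ q hB hq
      refine ⟨by rw [map_mul]; exact mul_ne_zero a1 (hB i), ?_⟩
      rw [map_mul, map_mul, map_mul, a2, MvPolynomial.aeval_X, Sum.elim_inr, ← hq i]
      ring

/-- Adding quotients of polynomials. Proof: for a polynomial `p` in the variables `ι ⊕ κ` there are `N` and `p'` with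
`p' = (∏ k, B k)^N * p(X, A/B)` as an identity in all fields where the denominators are not zero (induction on `p`,
or `MvPolynomial.induction_on` with an existential statement as in `subst_frac`, `Lib_MP_1209e6_ab/N3.lean`). -/
theorem rel_frac {L : Type} [Field L] [Algebra ℂ L] {ι κ : Type} [Finite κ] {z₀ : ℂ} {h : ι → L}
    {F : ℂ → ι → ℂ} (hR : Rel z₀ h F) (q : κ → L) (Q : ℂ → κ → ℂ) (A B : κ → MvPolynomial ι ℂ)
    (hB : ∀ k, MvPolynomial.aeval h (B k) ≠ 0)
    (hq : ∀ k, MvPolynomial.aeval h (B k) * q k = MvPolynomial.aeval h (A k))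
    (hQ : ∀ k, ∀ᶠ z in 𝓝[≠] z₀, MvPolynomial.aeval (F z) (B k) ≠ 0 ∧
      MvPolynomial.aeval (F z) (B k) * Q z k = MvPolynomial.aeval (F z) (A k)) :
    Rel z₀ (Sum.elim h q) fun z => Sum.elim (F z) (Q z) := by
  intro p hp
  obtain ⟨R, S, hRS⟩ := z7_subst A B p
  have h1 := (hRS h q hB hq).2
  rw [hp, mul_zero] at h1
  filter_upwards [hR R h1, Filter.eventually_all.2 hQ] with z hz1 hz2
  obtain ⟨h3, h4⟩ := hRS (F z) (Q z) (fun i => (hz2 i).1) (fun i => (hz2 i).2)
  rw [hz1] at h4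
  exact (mul_eq_zero.1 h4.symm).resolve_left h3

private theorem z7_iter {K : Type} [CommRing K] [Algebra ℂ K] {ι : Type} {r : ℕ} (g : ι → K)
    (p : MvPolynomial (ι ⊕ Fin r) ℂ) :
    MvPolynomial.map (MvPolynomial.aeval g).toRingHom
      (MvPolynomial.aeval (Sum.elim (fun i => MvPolynomial.C (MvPolynomial.X i)) MvPolynomial.X :
        ι ⊕ Fin r → MvPolynomial (Fin r) (MvPolynomial ι ℂ)) p) =
      MvPolynomial.aeval (Sum.elim (fun j => MvPolynomial.C (g j)) MvPolynomial.X :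
        ι ⊕ Fin r → MvPolynomial (Fin r) K) p := by
  induction p using MvPolynomial.induction_on with
  | C a =>
    rw [MvPolynomial.algHom_C, MvPolynomial.algHom_C, MvPolynomial.algebraMap_apply,
      MvPolynomial.algebraMap_apply, MvPolynomial.map_C]
    simp
  | add p q hp hq => rw [map_add, map_add, hp, hq, map_add]
  | mul_X p s hp =>
    rw [map_mul, map_mul, hp, map_mul]
    congr 1
    rcases s with i | i
    · simp
    · simp

/-- Identities in `K[X_1, …, X_r]` specialise, for all values of the variables `X` at once: the coefficients of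
`p(g, X)` are polynomials in `g` (over `ℂ`) which vanish in `K`. -/
theorem rel_poly {K : Type} [Field K] [Algebra ℂ K] {ι : Type} {r : ℕ} {z₀ : ℂ} {g : ι → K}
    {G : ℂ → ι → ℂ} (hR : Rel z₀ g G) (p : MvPolynomial (ι ⊕ Fin r) ℂ)
    (hp : MvPolynomial.aeval (Sum.elim (fun j => MvPolynomial.C (g j)) MvPolynomial.X :
      ι ⊕ Fin r → MvPolynomial (Fin r) K) p = 0) :
    ∀ᶠ z in 𝓝[≠] z₀, ∀ w : Fin r → ℂ, MvPolynomial.aeval (Sum.elim (G z) w) p = 0 := by
  classical
  set P : MvPolynomial (Fin r) (MvPolynomial ι ℂ) :=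
    MvPolynomial.aeval (Sum.elim (fun i => MvPolynomial.C (MvPolynomial.X i)) MvPolynomial.X :
        ι ⊕ Fin r → MvPolynomial (Fin r) (MvPolynomial ι ℂ)) p with hP
  have h1 := z7_iter (r := r) g p
  rw [hp, ← hP] at h1
  have h2 : ∀ᶠ z in 𝓝[≠] z₀, ∀ α ∈ P.support, MvPolynomial.aeval (G z) (P.coeff α) = 0 := by
    rw [Filter.eventually_all_finset]
    intro α _
    apply hR
    have h3 := congrArg (MvPolynomial.coeff α) h1
    rw [MvPolynomial.coeff_map, MvPolynomial.coeff_zero] at h3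
    exact h3
  filter_upwards [h2] with z hz w
  have h4 := z7_iter (r := r) (G z) p
  rw [← hP] at h4
  have h5 : MvPolynomial.map (MvPolynomial.aeval (G z)).toRingHom P = 0 := by
    ext α
    rw [MvPolynomial.coeff_map, MvPolynomial.coeff_zero]
    by_cases hα : α ∈ P.support
    · exact hz α hα
    · rw [MvPolynomial.notMem_support_iff.1 hα, map_zero]
  rw [h5] at h4
  have h6 := congrArg (MvPolynomial.eval w) h4.symm
  rw [map_zero, MvPolynomial.aeval_def, MvPolynomial.hom_eval₂] at h6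
  rw [MvPolynomial.aeval_def, ← h6]
  congr 1
  · ext a
    simp [MvPolynomial.algebraMap_eq]
  · funext s
    rcases s with i | i
    · simp
    · simp

/-- The variables `w` are free over `K`: from `rel_poly` (`MvPolynomial (Fin r) K → KW K r` is injective). -/
theorem rel_free {K : Type} [Field K] [Algebra ℂ K] {ι : Type} {r : ℕ} {z₀ : ℂ} {g : ι → K}
    {G : ℂ → ι → ℂ} (hR : Rel z₀ g G) (W : ℂ → Fin r → ℂ) :
    Rel z₀ (Sum.elim (fun j => algebraMap K (KW K r) (g j)) (wv : Fin r → KW K r))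
      fun z => Sum.elim (G z) (W z) := by
  intro p hp
  have h1 : MvPolynomial.aeval (Sum.elim (fun j => MvPolynomial.C (g j)) MvPolynomial.X :
      ι ⊕ Fin r → MvPolynomial (Fin r) K) p = 0 := by
    apply IsFractionRing.injective (MvPolynomial (Fin r) K) (KW K r)
    rw [map_zero]
    have h2 : (IsScalarTower.toAlgHom ℂ (MvPolynomial (Fin r) K) (KW K r)).comp
        (MvPolynomial.aeval (Sum.elim (fun j => MvPolynomial.C (g j)) MvPolynomial.X :
          ι ⊕ Fin r → MvPolynomial (Fin r) K)) =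
        MvPolynomial.aeval (Sum.elim (fun j => algebraMap K (KW K r) (g j))
          (wv : Fin r → KW K r)) := by
      apply MvPolynomial.algHom_ext
      rintro (i | i)
      · simp [IsScalarTower.algebraMap_apply K (MvPolynomial (Fin r) K) (KW K r),
          MvPolynomial.algebraMap_eq]
      · simp [wv]
    have h3 := DFunLike.congr_fun h2 p
    rw [hp] at h3
    exact h3
  filter_upwards [rel_poly hR p h1] with z hz
  exact hz _

/-- Proof: `Q z 0 = 1` off `z₀` (relation `X (inr 0) - 1`). Let `V z = (z - z₀)^M • Q z` with `M` large (changed at `z₀` so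
that it is analytic). `V z 0 ≠ 0` for `z ≠ z₀`; all relations in the chart 0 hold at `(U z, V z / V z 0)` by `rel_uniform`,
and one chart suffices (`change_chart`, proof of `Fam.mem_fib_iff` in `Lib_MP_1209e6_ab/B1.lean`). -/
theorem fibre_of_rel {L : Type} [Field L] [Algebra ℂ L] {n N : ℕ} (t : Fin n → L)
    (x : Fin (N + 1) → L) (hx : ∀ l, x l ≠ 0) (z₀ : ℂ) (U : ℂ → Fin n → ℂ)
    (Q : ℂ → Fin (N + 1) → ℂ) (hQ : ∀ l, MeromorphicAt (fun z => Q z l) z₀)
    (h : Rel z₀ (Sum.elim t fun l => x l / x 0) fun z => Sum.elim (U z) (Q z)) :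
    ∃ V : ℂ → Fin (N + 1) → ℂ, AnalyticAt ℂ V z₀ ∧ ∀ᶠ z in 𝓝[≠] z₀, V z ∈ Fibre t x (U z) := by
  classical
  choose m hm using hQ
  set M := Finset.univ.sup m with hM
  have hMl : ∀ l, AnalyticAt ℂ (fun w => (w - z₀) ^ M • Q w l) z₀ := by
    intro l
    have hle : m l ≤ M := Finset.le_sup (Finset.mem_univ l)
    have h1 : AnalyticAt ℂ (fun w => (w - z₀) ^ (M - m l) • ((w - z₀) ^ m l • Q w l)) z₀ :=
      ((analyticAt_id.sub analyticAt_const).pow _).smul (hm l)
    refine h1.congr (Eventually.of_forall fun w => ?_)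
    change (w - z₀) ^ (M - m l) • (w - z₀) ^ m l • Q w l = (w - z₀) ^ M • Q w l
    rw [smul_smul, ← pow_add, Nat.sub_add_cancel hle]
  refine ⟨fun w l => (w - z₀) ^ M • Q w l, analyticAt_pi_iff.2 hMl, ?_⟩
  have h0 : ∀ᶠ z in 𝓝[≠] z₀, Q z 0 = 1 := by
    have h1 := h (MvPolynomial.X (Sum.inr 0) - 1) (by simp [hx 0])
    filter_upwards [h1] with z hz
    simpa [sub_eq_zero] using hz
  filter_upwards [rel_uniform h, h0, self_mem_nhdsWithin] with z hz hz0 hne
  have hpow : (z - z₀) ^ M ≠ 0 := pow_ne_zero _ (sub_ne_zero.2 hne)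
  have hQfib : Q z ∈ Fibre t x (U z) := by
    have hQ0 : Q z 0 ≠ 0 := by rw [hz0]; exact one_ne_zero
    refine ⟨fun h1 => hQ0 (by rw [h1]; rfl), fun j' hj' p hp' => ?_⟩
    obtain ⟨p', d, hd⟩ := change_chart p j' 0
    have h1 := hd t x (hx 0)
    rw [hp', mul_zero] at h1
    have h2 := hz p' h1
    rw [← Fam.co_self 0 (U z) (Q z) hz0, hd (U z) (Q z) hQ0] at h2
    exact (mul_eq_zero.1 h2).resolve_left (pow_ne_zero _ (div_ne_zero hj' hQ0))
  refine ⟨?_, fun j hj p hp => ?_⟩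
  · exact smul_ne_zero hpow hQfib.1
  · have h3 : co (U z) ((z - z₀) ^ M • Q z) j = co (U z) (Q z) j := Fam.co_smul j _ _ hpow
    have h4 : Q z j ≠ 0 := by
      intro h5
      apply hj
      change (z - z₀) ^ M • Q z j = 0
      rw [h5, smul_zero]
    have h5 := hQfib.2 j h4 p hp
    rw [← h3] at h5
    exact h5

/-- Roots of germs of order 0: `f = g` off `z₀` with `g` analytic, `g z₀ ≠ 0`; take the root of the constant and
`exp (log (g / g z₀) / n)` (see `c_root` in `Lib_MP_1209e6_sp/C.lean`). -/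
theorem mero_root {f : ℂ → ℂ} {z₀ : ℂ} (hf : MeromorphicAt f z₀) (h0 : meromorphicOrderAt f z₀ = 0)
    {n : ℕ} (hn : 1 ≤ n) :
    ∃ w : ℂ → ℂ, MeromorphicAt w z₀ ∧ ∀ᶠ z in 𝓝[≠] z₀, w z ^ n = f z := by
  obtain ⟨g, hg, hg0, hfg⟩ := (meromorphicOrderAt_eq_int_iff hf (n := 0)).1 (by exact_mod_cast h0)
  obtain ⟨c, hc⟩ := IsAlgClosed.exists_pow_nat_eq (g z₀) (n := n) (by omega)
  have hn' : (n : ℂ) ≠ 0 := by
    rw [Nat.cast_ne_zero]
    omega
  have hq : AnalyticAt ℂ (fun z => g z / g z₀) z₀ := hg.div analyticAt_const hg0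
  have hlog : AnalyticAt ℂ (fun z => Complex.log (g z / g z₀)) z₀ := by
    apply AnalyticAt.clog hq
    rw [div_self hg0]
    exact Complex.one_mem_slitPlane
  refine ⟨fun z => c * Complex.exp (Complex.log (g z / g z₀) / n), ?_, ?_⟩
  · exact (analyticAt_const.mul ((hlog.div analyticAt_const hn').cexp)).meromorphicAt
  · filter_upwards [hfg, (hg.continuousAt.eventually_ne hg0).filter_mono nhdsWithin_le_nhds]
      with z hz hz0
    rw [hz, zpow_zero, one_smul, mul_pow, ← Complex.exp_nat_mul, hc,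
      mul_div_cancel₀ _ hn', Complex.exp_log (div_ne_zero hz0 hg0), mul_div_cancel₀ _ hg0]

end Pool.Agent.AbPencil
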