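import Pool.Agent.Lib_MP_1209e6_sk.Z0
import Pool.Agent.Lib_MP_1209e6_sk.Z7

/-! PIECE C3: local data at the points of a plane cubic. -/

set_option autoImplicit false

open Filter Topology

namespace Pool.Agent.AbPencil

open Pool.Agent.Campana Pool.Agent.AbFib

/-- a germ tending to zero, not locally zero -/
private theorem c3_germ {f : ℂ → ℂ} {z₀ : ℂ} (hf : MeromorphicAt f z₀)
    (h0 : Tendsto f (𝓝[≠] z₀) (𝓝 0)) (hne : ∀ᶠ z in 𝓝[≠] z₀, f z ≠ 0) :
    ∃ (s : ℂ → ℂ) (k : ℕ), 1 ≤ k ∧ AnalyticAt ℂ s z₀ ∧ analyticOrderAt s z₀ = (k * 1 : ℕ) ∧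
      ∀ᶠ z in 𝓝[≠] z₀, s z = f z := by
  have h1 : 0 ≤ meromorphicOrderAt f z₀ :=
    (tendsto_nhds_iff_meromorphicOrderAt_nonneg hf).1 ⟨0, h0⟩
  have h2 : f =ᶠ[𝓝[≠] z₀] toMeromorphicNFAt f z₀ := hf.eq_nhdsNE_toMeromorphicNFAt
  have h3 : MeromorphicNFAt (toMeromorphicNFAt f z₀) z₀ := meromorphicNFAt_toMeromorphicNFAt
  have h4 : AnalyticAt ℂ (toMeromorphicNFAt f z₀) z₀ := by
    rw [← h3.meromorphicOrderAt_nonneg_iff_analyticAt, ← meromorphicOrderAt_congr h2]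
    exact h1
  have h5 : toMeromorphicNFAt f z₀ z₀ = 0 := by
    have h6 : Tendsto (toMeromorphicNFAt f z₀) (𝓝[≠] z₀) (𝓝 (toMeromorphicNFAt f z₀ z₀)) :=
      h4.continuousAt.tendsto.mono_left nhdsWithin_le_nhds
    exact tendsto_nhds_unique h6 (h0.congr' h2)
  have h6 : analyticOrderAt (toMeromorphicNFAt f z₀) z₀ ≠ ⊤ := by
    intro h
    rw [analyticOrderAt_eq_top] at h
    have h7 := (h.filter_mono nhdsWithin_le_nhds).and (h2.and hne)
    obtain ⟨z, hz1, hz2, hz3⟩ := h7.exists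
    exact hz3 (hz2.trans hz1)
  have h7 : analyticOrderAt (toMeromorphicNFAt f z₀) z₀ ≠ 0 := by
    rw [h4.analyticOrderAt_ne_zero]
    exact h5
  obtain ⟨k, hk⟩ := ENat.ne_top_iff_exists.1 h6
  refine ⟨toMeromorphicNFAt f z₀, k, ?_, h4, ?_, h2.symm⟩
  · rw [← hk] at h7
    rcases Nat.eq_zero_or_pos k with h | h
    · exact absurd (by rw [h]; rfl) h7
    · exact h
  · rw [← hk, mul_one]

private theorem c3_coord {G : ℂ → Fin 3 → ℂ} {z₀ : ℂ} (hG : AnalyticAt ℂ G z₀) (i : Fin 3) :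
    Tendsto (fun z => G z i) (𝓝[≠] z₀) (𝓝 (G z₀ i)) :=
  ((continuous_apply i).tendsto _).comp (hG.continuousAt.tendsto.mono_left nhdsWithin_le_nhds)

/-- the root `x` of the cubic would be algebraic -/
private theorem c3_y_ne {K : Type} [Field K] [Algebra ℂ K] (a b c y₀ : ℂ) (x y : K)
    (hx : Transcendental ℂ x)
    (hy : y ^ 2 = x ^ 3 + algebraMap ℂ K a * x ^ 2 + algebraMap ℂ K b * x + algebraMap ℂ K c) :
    y ≠ algebraMap ℂ K y₀ := by
  intro h
  apply hx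
  obtain ⟨d, hd⟩ : ∃ d : ℂ, d = c - y₀ ^ 2 := ⟨_, rfl⟩
  refine ⟨Polynomial.X ^ 3 + Polynomial.C a * Polynomial.X ^ 2 + Polynomial.C b * Polynomial.X +
    Polynomial.C d, ?_, ?_⟩
  · intro h0
    have h1 := congrArg (fun p => Polynomial.coeff p 3) h0
    simp at h1
  · simp only [map_add, map_mul, map_pow, Polynomial.aeval_X, Polynomial.aeval_C]
    rw [hd, map_sub, map_pow]
    rw [h] at hy
    linear_combination -hy

private theorem c3_x_ne {K : Type} [Field K] [Algebra ℂ K] (x₀ : ℂ) (x : K)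
    (hx : Transcendental ℂ x) : x - algebraMap ℂ K x₀ ≠ 0 := by
  intro h
  apply hx
  have h1 : x = algebraMap ℂ K x₀ := sub_eq_zero.1 h
  rw [h1]
  exact isAlgebraic_algebraMap x₀

private theorem c3_mem {K : Type} [Field K] [Algebra ℂ K] {O : ValuationSubring K} {v : K → ℤ}
    (hv : IsOrd O v) {a : K} (h : a ≠ 0 → 0 ≤ v a) : a ∈ O := by
  by_cases h0 : a = 0
  · rw [h0]
    exact O.zero_mem
  · exact (hv.mem_iff h0).2 (h h0)

/-- Proof. `s` = the analytic function equal to `ux - x₀` off `z₀` and `0` at `z₀`; it is not locally zero, let `k ≥ 1` be its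
order. `e = 1`, `m = 2`, `g = ![x - x₀, y, (y - y₀)/(x - x₀)]`, `A = X 0 - C x₀`, `B = 1`, `A' = ![X 0 + C x₀, X 1]`, `B' = 1`. Let `G` be as in the
last condition. The relation `(g 1)² = cubic (x₀ + g 0)` gives `(G 1)² = cubic (ux) = uy²` off `z₀`; the relation
`g 1 - y₀ = g 0 * g 2` gives `G 1 → y₀` at `z₀`. Since `y₀ ≠ 0` and `uy → y₀`, `G 1 + uy ≠ 0` near `z₀`, so `G 1 = uy` off `z₀`. -/
theorem local_cubic₁ {K : Type} [Field K] [Algebra ℂ K] (a b c : ℂ) (x y : K)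
    (hx : Transcendental ℂ x)
    (hy : y ^ 2 = x ^ 3 + algebraMap ℂ K a * x ^ 2 + algebraMap ℂ K b * x + algebraMap ℂ K c)
    (ux uy : ℂ → ℂ) (z₀ : ℂ) (hu0 : MeromorphicAt ux z₀) (hu1 : MeromorphicAt uy z₀)
    (hu2 : ∀ᶠ z in 𝓝[≠] z₀, uy z ^ 2 = ux z ^ 3 + a * ux z ^ 2 + b * ux z + c)
    (hu3 : ∀ e : ℂ, ∀ᶠ z in 𝓝[≠] z₀, ux z ≠ e) (x₀ y₀ : ℂ) (hy₀ : y₀ ≠ 0)
    (hux : Tendsto ux (𝓝[≠] z₀) (𝓝 x₀)) (huy : Tendsto uy (𝓝[≠] z₀) (𝓝 y₀))
    (O : ValuationSubring K) (hO : IsPlace O) (v : K → ℤ) (hv : IsOrd O v)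
    (h1 : v (x - algebraMap ℂ K x₀) = 1) (h2 : 1 ≤ v (y - algebraMap ℂ K y₀)) {r : ℕ}
    (δ : Fin r → K) :
    ∃ k : ℕ, LocalPlace ![x, y] (fun z => ![ux z, uy z]) δ z₀ fun i => -((k : ℤ) * v (δ i)) := by
  have hx0 := c3_x_ne x₀ x hx
  obtain ⟨s, k, hk, hs1, hs2, hs3⟩ := c3_germ (f := fun z => ux z - x₀)
    (hu0.sub (MeromorphicAt.const x₀ z₀)) (by simpa using hux.sub_const x₀)
    (by filter_upwards [hu3 x₀] with z hz using sub_ne_zero.2 hz)
  have hs0 : Tendsto s (𝓝[≠] z₀) (𝓝 0) := by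
    have h3 : Tendsto (fun z => ux z - x₀) (𝓝[≠] z₀) (𝓝 0) := by simpa using hux.sub_const x₀
    refine h3.congr' ?_
    filter_upwards [hs3] with z hz using hz.symm
  refine ⟨k, O, v, 1, k, 2, ![x - algebraMap ℂ K x₀, y,
    (y - algebraMap ℂ K y₀) / (x - algebraMap ℂ K x₀)], s,
    MvPolynomial.X 0 - MvPolynomial.C x₀, 1, ![MvPolynomial.X 0 + MvPolynomial.C x₀,
    MvPolynomial.X 1], fun _ => 1, hO, hv, le_refl 1, hk, ?_, hx0, by simpa using h1, fun i => rfl,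
    hs1, hs2, ?_, ?_, ?_, ?_, ?_⟩
  · intro j
    fin_cases j
    · exact c3_mem hv (by intro _; simp [h1])
    · have h3 : y - algebraMap ℂ K y₀ ∈ O := c3_mem hv (by intro _; omega)
      have h4 := O.add_mem _ _ h3 (hO.1 y₀)
      simpa using h4
    · refine c3_mem hv ?_
      intro h3
      have h4 : y - algebraMap ℂ K y₀ ≠ 0 := by
        intro h5
        apply h3
        simp [h5]
      have h5 := hv.map_div h4 hx0
      change 0 ≤ v ((y - algebraMap ℂ K y₀) / (x - algebraMap ℂ K x₀))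
      omega
  · simp
  · simp
  · filter_upwards [hs3] with z hz
    simp [hz]
  · intro i
    fin_cases i
    · simp
    · simp
  · intro G hG hG0 hR
    have e1 := hR ((MvPolynomial.X 1) ^ 2 - ((MvPolynomial.X 0 + MvPolynomial.C x₀) ^ 3 +
      MvPolynomial.C a * (MvPolynomial.X 0 + MvPolynomial.C x₀) ^ 2 +
      MvPolynomial.C b * (MvPolynomial.X 0 + MvPolynomial.C x₀) + MvPolynomial.C c)) (by
        simp [hy])
    have e2 := hR (MvPolynomial.X 1 - MvPolynomial.C y₀ - MvPolynomial.X 0 * MvPolynomial.X 2) (by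
        simp only [map_sub, map_mul, MvPolynomial.aeval_X, MvPolynomial.aeval_C]
        change y - algebraMap ℂ K y₀ - (x - algebraMap ℂ K x₀) *
          ((y - algebraMap ℂ K y₀) / (x - algebraMap ℂ K x₀)) = 0
        rw [mul_div_cancel₀ _ hx0, sub_self])
    have hG0' : ∀ᶠ z in 𝓝[≠] z₀, G z 0 = s z := hG0.filter_mono nhdsWithin_le_nhds
    have h3 : Tendsto (fun z => G z 1) (𝓝[≠] z₀) (𝓝 y₀) := by
      have h4 : Tendsto (fun z => y₀ + s z * G z 2) (𝓝[≠] z₀) (𝓝 y₀) := by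
        simpa using (hs0.mul (c3_coord hG 2)).const_add y₀
      refine h4.congr' ?_
      filter_upwards [e2, hG0'] with z hz1 hz2
      simp only [map_sub, map_mul, MvPolynomial.aeval_X, MvPolynomial.aeval_C,
        Algebra.algebraMap_self, RingHom.id_apply] at hz1
      rw [hz2] at hz1
      linear_combination -hz1
    have h5 : ∀ᶠ z in 𝓝[≠] z₀, G z 1 + uy z ≠ 0 := by
      have h6 : Tendsto (fun z => G z 1 + uy z) (𝓝[≠] z₀) (𝓝 (y₀ + y₀)) := h3.add huy
      refine h6.eventually_ne ?_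
      intro h7
      apply hy₀
      linear_combination h7 / 2
    have key : ∀ᶠ z in 𝓝[≠] z₀, G z 0 + x₀ = ux z ∧ G z 1 = uy z := by
      filter_upwards [e1, hG0', hs3, hu2, h5] with z z1 z2 z3 z4 z5
      have z6 : G z 0 + x₀ = ux z := by rw [z2, z3]; ring
      refine ⟨z6, ?_⟩
      simp only [map_sub, map_mul, map_add, map_pow, MvPolynomial.aeval_X, MvPolynomial.aeval_C,
        Algebra.algebraMap_self, RingHom.id_apply] at z1
      rw [z6] at z1
      have z7 : (G z 1 - uy z) * (G z 1 + uy z) = 0 := by linear_combination z1 - z4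
      rcases mul_eq_zero.1 z7 with z8 | z8
      · exact sub_eq_zero.1 z8
      · exact absurd z8 z5
    intro i
    filter_upwards [key] with z hz
    refine ⟨by simp, ?_⟩
    fin_cases i
    · simp [← hz.1]
    · simp [← hz.2]

/-- Proof. As `local_cubic₁` with `s = uy` (analytic version), which is not locally zero (otherwise `ux` is locally a
root of the cubic, but it is not locally constant), `g = ![y, x, (x - x₀)/y]`, `A = X 1`, `B = 1`, `A' = ![X 1, X 0]`, `B' = 1`. For `G`: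
`cubic (G 1) = (G 0)² = uy² = cubic (ux)`, and `G 1 → x₀` by the relation `g 1 - x₀ = g 0 * g 2`, `ux → x₀`;
`cubic s - cubic t = (s - t) Q(s, t)` with `Q(x₀, x₀) = 3 x₀² + 2 a x₀ + b ≠ 0`, so `G 1 = ux` off `z₀`. -/
theorem local_cubic₂ {K : Type} [Field K] [Algebra ℂ K] (a b c : ℂ) (x y : K)
    (hx : Transcendental ℂ x)
    (hy : y ^ 2 = x ^ 3 + algebraMap ℂ K a * x ^ 2 + algebraMap ℂ K b * x + algebraMap ℂ K c)
    (ux uy : ℂ → ℂ) (z₀ : ℂ) (hu0 : MeromorphicAt ux z₀) (hu1 : MeromorphicAt uy z₀)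
    (hu2 : ∀ᶠ z in 𝓝[≠] z₀, uy z ^ 2 = ux z ^ 3 + a * ux z ^ 2 + b * ux z + c)
    (hu3 : ∀ e : ℂ, ∀ᶠ z in 𝓝[≠] z₀, ux z ≠ e) (x₀ : ℂ)
    (hx₀ : 3 * x₀ ^ 2 + 2 * a * x₀ + b ≠ 0)
    (hux : Tendsto ux (𝓝[≠] z₀) (𝓝 x₀)) (huy : Tendsto uy (𝓝[≠] z₀) (𝓝 0))
    (O : ValuationSubring K) (hO : IsPlace O) (v : K → ℤ) (hv : IsOrd O v)
    (h1 : v (x - algebraMap ℂ K x₀) = 2) (h2 : v y = 1) {r : ℕ} (δ : Fin r → K) :
    ∃ k : ℕ, LocalPlace ![x, y] (fun z => ![ux z, uy z]) δ z₀ fun i => -((k : ℤ) * v (δ i)) := by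
  have hx0 := c3_x_ne x₀ x hx
  have hy0 : y ≠ 0 := by simpa using c3_y_ne a b c 0 x y hx hy
  have huyne : ∀ᶠ z in 𝓝[≠] z₀, uy z ≠ 0 := by
    set P : Polynomial ℂ := Polynomial.X ^ 3 + Polynomial.C a * Polynomial.X ^ 2 +
      Polynomial.C b * Polynomial.X + Polynomial.C c with hP
    have hP0 : P ≠ 0 := by
      intro h0
      have h3 := congrArg (fun p => Polynomial.coeff p 3) h0
      simp [hP] at h3
    have h3 : ∀ᶠ z in 𝓝[≠] z₀, ∀ e ∈ P.roots.toFinset, ux z ≠ e := by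
      rw [eventually_all_finset]
      intro e _
      exact hu3 e
    filter_upwards [h3, hu2] with z z1 z2 z3
    refine z1 (ux z) ?_ rfl
    rw [Multiset.mem_toFinset, Polynomial.mem_roots hP0, Polynomial.IsRoot.def, hP]
    simp only [Polynomial.eval_add, Polynomial.eval_mul, Polynomial.eval_pow, Polynomial.eval_X,
      Polynomial.eval_C]
    rw [← z2, z3]
    ring
  obtain ⟨s, k, hk, hs1, hs2, hs3⟩ := c3_germ (f := uy) hu1 huy huyne
  have hs0 : Tendsto s (𝓝[≠] z₀) (𝓝 0) := by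
    refine huy.congr' ?_
    filter_upwards [hs3] with z hz using hz.symm
  refine ⟨k, O, v, 1, k, 2, ![y, x, (x - algebraMap ℂ K x₀) / y], s,
    MvPolynomial.X 1, 1, ![MvPolynomial.X 1, MvPolynomial.X 0], fun _ => 1, hO, hv, le_refl 1, hk,
    ?_, hy0, by simpa using h2, fun i => rfl, hs1, hs2, ?_, ?_, ?_, ?_, ?_⟩
  · intro j
    fin_cases j
    · exact c3_mem hv (by intro _; simp [h2])
    · have h3 : x - algebraMap ℂ K x₀ ∈ O := c3_mem hv (by intro _; omega)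
      have h4 := O.add_mem _ _ h3 (hO.1 x₀)
      simpa using h4
    · refine c3_mem hv ?_
      intro h3
      have h5 := hv.map_div hx0 hy0
      change 0 ≤ v ((x - algebraMap ℂ K x₀) / y)
      omega
  · simp
  · simp
  · filter_upwards [hs3] with z hz
    simp [hz]
  · intro i
    fin_cases i
    · simp
    · simp
  · intro G hG hG0 hR
    have e1 := hR ((MvPolynomial.X 0) ^ 2 - ((MvPolynomial.X 1) ^ 3 +
      MvPolynomial.C a * (MvPolynomial.X 1) ^ 2 +
      MvPolynomial.C b * (MvPolynomial.X 1) + MvPolynomial.C c)) (by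
        simp [hy])
    have e2 := hR (MvPolynomial.X 1 - MvPolynomial.C x₀ - MvPolynomial.X 0 * MvPolynomial.X 2) (by
        simp only [map_sub, map_mul, MvPolynomial.aeval_X, MvPolynomial.aeval_C]
        change x - algebraMap ℂ K x₀ - y * ((x - algebraMap ℂ K x₀) / y) = 0
        rw [mul_div_cancel₀ _ hy0, sub_self])
    have hG0' : ∀ᶠ z in 𝓝[≠] z₀, G z 0 = s z := hG0.filter_mono nhdsWithin_le_nhds
    have h3 : Tendsto (fun z => G z 1) (𝓝[≠] z₀) (𝓝 x₀) := by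
      have h4 : Tendsto (fun z => x₀ + s z * G z 2) (𝓝[≠] z₀) (𝓝 x₀) := by
        simpa using (hs0.mul (c3_coord hG 2)).const_add x₀
      refine h4.congr' ?_
      filter_upwards [e2, hG0'] with z hz1 hz2
      simp only [map_sub, map_mul, MvPolynomial.aeval_X, MvPolynomial.aeval_C,
        Algebra.algebraMap_self, RingHom.id_apply] at hz1
      rw [hz2] at hz1
      linear_combination -hz1
    have h5 : ∀ᶠ z in 𝓝[≠] z₀,
        G z 1 ^ 2 + G z 1 * ux z + ux z ^ 2 + a * (G z 1 + ux z) + b ≠ 0 := by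
      have h6 : Tendsto (fun z => G z 1 ^ 2 + G z 1 * ux z + ux z ^ 2 + a * (G z 1 + ux z) + b)
          (𝓝[≠] z₀) (𝓝 (x₀ ^ 2 + x₀ * x₀ + x₀ ^ 2 + a * (x₀ + x₀) + b)) :=
        ((((h3.pow 2).add (h3.mul hux)).add (hux.pow 2)).add ((h3.add hux).const_mul a)).add_const b
      refine h6.eventually_ne ?_
      intro h7
      apply hx₀
      linear_combination h7
    have key : ∀ᶠ z in 𝓝[≠] z₀, G z 1 = ux z ∧ G z 0 = uy z := by
      filter_upwards [e1, hG0', hs3, hu2, h5] with z z1 z2 z3 z4 z5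
      have z6 : G z 0 = uy z := by rw [z2, z3]
      refine ⟨?_, z6⟩
      simp only [map_sub, map_mul, map_add, map_pow, MvPolynomial.aeval_X, MvPolynomial.aeval_C,
        Algebra.algebraMap_self, RingHom.id_apply] at z1
      rw [z6] at z1
      have z7 : (G z 1 - ux z) *
          (G z 1 ^ 2 + G z 1 * ux z + ux z ^ 2 + a * (G z 1 + ux z) + b) = 0 := by
        linear_combination z4 - z1
      rcases mul_eq_zero.1 z7 with z8 | z8
      · exact sub_eq_zero.1 z8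
      · exact absurd z8 z5
    intro i
    filter_upwards [key] with z hz
    refine ⟨by simp, ?_⟩
    fin_cases i
    · simp [← hz.1]
    · simp [← hz.2]

/-- Proof. `1/ux → 0` and `(ux/uy)² = (1/ux) / (1 + a/ux + b/ux² + c/ux³) → 0`. `s` = the analytic function equal to
`ux/uy` off `z₀` and `0` at `z₀`, not locally zero. `e = 1`, `m = 2`, `g = ![x/y, 1/x, y/x²]` (orders `1`, `2`, `1`),
`A = X 0`, `B = X 1`, `A' = ![1, 1]`, `B' = ![X 1, X 0 * X 1]`. For `G`: the relations `g 1 = (g 0)² (1 + a g 1 + b (g 1)² + c (g 1)³)` and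
`g 1 = g 0 * g 2`; so `G 1` and `R = 1/ux` both satisfy `R = s² (1 + a R + b R² + c R³)` and tend to `0`; subtract:
`(R - R') (1 - s² (a + b (R + R') + c (R² + R R' + R'²))) = 0`, so `G 1 = 1/ux ≠ 0` off `z₀`, and `G 0 * G 1 = s/ux = 1/uy`. -/
theorem local_cubic₃ {K : Type} [Field K] [Algebra ℂ K] (a b c : ℂ) (x y : K)
    (hx : Transcendental ℂ x)
    (hy : y ^ 2 = x ^ 3 + algebraMap ℂ K a * x ^ 2 + algebraMap ℂ K b * x + algebraMap ℂ K c)
    (ux uy : ℂ → ℂ) (z₀ : ℂ) (hu0 : MeromorphicAt ux z₀) (hu1 : MeromorphicAt uy z₀)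
    (hu2 : ∀ᶠ z in 𝓝[≠] z₀, uy z ^ 2 = ux z ^ 3 + a * ux z ^ 2 + b * ux z + c)
    (hux : Tendsto ux (𝓝[≠] z₀) (Bornology.cobounded ℂ))
    (O : ValuationSubring K) (hO : IsPlace O) (v : K → ℤ) (hv : IsOrd O v)
    (h1 : v x = -2) (h2 : v y = -3) {r : ℕ} (δ : Fin r → K) :
    ∃ k : ℕ, LocalPlace ![x, y] (fun z => ![ux z, uy z]) δ z₀ fun i => -((k : ℤ) * v (δ i)) := by
  have hx0 : x ≠ 0 := by simpa using c3_x_ne 0 x hx
  have hy0 : y ≠ 0 := by simpa using c3_y_ne a b c 0 x y hx hy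
  have hR0 : Tendsto (fun z => (ux z)⁻¹) (𝓝[≠] z₀) (𝓝 0) := tendsto_inv₀_cobounded.comp hux
  have huxne : ∀ᶠ z in 𝓝[≠] z₀, ux z ≠ 0 := hux.eventually (Bornology.eventually_ne_cobounded 0)
  -- the polynomial at infinity
  have hq : Tendsto (fun z => 1 + a * (ux z)⁻¹ + b * (ux z)⁻¹ ^ 2 + c * (ux z)⁻¹ ^ 3)
      (𝓝[≠] z₀) (𝓝 1) := by
    have h3 := (((hR0.const_mul a).const_add 1).add ((hR0.pow 2).const_mul b)).add
      ((hR0.pow 3).const_mul c)
    simpa using h3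
  have hqne : ∀ᶠ z in 𝓝[≠] z₀, 1 + a * (ux z)⁻¹ + b * (ux z)⁻¹ ^ 2 + c * (ux z)⁻¹ ^ 3 ≠ 0 :=
    hq.eventually_ne one_ne_zero
  have huy2 : ∀ᶠ z in 𝓝[≠] z₀, uy z ^ 2 =
      ux z ^ 3 * (1 + a * (ux z)⁻¹ + b * (ux z)⁻¹ ^ 2 + c * (ux z)⁻¹ ^ 3) := by
    filter_upwards [hu2, huxne] with z z1 z2
    rw [z1]
    field_simp
  have huyne : ∀ᶠ z in 𝓝[≠] z₀, uy z ≠ 0 := by
    filter_upwards [huy2, huxne, hqne] with z z1 z2 z3 z4
    rw [z4] at z1
    exact (mul_ne_zero (pow_ne_zero 3 z2) z3) (by rw [← z1]; ring)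
  have hf2 : Tendsto (fun z => (ux z / uy z) ^ 2) (𝓝[≠] z₀) (𝓝 0) := by
    have h3 := hR0.div hq one_ne_zero
    rw [zero_div] at h3
    refine h3.congr' ?_
    filter_upwards [huy2, huxne, hqne] with z z1 z2 z3
    rw [div_pow, z1]
    change (ux z)⁻¹ / _ = _
    have z4 : ux z ^ 3 * (1 + a * (ux z)⁻¹ + b * (ux z)⁻¹ ^ 2 + c * (ux z)⁻¹ ^ 3) ≠ 0 :=
      mul_ne_zero (pow_ne_zero 3 z2) z3
    rw [div_eq_div_iff z3 z4]
    field_simp
  have hf : Tendsto (fun z => ux z / uy z) (𝓝[≠] z₀) (𝓝 0) := by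
    rw [tendsto_zero_iff_norm_tendsto_zero]
    have h3 := (tendsto_zero_iff_norm_tendsto_zero.1 hf2).sqrt
    rw [Real.sqrt_zero] at h3
    refine h3.congr fun z => ?_
    rw [norm_pow, Real.sqrt_sq (norm_nonneg _)]
  obtain ⟨s, k, hk, hs1, hs2, hs3⟩ := c3_germ (f := fun z => ux z / uy z) (hu0.div hu1) hf
    (by filter_upwards [huxne, huyne] with z z1 z2 using div_ne_zero z1 z2)
  have hs0 : Tendsto s (𝓝[≠] z₀) (𝓝 0) := by
    refine hf.congr' ?_
    filter_upwards [hs3] with z hz using hz.symm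
  refine ⟨k, O, v, 1, k, 2, ![x / y, 1 / x, y / x ^ 2], s,
    MvPolynomial.X 0, MvPolynomial.X 1, fun _ => 1,
    ![MvPolynomial.X 1, MvPolynomial.X 0 * MvPolynomial.X 1], hO, hv, le_refl 1, hk,
    ?_, div_ne_zero hx0 hy0, ?_, fun i => rfl, hs1, hs2, ?_, ?_, ?_, ?_, ?_⟩
  · intro j
    fin_cases j
    · refine c3_mem hv fun _ => ?_
      have h5 := hv.map_div hx0 hy0
      change 0 ≤ v (x / y)
      omega
    · refine c3_mem hv fun _ => ?_
      have h5 := hv.map_div one_ne_zero hx0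
      have h6 := hv.map_one
      change 0 ≤ v (1 / x)
      omega
    · refine c3_mem hv fun _ => ?_
      have h5 := hv.map_div hy0 (pow_ne_zero 2 hx0)
      have h6 := hv.map_pow hx0 2
      change 0 ≤ v (y / x ^ 2)
      push_cast at h6
      omega
  · have h5 := hv.map_div hx0 hy0
    change v (x / y) = ((1 : ℕ) : ℤ)
    push_cast
    omega
  · simpa using hy0
  · simp only [MvPolynomial.aeval_X]
    change x / y * y = x
    exact div_mul_cancel₀ x hy0
  · filter_upwards [hs3, huyne] with z hz z1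
    simp only [MvPolynomial.aeval_X]
    change s z * uy z = ux z
    rw [hz]
    exact div_mul_cancel₀ _ z1
  · intro i
    fin_cases i
    · change MvPolynomial.aeval _ (MvPolynomial.X 1) ≠ 0 ∧
        MvPolynomial.aeval _ (MvPolynomial.X 1) * x = MvPolynomial.aeval _ 1
      simp only [MvPolynomial.aeval_X, map_one]
      change 1 / x ≠ 0 ∧ 1 / x * x = 1
      exact ⟨one_div_ne_zero hx0, one_div_mul_cancel hx0⟩
    · change MvPolynomial.aeval _ (MvPolynomial.X 0 * MvPolynomial.X 1) ≠ 0 ∧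
        MvPolynomial.aeval _ (MvPolynomial.X 0 * MvPolynomial.X 1) * y = MvPolynomial.aeval _ 1
      simp only [MvPolynomial.aeval_X, map_one, map_mul]
      change x / y * (1 / x) ≠ 0 ∧ x / y * (1 / x) * y = 1
      refine ⟨mul_ne_zero (div_ne_zero hx0 hy0) (one_div_ne_zero hx0), ?_⟩
      field_simp
  · intro G hG hG0 hR
    have e1 := hR (MvPolynomial.X 1 - (MvPolynomial.X 0) ^ 2 * (1 +
      MvPolynomial.C a * MvPolynomial.X 1 +
      MvPolynomial.C b * (MvPolynomial.X 1) ^ 2 + MvPolynomial.C c * (MvPolynomial.X 1) ^ 3)) (by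
        simp only [map_sub, map_mul, map_add, map_pow, map_one, MvPolynomial.aeval_X,
          MvPolynomial.aeval_C]
        change 1 / x - (x / y) ^ 2 * (1 + algebraMap ℂ K a * (1 / x) +
          algebraMap ℂ K b * (1 / x) ^ 2 + algebraMap ℂ K c * (1 / x) ^ 3) = 0
        have h3 : (x / y) ^ 2 * (1 + algebraMap ℂ K a * (1 / x) +
          algebraMap ℂ K b * (1 / x) ^ 2 + algebraMap ℂ K c * (1 / x) ^ 3) =
          (x ^ 3 + algebraMap ℂ K a * x ^ 2 + algebraMap ℂ K b * x + algebraMap ℂ K c) /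
            (y ^ 2 * x) := by
          field_simp
        rw [h3, ← hy]
        field_simp
        ring)
    have e2 := hR (MvPolynomial.X 1 - MvPolynomial.X 0 * MvPolynomial.X 2) (by
        simp only [map_sub, map_mul, MvPolynomial.aeval_X]
        change 1 / x - x / y * (y / x ^ 2) = 0
        field_simp
        ring)
    have hG0' : ∀ᶠ z in 𝓝[≠] z₀, G z 0 = s z := hG0.filter_mono nhdsWithin_le_nhds
    have h3 : Tendsto (fun z => G z 1) (𝓝[≠] z₀) (𝓝 0) := by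
      have h4 : Tendsto (fun z => s z * G z 2) (𝓝[≠] z₀) (𝓝 0) := by
        simpa using (hs0.mul (c3_coord hG 2))
      refine h4.congr' ?_
      filter_upwards [e2, hG0'] with z hz1 hz2
      simp only [map_sub, map_mul, MvPolynomial.aeval_X] at hz1
      rw [hz2] at hz1
      linear_combination -hz1
    have h5 : ∀ᶠ z in 𝓝[≠] z₀, 1 - s z ^ 2 * (a + b * (G z 1 + (ux z)⁻¹) +
        c * (G z 1 ^ 2 + G z 1 * (ux z)⁻¹ + (ux z)⁻¹ ^ 2)) ≠ 0 := by
      have h6 := ((hs0.pow 2).mul ((((h3.add hR0).const_mul b).const_add a).add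
        ((((h3.pow 2).add (h3.mul hR0)).add (hR0.pow 2)).const_mul c))).const_sub 1
      refine h6.eventually_ne ?_
      simp
    have key : ∀ᶠ z in 𝓝[≠] z₀, G z 1 = (ux z)⁻¹ ∧ G z 0 = ux z / uy z := by
      filter_upwards [e1, hG0', hs3, hu2, h5, huxne, huyne] with z z1 z2 z3 z4 z5 z6 z7
      refine ⟨?_, z2.trans z3⟩
      simp only [map_sub, map_mul, map_add, map_pow, map_one, MvPolynomial.aeval_X,
        MvPolynomial.aeval_C, Algebra.algebraMap_self, RingHom.id_apply] at z1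
      have z8 : (ux z)⁻¹ = s z ^ 2 * (1 + a * (ux z)⁻¹ + b * (ux z)⁻¹ ^ 2 + c * (ux z)⁻¹ ^ 3) := by
        rw [z3]
        have z9 : (ux z / uy z) ^ 2 * (1 + a * (ux z)⁻¹ + b * (ux z)⁻¹ ^ 2 + c * (ux z)⁻¹ ^ 3) =
            (ux z ^ 3 + a * ux z ^ 2 + b * ux z + c) / (uy z ^ 2 * ux z) := by
          field_simp
        rw [z9, ← z4]
        field_simp
      rw [z2] at z1
      have z9 : (G z 1 - (ux z)⁻¹) * (1 - s z ^ 2 * (a + b * (G z 1 + (ux z)⁻¹) +
          c * (G z 1 ^ 2 + G z 1 * (ux z)⁻¹ + (ux z)⁻¹ ^ 2))) = 0 := by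
        linear_combination z1 - z8
      rcases mul_eq_zero.1 z9 with z10 | z10
      · exact sub_eq_zero.1 z10
      · exact absurd z10 z5
    intro i
    filter_upwards [key, huxne, huyne] with z hz z1 z2
    fin_cases i
    · change MvPolynomial.aeval (G z) (MvPolynomial.X 1) ≠ 0 ∧
        MvPolynomial.aeval (G z) (MvPolynomial.X 1) * ux z = MvPolynomial.aeval (G z) 1
      simp only [MvPolynomial.aeval_X, map_one]
      rw [hz.1]
      exact ⟨inv_ne_zero z1, inv_mul_cancel₀ z1⟩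
    · change MvPolynomial.aeval (G z) (MvPolynomial.X 0 * MvPolynomial.X 1) ≠ 0 ∧
        MvPolynomial.aeval (G z) (MvPolynomial.X 0 * MvPolynomial.X 1) * uy z =
          MvPolynomial.aeval (G z) 1
      simp only [MvPolynomial.aeval_X, map_one, map_mul]
      rw [hz.1, hz.2]
      refine ⟨mul_ne_zero (div_ne_zero z1 z2) (inv_ne_zero z1), ?_⟩
      field_simp

end Pool.Agent.AbPencil
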