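import Pool.Agent.Lib_MP_1209e6_sp.E2
import Pool.Agent.Lib_MP_1209e6_sk.C1
import Pool.Agent.Lib_MP_1209e6_sk.C2
import Pool.Agent.Lib_MP_1209e6_sk.C3

/-! PIECE C4: base curves for pencils over an elliptic curve. -/

set_option autoImplicit false

open Filter Topology

namespace Pool.Agent.AbPencil

open Pool.Agent.Campana Pool.Agent.AbFib

/-- `uy` tends to some `y₀` with `y₀² = x₀³ + a x₀² + b x₀ + c`. -/
private theorem tendsto_uy (a b c : ℂ) (ux uy : ℂ → ℂ) (z₀ : ℂ) (hmy : MeromorphicAt uy z₀)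
    (heq : ∀ᶠ z in 𝓝[≠] z₀, uy z ^ 2 = ux z ^ 3 + a * ux z ^ 2 + b * ux z + c) (x₀ : ℂ)
    (hux : Tendsto ux (𝓝[≠] z₀) (𝓝 x₀)) :
    ∃ y₀ : ℂ, Tendsto uy (𝓝[≠] z₀) (𝓝 y₀) ∧ y₀ ^ 2 = x₀ ^ 3 + a * x₀ ^ 2 + b * x₀ + c := by
  have hsq : Tendsto (fun z => uy z ^ 2) (𝓝[≠] z₀) (𝓝 (x₀ ^ 3 + a * x₀ ^ 2 + b * x₀ + c)) := by
    have h1 : Tendsto (fun z => ux z ^ 3 + a * ux z ^ 2 + b * ux z + c) (𝓝[≠] z₀)
        (𝓝 (x₀ ^ 3 + a * x₀ ^ 2 + b * x₀ + c)) :=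
      (((hux.pow 3).add ((hux.pow 2).const_mul a)).add (hux.const_mul b)).add tendsto_const_nhds
    exact h1.congr' (heq.mono fun z hz => hz.symm)
  rcases lt_or_ge (meromorphicOrderAt uy z₀) 0 with ho | ho
  · exfalso
    have h1 := tendsto_cobounded_of_meromorphicOrderAt_neg ho
    have h2 : Tendsto (fun z => ‖uy z‖) (𝓝[≠] z₀) atTop :=
      tendsto_norm_atTop_iff_cobounded.2 h1
    have h3 : Tendsto (fun z => ‖uy z‖ ^ 2) (𝓝[≠] z₀) atTop :=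
      (tendsto_pow_atTop two_ne_zero).comp h2
    have h4 : Tendsto (fun z => ‖uy z ^ 2‖) (𝓝[≠] z₀) atTop := by
      refine h3.congr fun z => ?_
      rw [norm_pow]
    exact not_tendsto_atTop_of_tendsto_nhds hsq.norm h4
  · obtain ⟨y₀, hy₀⟩ := tendsto_nhds_of_meromorphicOrderAt_nonneg hmy ho
    exact ⟨y₀, hy₀, tendsto_nhds_unique (hy₀.pow 2) hsq⟩

/-- Proof. `ux, uy` from `ellCurve a b c hd`, dense by `cubic_dense`. `S` from `cubic_good`, enlarged by the roots of the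
cubic. At `z₀` the meromorphic function `ux` either tends to infinity (`local_cubic₃` with the place of
`cubic_inf`), or tends to some `x₀`; then `uy` (meromorphic, `uy²` bounded) tends to some `y₀` with
`y₀² = x₀³ + a x₀² + b x₀ + c`. If `x₀ ∉ S` use `local_cubic₁` with the place of `cubic_good` (`v (δ i) = 0`, `ν z₀ = 0`); if
`x₀ ∈ S` and `y₀ ≠ 0` use `local_cubic₁` with the place of `cubic_point`; if `y₀ = 0` use `local_cubic₂` with the place of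
`cubic_root`. Choose `ν z₀` accordingly. Its support is discrete: near `z₁`, for `w ≠ z₁`, `ux` is analytic at `w` and
`ux w ∉ S` (`ux` is analytic and different from the elements of `S` off `z₁`), so the first case with `x₀ ∉ S` applies at `w`. -/
theorem local_cubic_on {K : Type} [Field K] [Algebra ℂ K] (T₀ : Finset K)
    (hT₀ : IntermediateField.adjoin ℂ (T₀ : Set K) = ⊤) (a b c : ℂ)
    (hd : ∀ x : ℂ, x ^ 3 + a * x ^ 2 + b * x + c = 0 → 3 * x ^ 2 + 2 * a * x + b ≠ 0) (x y : K)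
    (hbd : BoundOn ({x, y} : Set K))
    (hx : Transcendental ℂ x)
    (hy : y ^ 2 = x ^ 3 + algebraMap ℂ K a * x ^ 2 + algebraMap ℂ K b * x + algebraMap ℂ K c)
    {r : ℕ} (δ : Fin r → K) (hδ : ∀ i, δ i ≠ 0) :
    ∃ (U : ℂ → Fin 2 → ℂ) (ν : ℂ → Fin r → ℤ), IsDenseCurve ![x, y] U ∧
      (∀ z, ∀ᶠ w in 𝓝[≠] z, ν w = 0) ∧ ∀ z, LocalPlace ![x, y] U δ z (ν z) := by
  classical
  obtain ⟨ux, uy, hmx, hmy, heq, hne⟩ := ellCurve a b c hd
  obtain ⟨S, hS⟩ := cubic_good T₀ hT₀ a b c x y hx hy δ hδ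
  -- the roots of the cubic
  let P : Polynomial ℂ := Polynomial.X ^ 3 + Polynomial.C a * Polynomial.X ^ 2 +
    Polynomial.C b * Polynomial.X + Polynomial.C c
  have hP0 : P ≠ 0 := by
    intro h
    have h1 := congrArg (fun p => Polynomial.coeff p 3) h
    simp [P] at h1
  have hroot : ∀ e : ℂ, e ^ 3 + a * e ^ 2 + b * e + c = 0 → e ∈ P.roots.toFinset := by
    intro e he
    rw [Multiset.mem_toFinset, Polynomial.mem_roots hP0, Polynomial.IsRoot.def]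
    simpa [P] using he
  set S' : Finset ℂ := S ∪ P.roots.toFinset with hS'
  have key : ∀ z₀, ∃ ν : Fin r → ℤ, LocalPlace ![x, y] (fun z => ![ux z, uy z]) δ z₀ ν ∧
      ∀ x₁ : ℂ, x₁ ∉ S' → Tendsto ux (𝓝[≠] z₀) (𝓝 x₁) → ν = 0 := by
    intro z₀
    rcases lt_or_ge (meromorphicOrderAt ux z₀) 0 with ho | ho
    · have hinf := tendsto_cobounded_of_meromorphicOrderAt_neg ho
      obtain ⟨O, v, hO, hv, h1, h2⟩ := cubic_inf_on T₀ hT₀ a b c hd x y hbd hx hy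
      obtain ⟨k, hk⟩ := local_cubic₃ a b c x y hx hy ux uy z₀ (hmx z₀) (hmy z₀) (heq z₀) hinf
        O hO v hv h1 h2 δ
      refine ⟨_, hk, fun x₁ _ hx₁ => ?_⟩
      exact absurd hinf (hx₁.not_tendsto (Metric.disjoint_nhds_cobounded _))
    · obtain ⟨x₀, hux⟩ := tendsto_nhds_of_meromorphicOrderAt_nonneg (hmx z₀) ho
      obtain ⟨y₀, huy, hxy⟩ := tendsto_uy a b c ux uy z₀ (hmy z₀) (heq z₀) x₀ hux
      by_cases hx₀ : x₀ ∈ S'
      · by_cases hy₀ : y₀ = 0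
        · rw [hy₀] at huy hxy
          have hr : x₀ ^ 3 + a * x₀ ^ 2 + b * x₀ + c = 0 := by
            rw [← hxy]; norm_num
          obtain ⟨O, v, hO, hv, h1, h2⟩ := cubic_root_on T₀ hT₀ a b c hd x y hbd hx hy x₀ hr
          obtain ⟨k, hk⟩ := local_cubic₂ a b c x y hx hy ux uy z₀ (hmx z₀) (hmy z₀) (heq z₀)
            (fun e => hne e z₀) x₀ (hd x₀ hr) hux huy O hO v hv h1 h2 δ
          refine ⟨_, hk, fun x₁ hx₁ hux₁ => ?_⟩
          exact absurd (tendsto_nhds_unique hux hux₁ ▸ hx₀) hx₁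
        · obtain ⟨O, v, hO, hv, h1, h2⟩ := cubic_point_on T₀ hT₀ a b c hd x y hbd hx hy x₀ y₀ hxy hy₀
          obtain ⟨k, hk⟩ := local_cubic₁ a b c x y hx hy ux uy z₀ (hmx z₀) (hmy z₀) (heq z₀)
            (fun e => hne e z₀) x₀ y₀ hy₀ hux huy O hO v hv h1 h2 δ
          refine ⟨_, hk, fun x₁ hx₁ hux₁ => ?_⟩
          exact absurd (tendsto_nhds_unique hux hux₁ ▸ hx₀) hx₁
      · have hx₀S : x₀ ∉ S := fun h => hx₀ (Finset.mem_union_left _ h)
        have hy₀ : y₀ ≠ 0 := by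
          intro h0
          apply hx₀
          refine Finset.mem_union_right _ (hroot x₀ ?_)
          rw [← hxy, h0]; norm_num
        obtain ⟨O, v, hO, hv, h1, h2, h3⟩ := hS x₀ hx₀S y₀ hxy
        obtain ⟨k, hk⟩ := local_cubic₁ a b c x y hx hy ux uy z₀ (hmx z₀) (hmy z₀) (heq z₀)
          (fun e => hne e z₀) x₀ y₀ hy₀ hux huy O hO v hv h1 h2 δ
        refine ⟨_, hk, fun _ _ _ => ?_⟩
        funext i
        simp [h3 i]
  choose ν hν1 hν2 using key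
  refine ⟨fun z => ![ux z, uy z], ν, cubic_dense a b c x y hx hy ux uy hmx hmy heq hne, ?_, hν1⟩
  intro z₁
  have h1 : ∀ᶠ w in 𝓝[≠] z₁, ∀ e ∈ S', ux w ≠ e :=
    (Filter.eventually_all_finset S').2 fun e _ => hne e z₁
  filter_upwards [(hmx z₁).eventually_analyticAt, h1] with w hw1 hw2
  refine hν2 w (ux w) (fun h => hw2 _ h rfl) ?_
  exact hw1.continuousAt.tendsto.mono_left nhdsWithin_le_nhds

theorem local_cubic {K : Type} [Field K] [Algebra ℂ K] (T₀ : Finset K)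
    (hT₀ : IntermediateField.adjoin ℂ (T₀ : Set K) = ⊤) (hbd : PencilBound K) (a b c : ℂ)
    (hd : ∀ x : ℂ, x ^ 3 + a * x ^ 2 + b * x + c = 0 → 3 * x ^ 2 + 2 * a * x + b ≠ 0) (x y : K)
    (hx : Transcendental ℂ x)
    (hy : y ^ 2 = x ^ 3 + algebraMap ℂ K a * x ^ 2 + algebraMap ℂ K b * x + algebraMap ℂ K c)
    {r : ℕ} (δ : Fin r → K) (hδ : ∀ i, δ i ≠ 0) :
    ∃ (U : ℂ → Fin 2 → ℂ) (ν : ℂ → Fin r → ℤ), IsDenseCurve ![x, y] U ∧
      (∀ z, ∀ᶠ w in 𝓝[≠] z, ν w = 0) ∧ ∀ z, LocalPlace ![x, y] U δ z (ν z) :=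
  local_cubic_on T₀ hT₀ a b c hd x y (hbd.on _) hx hy δ hδ

end Pool.Agent.AbPencil
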