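import Pool.Agent.Lib_MP_1209e6_ab.N2
import Pool.Agent.Lib_MP_1209e6_sk.Defs

/-! PIECE Z10: independence of germs from density. -/

set_option autoImplicit false

open Filter Topology

namespace Pool.Agent.AbPencil

open Pool.Agent.Campana Pool.Agent.AbFib

private lemma Z10_append_ren {k : Type} [Field k] [Algebra ℂ k] {n₀ r : ℕ} (t : Fin n₀ → k)
    (d : Fin r → k) (q : MvPolynomial (Fin n₀) ℂ) :
    MvPolynomial.aeval (Fin.append t d) (MvPolynomial.rename (Fin.castAdd r) q) =
      MvPolynomial.aeval t q := by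
  rw [MvPolynomial.aeval_rename]
  congr 2
  funext i
  exact Fin.append_left t d i

private lemma Z10_clear {n₀ r : ℕ} (A B : MvPolynomial (Fin n₀) ℂ)
    (p : MvPolynomial (Fin 1 ⊕ Fin r) ℂ) :
    ∃ (M : ℕ) (p' : MvPolynomial (Fin (n₀ + r)) ℂ), ∀ (k : Type) [Field k] [Algebra ℂ k]
      (t : Fin n₀ → k) (d : Fin r → k) (s : k),
      s * MvPolynomial.aeval t B = MvPolynomial.aeval t A →
      MvPolynomial.aeval (Fin.append t d) p' =
        MvPolynomial.aeval t B ^ M * MvPolynomial.aeval (Sum.elim (fun _ => s) d) p := by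
  induction p using MvPolynomial.induction_on with
  | C a =>
    refine ⟨0, MvPolynomial.C a, ?_⟩
    intro k _ _ t d s _
    rw [MvPolynomial.aeval_C, MvPolynomial.aeval_C, pow_zero, one_mul]
  | add p q hp hq =>
    obtain ⟨M, p', hp⟩ := hp
    obtain ⟨N, q', hq⟩ := hq
    refine ⟨M + N, MvPolynomial.rename (Fin.castAdd r) B ^ N * p' +
      MvPolynomial.rename (Fin.castAdd r) B ^ M * q', ?_⟩
    intro k _ _ t d s h
    rw [map_add, map_mul, map_mul, map_pow, map_pow, Z10_append_ren, hp k t d s h, hq k t d s h,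
      map_add]
    ring
  | mul_X p j hp =>
    obtain ⟨M, p', hp⟩ := hp
    rcases j with j | j
    · refine ⟨M + 1, p' * MvPolynomial.rename (Fin.castAdd r) A, ?_⟩
      intro k _ _ t d s h
      rw [map_mul, Z10_append_ren, hp k t d s h, map_mul, MvPolynomial.aeval_X, ← h]
      simp only [Sum.elim_inl]
      ring
    · refine ⟨M, p' * MvPolynomial.X (Fin.natAdd n₀ j), ?_⟩
      intro k _ _ t d s h
      rw [map_mul, hp k t d s h, map_mul, MvPolynomial.aeval_X, MvPolynomial.aeval_X,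
        Fin.append_right]
      simp only [Sum.elim_inr]
      ring

private lemma Z10_ind {K L : Type} [Field K] [Algebra ℂ K] [Field L] [Algebra ℂ L] [Algebra K L]
    [IsScalarTower ℂ K L] {r : ℕ} (d : Fin r → L) (hd : AlgebraicIndependent K d)
    (τ : K) (hτ : Transcendental ℂ τ) (p : MvPolynomial (Fin 1 ⊕ Fin r) ℂ) (hp : p ≠ 0) :
    MvPolynomial.aeval (Sum.elim (fun _ => algebraMap K L τ) d) p ≠ 0 := by
  have h1 : AlgebraicIndependent ℂ (fun _ : Fin 1 => τ) :=
    (algebraicIndependent_unique_type_iff (x := fun _ : Fin 1 => τ)).2 hτ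
  have h2 := h1.sumElim_comp hd
  intro h3
  have h4 : MvPolynomial.aeval (Sum.elim d (algebraMap K L ∘ fun _ : Fin 1 => τ))
      (MvPolynomial.rename Sum.swap p) = 0 := by
    rw [MvPolynomial.aeval_rename, ← h3]
    congr 2
    funext i
    rcases i with i | i <;> rfl
  have h5 := (algebraicIndependent_iff.1 h2) _ h4
  exact hp (MvPolynomial.rename_injective _ Sum.swap_leftInverse.injective
    (h5.trans (map_zero _).symm))

/-- Proof. There are `M` and a polynomial `p'` in the variables of `(t, d)` with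
`p' (t, d) = B(t)^M p(A(t)/B(t), d)` as an identity in all fields (induction on `p`, existential statement), so
`p' (t, d) = B(t)^M p(τ, d) ≠ 0` because `τ` is transcendental over `ℂ` and `d` is algebraically independent over `K`.
By `dense_ne` (`Lib_MP_1209e6_ab/N2.lean`) `p' (U z, D z) ≠ 0` off `z₀`, and `p' (U z, D z) = B(U z)^M p(s z, D z)`
where `B(U z) ≠ 0` (`dense_ne` again; `Fin.append` of `U` and `D`). -/
theorem ind_of_dense {K L : Type} [Field K] [Algebra ℂ K] [Field L] [Algebra ℂ L] [Algebra K L]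
    [IsScalarTower ℂ K L] {n₀ r : ℕ} (t : Fin n₀ → K) (d : Fin r → L) (hd : AlgebraicIndependent K d)
    (U : ℂ → Fin n₀ → ℂ) (D : ℂ → Fin r → ℂ)
    (h : IsDenseCurve (Fin.append (fun a => algebraMap K L (t a)) d) fun z => Fin.append (U z) (D z))
    (τ : K) (hτ : Transcendental ℂ τ) (A B : MvPolynomial (Fin n₀) ℂ)
    (hB : MvPolynomial.aeval t B ≠ 0)
    (hAB : τ * MvPolynomial.aeval t B = MvPolynomial.aeval t A) (z₀ : ℂ) (s : ℂ → ℂ)
    (hs : ∀ᶠ z in 𝓝[≠] z₀, s z * MvPolynomial.aeval (U z) B = MvPolynomial.aeval (U z) A)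
    (p : MvPolynomial (Fin 1 ⊕ Fin r) ℂ) (hp : p ≠ 0) :
    ∀ᶠ z in 𝓝[≠] z₀, MvPolynomial.aeval (Sum.elim (fun _ => s z) (D z)) p ≠ 0 := by
  obtain ⟨M, p', hp'⟩ := Z10_clear A B p
  have hmap : ∀ q : MvPolynomial (Fin n₀) ℂ,
      MvPolynomial.aeval (fun a => algebraMap K L (t a)) q = algebraMap K L (MvPolynomial.aeval t q) := by
    intro q
    exact (MvPolynomial.aeval_algebraMap_apply L t q)
  have h1 := hp' L (fun a => algebraMap K L (t a)) d (algebraMap K L τ) (by
    rw [hmap, hmap, ← hAB, map_mul])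
  have h2 : MvPolynomial.aeval (Fin.append (fun a => algebraMap K L (t a)) d) p' ≠ 0 := by
    rw [h1, hmap]
    refine mul_ne_zero (pow_ne_zero _ ?_) (Z10_ind d hd τ hτ p hp)
    rw [Ne, map_eq_zero]
    exact hB
  filter_upwards [dense_ne h p' h2 z₀, hs] with z hz1 hz2 hz3
  apply hz1
  have h3 := hp' ℂ (U z) (D z) (s z) hz2
  rw [hz3, mul_zero] at h3
  exact h3

end Pool.Agent.AbPencil
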