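import Pool.Agent.Lib_MP_1209e6_ab.F1
import Pool.Agent.Lib_MP_1209e6_ab.N2
import Pool.Agent.Lib_MP_1209e6_sk.Defs

/-! PIECE Z11: making functions algebraically independent by exponential factors. -/

set_option autoImplicit false

open Filter Topology

namespace Pool.Agent.AbPencil

open Pool.Agent.Campana Pool.Agent.AbFib

/-- functions meromorphic at `0` -/
private def merA : Subalgebra ℂ (ℂ → ℂ) where
  carrier := {f | MeromorphicAt f 0}
  mul_mem' := fun h1 h2 => MeromorphicAt.mul h1 h2
  add_mem' := fun h1 h2 => MeromorphicAt.add h1 h2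
  algebraMap_mem' := fun c => MeromorphicAt.const c 0

/-- the ideal of functions which vanish near `0` -/
private def nullI : Ideal merA where
  carrier := {f | ∀ᶠ z in 𝓝[≠] (0 : ℂ), (f : ℂ → ℂ) z = 0}
  zero_mem' := by
    change ∀ᶠ z in 𝓝[≠] (0 : ℂ), ((0 : merA) : ℂ → ℂ) z = 0
    exact Filter.Eventually.of_forall fun _ => rfl
  add_mem' := by
    intro f g hf hg
    change ∀ᶠ z in 𝓝[≠] (0 : ℂ), (f : ℂ → ℂ) z = 0 at hf
    change ∀ᶠ z in 𝓝[≠] (0 : ℂ), (g : ℂ → ℂ) z = 0 at hg
    change ∀ᶠ z in 𝓝[≠] (0 : ℂ), ((f + g : merA) : ℂ → ℂ) z = 0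
    filter_upwards [hf, hg] with z h1 h2
    change (f : ℂ → ℂ) z + (g : ℂ → ℂ) z = 0
    rw [h1, h2, add_zero]
  smul_mem' := by
    intro c f hf
    change ∀ᶠ z in 𝓝[≠] (0 : ℂ), (f : ℂ → ℂ) z = 0 at hf
    change ∀ᶠ z in 𝓝[≠] (0 : ℂ), ((c * f : merA) : ℂ → ℂ) z = 0
    filter_upwards [hf] with z h1
    change (c : ℂ → ℂ) z * (f : ℂ → ℂ) z = 0
    rw [h1, mul_zero]

private theorem mem_nullI {f : merA} :
    f ∈ nullI ↔ ∀ᶠ z in 𝓝[≠] (0 : ℂ), (f : ℂ → ℂ) z = 0 := Iff.rfl

private theorem nullI_max : nullI.IsMaximal := by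
  rw [Ideal.isMaximal_iff]
  constructor
  · intro h
    obtain ⟨z, hz⟩ := (mem_nullI.1 h).exists
    exact one_ne_zero hz
  · intro J f hJ hf hfJ
    have hm : MeromorphicAt (f : ℂ → ℂ) 0 := f.2
    rcases hm.eventually_eq_zero_or_eventually_ne_zero with h | h
    · exact absurd (mem_nullI.2 h) hf
    · have hinv : MeromorphicAt (fun z => ((f : ℂ → ℂ) z)⁻¹) 0 := hm.inv
      let g : merA := ⟨fun z => ((f : ℂ → ℂ) z)⁻¹, hinv⟩
      have h1 : 1 - g * f ∈ nullI := by
        rw [mem_nullI]
        filter_upwards [h] with z hz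
        change 1 - ((f : ℂ → ℂ) z)⁻¹ * (f : ℂ → ℂ) z = 0
        rw [inv_mul_cancel₀ hz, sub_self]
      have h2 : (1 : merA) = (1 - g * f) + g * f := by ring
      rw [h2]
      exact J.add_mem (hJ h1) (J.mul_mem_left g hfJ)

/-- the field of meromorphic germs at `0` -/
private def Mer : Type := merA ⧸ nullI

private noncomputable instance : Field Mer :=
  haveI := nullI_max
  Ideal.Quotient.field nullI

private noncomputable instance : Algebra ℂ Mer :=
  inferInstanceAs (Algebra ℂ (merA ⧸ nullI))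

/-- the quotient map -/
private noncomputable def mkM : merA →ₐ[ℂ] Mer := Ideal.Quotient.mkₐ ℂ nullI

private theorem mkM_eq_zero {f : merA} : mkM f = 0 ↔ f ∈ nullI :=
  Ideal.Quotient.eq_zero_iff_mem

/-- the germ of a function -/
private noncomputable def gm (f : ℂ → ℂ) (hf : MeromorphicAt f 0) : Mer := mkM ⟨f, hf⟩

private theorem aeval_gm {ι : Type} (F : ℂ → ι → ℂ) (hF : ∀ i, MeromorphicAt (fun z => F z i) 0)
    (p : MvPolynomial ι ℂ) :
    MvPolynomial.aeval (fun i => gm (fun z => F z i) (hF i)) p = 0 ↔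
      ∀ᶠ z in 𝓝[≠] (0 : ℂ), MvPolynomial.eval (F z) p = 0 := by
  have h1 : MvPolynomial.aeval (fun i => gm (fun z => F z i) (hF i)) p =
      mkM (MvPolynomial.aeval (fun i => (⟨fun z => F z i, hF i⟩ : merA)) p) := by
    rw [MvPolynomial.comp_aeval_apply]
    rfl
  have h2 : ∀ z, ((MvPolynomial.aeval (fun i => (⟨fun z => F z i, hF i⟩ : merA)) p : merA) :
      ℂ → ℂ) z = MvPolynomial.eval (F z) p := by
    intro z
    have h3 := MvPolynomial.comp_aeval_apply (R := ℂ) (f := fun i => (⟨fun z => F z i, hF i⟩ : merA))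
      (((Pi.evalAlgHom ℂ (fun _ : ℂ => ℂ) z).comp merA.val)) p
    exact h3
  rw [h1, mkM_eq_zero, mem_nullI]
  exact Filter.eventually_congr (Filter.Eventually.of_forall fun z => by rw [h2 z])

private noncomputable def eg (j : ℕ) : Mer :=
  gm (fun z => Complex.exp (z ^ (j + 1)))
    (Differentiable.analyticAt (by fun_prop) 0).meromorphicAt

private theorem eg_ind (n : ℕ) : AlgebraicIndependent ℂ fun j : Fin n => eg j := by
  rw [algebraicIndependent_iff]
  intro p hp
  by_contra hne
  have h1 := (aeval_gm (fun z (j : Fin n) => Complex.exp (z ^ ((j : ℕ) + 1)))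
    (fun j => (Differentiable.analyticAt (by fun_prop) 0).meromorphicAt) p).1 hp
  have h2 := bc_disc (fun _ : Fin n => (0 : ℂ)) p hne 0
  obtain ⟨z, hz1, hz2⟩ := (h1.and h2).exists
  apply hz2
  have h3 : bc (fun _ : Fin n => (0 : ℂ)) z = fun j : Fin n => Complex.exp (z ^ ((j : ℕ) + 1)) := by
    funext j
    simp [bc, bcg]
  rw [h3]
  exact hz1

private theorem gm_mul {f g : ℂ → ℂ} (hf : MeromorphicAt f 0) (hg : MeromorphicAt g 0)
    (hfg : MeromorphicAt (fun z => f z * g z) 0) :
    gm (fun z => f z * g z) hfg = gm f hf * gm g hg := by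
  rw [gm, gm, gm, ← map_mul]
  rfl

private theorem gm_eq {f g : ℂ → ℂ} (hf : MeromorphicAt f 0) (hg : MeromorphicAt g 0)
    (h : ∀ᶠ z in 𝓝[≠] (0 : ℂ), f z = g z) : gm f hf = gm g hg := by
  rw [gm, gm, ← sub_eq_zero, ← map_sub, mkM_eq_zero, mem_nullI]
  filter_upwards [h] with z hz
  change f z - g z = 0
  rw [hz, sub_self]

private theorem gm_ne {f : ℂ → ℂ} (hf : MeromorphicAt f 0)
    (h : ∀ᶠ z in 𝓝[≠] (0 : ℂ), f z ≠ 0) : gm f hf ≠ 0 := by
  intro h0
  rw [gm, mkM_eq_zero, mem_nullI] at h0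
  obtain ⟨z, h1, h2⟩ := (h0.and h).exists
  exact h2 h1

/-- a factor which makes the next function transcendental -/
private theorem exists_step {n₀ r : ℕ} (x : Fin n₀ → Mer) (y : Fin r → Mer) (f : ℂ → ℂ)
    (hf : MeromorphicAt f 0) (hne : ∀ᶠ z in 𝓝[≠] (0 : ℂ), f z ≠ 0) :
    ∃ g : ℂ → ℂ, Differentiable ℂ g ∧ ∀ hm : MeromorphicAt (fun z => f z * Complex.exp (g z)) 0,
      Transcendental (Algebra.adjoin (Algebra.adjoin ℂ (Set.range x)) (Set.range y))
        (gm (fun z => f z * Complex.exp (g z)) hm) := by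
  by_contra hcon
  push Not at hcon
  have hmer : ∀ g : ℂ → ℂ, Differentiable ℂ g →
      MeromorphicAt (fun z => f z * Complex.exp (g z)) 0 := fun g hg =>
    hf.mul (hg.cexp.analyticAt 0).meromorphicAt
  have halg : ∀ (g : ℂ → ℂ) (hg : Differentiable ℂ g),
      gm (fun z => f z * Complex.exp (g z)) (hmer g hg) ∈
        (AlgebraicIndependent.matroid ℂ Mer).closure (Set.range x ∪ Set.range y) := by
    intro g hg
    obtain ⟨hm, h1⟩ := hcon g hg
    have h2 : IsAlgebraic (Algebra.adjoin (Algebra.adjoin ℂ (Set.range x)) (Set.range y))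
        (gm (fun z => f z * Complex.exp (g z)) (hmer g hg)) := by
      rw [Transcendental, not_not] at h1
      exact h1
    rw [AlgebraicIndependent.matroid_closure_eq, SetLike.mem_coe, Subalgebra.mem_algebraicClosure,
      Algebra.adjoin_union_eq_adjoin_adjoin]
    exact h2
  have hcl : ∀ j : ℕ, eg j ∈
      (AlgebraicIndependent.matroid ℂ Mer).closure (Set.range x ∪ Set.range y) := by
    intro j
    have ha := halg (fun _ => 0) (differentiable_const _)
    have hb := halg (fun z => z ^ (j + 1)) (by fun_prop)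
    rw [AlgebraicIndependent.matroid_closure_eq, SetLike.mem_coe, Subalgebra.mem_algebraicClosure] at ha hb ⊢
    have hne' : gm f hf ≠ 0 := gm_ne hf hne
    have h1 : gm (fun z => f z * Complex.exp ((fun _ : ℂ => (0 : ℂ)) z))
        (hmer _ (differentiable_const _)) = gm f hf := by
      refine gm_eq _ _ (Filter.Eventually.of_forall fun z => ?_)
      simp
    have h2 : gm (fun z => f z * Complex.exp ((fun z : ℂ => z ^ (j + 1)) z))
        (hmer _ (by fun_prop)) = gm f hf * eg j := gm_mul _ _ _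
    rw [h1] at ha
    rw [h2] at hb
    have h3 : eg j = (gm f hf)⁻¹ * (gm f hf * eg j) := by
      rw [← mul_assoc, inv_mul_cancel₀ hne', one_mul]
    rw [h3]
    exact ha.inv.mul hb
  let M := AlgebraicIndependent.matroid ℂ Mer
  have hind := eg_ind (n₀ + r + 1)
  have h1 : M.Indep (Set.range fun j : Fin (n₀ + r + 1) => eg j) :=
    AlgebraicIndependent.matroid_indep_iff.2 (AlgebraicIndependent.to_subtype_range hind)
  have h2 : (Set.range fun j : Fin (n₀ + r + 1) => eg j) ⊆
      M.closure (Set.range x ∪ Set.range y) := by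
    rintro _ ⟨j, rfl⟩
    exact hcl j
  have h3 := M.eRk_mono h2
  rw [h1.eRk_eq_encard, M.eRk_closure_eq] at h3
  have h4 : (Set.range fun j : Fin (n₀ + r + 1) => eg j).encard = (n₀ + r + 1 : ℕ) := by
    rw [← Set.image_univ, hind.injective.encard_image]
    simp
  have h5 : M.eRk (Set.range x ∪ Set.range y) ≤ (n₀ + r : ℕ) := by
    refine (M.eRk_le_encard _).trans ((Set.encard_union_le _ _).trans ?_)
    rw [Nat.cast_add]
    refine add_le_add ?_ ?_
    · rw [← Set.image_univ]
      exact (Set.encard_image_le _ _).trans (by simp)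
    · rw [← Set.image_univ]
      exact (Set.encard_image_le _ _).trans (by simp)
  rw [h4] at h3
  have h6 := h3.trans h5
  have h7 : n₀ + r + 1 ≤ n₀ + r := by exact_mod_cast h6
  omega

/-- the factors -/
private theorem exists_fac {n₀ : ℕ} (x : Fin n₀ → Mer) : ∀ (r : ℕ) (D₀ : Fin r → ℂ → ℂ),
    (∀ i, MeromorphicAt (D₀ i) 0) → (∀ i, ∀ᶠ z in 𝓝[≠] (0 : ℂ), D₀ i z ≠ 0) →
    ∃ h : Fin r → ℂ → ℂ, (∀ i, Differentiable ℂ (h i)) ∧
      ∀ hm : ∀ i, MeromorphicAt (fun z => D₀ i z * Complex.exp (h i z)) 0,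
        AlgebraicIndependent (Algebra.adjoin ℂ (Set.range x))
          fun i => gm (fun z => D₀ i z * Complex.exp (h i z)) (hm i) := by
  intro r
  induction r with
  | zero =>
    intro D₀ _ _
    refine ⟨fun _ _ => 0, fun i => i.elim0, fun hm => ?_⟩
    rw [algebraicIndependent_empty_type_iff]
    exact Subtype.val_injective
  | succ r ih =>
    intro D₀ hD hne
    obtain ⟨h, hh, hind⟩ := ih (fun i => D₀ i.succ) (fun i => hD _) fun i => hne _
    have hm : ∀ i : Fin r, MeromorphicAt (fun z => D₀ i.succ z * Complex.exp (h i z)) 0 := fun i =>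
      (hD _).mul ((hh i).cexp.analyticAt 0).meromorphicAt
    obtain ⟨g, hg, htr⟩ := exists_step x
      (fun i : Fin r => gm (fun z => D₀ i.succ z * Complex.exp (h i z)) (hm i)) (D₀ 0) (hD 0) (hne 0)
    refine ⟨Fin.cons g h, fun i => Fin.cases hg hh i, fun hm' => ?_⟩
    have h1 := ((hind hm).option_iff_transcendental _).2 (htr (hm' 0))
    refine (algebraicIndependent_equiv' (finSuccEquiv r) ?_).2 h1
    funext i
    refine Fin.cases ?_ (fun i => ?_) i
    · rfl
    · rfl

/-- a polynomial in two groups of variables -/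
private theorem exists_iter {n₀ r : ℕ} (p : MvPolynomial (Fin (n₀ + r)) ℂ) :
    ∃ P : MvPolynomial (Fin r) (MvPolynomial (Fin n₀) ℂ),
      ∀ {k : Type} [CommRing k] [Algebra ℂ k] (u : Fin n₀ → k) (v : Fin r → k),
        MvPolynomial.aeval (Fin.append u v) p =
          MvPolynomial.eval₂ (MvPolynomial.aeval (R := ℂ) u).toRingHom v P := by
  induction p using MvPolynomial.induction_on with
  | C a =>
    refine ⟨MvPolynomial.C (MvPolynomial.C a), fun u v => ?_⟩
    rw [MvPolynomial.eval₂_C, MvPolynomial.aeval_C]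
    exact (MvPolynomial.aeval_C u a).symm
  | add p q hp hq =>
    obtain ⟨P, hP⟩ := hp
    obtain ⟨Q, hQ⟩ := hq
    refine ⟨P + Q, fun u v => ?_⟩
    rw [map_add, hP, hQ, MvPolynomial.eval₂_add]
  | mul_X p s hp =>
    obtain ⟨P, hP⟩ := hp
    refine Fin.addCases (fun a => ?_) (fun i => ?_) s
    · refine ⟨P * MvPolynomial.C (MvPolynomial.X a), fun u v => ?_⟩
      rw [map_mul, hP, MvPolynomial.aeval_X, MvPolynomial.eval₂_mul, MvPolynomial.eval₂_C,
        Fin.append_left]
      congr 1
      exact (MvPolynomial.aeval_X u a).symm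
    · refine ⟨P * MvPolynomial.X i, fun u v => ?_⟩
      rw [map_mul, hP, MvPolynomial.aeval_X, MvPolynomial.eval₂_mul, MvPolynomial.eval₂_X,
        Fin.append_right]

private theorem eval₂_zero_iff {n₀ r : ℕ} {B k : Type} [CommRing B] [CommRing k] [Algebra B k]
    (v : Fin r → k) (hv : AlgebraicIndependent B v) (φ : MvPolynomial (Fin n₀) ℂ →+* B)
    (P : MvPolynomial (Fin r) (MvPolynomial (Fin n₀) ℂ)) :
    MvPolynomial.eval₂ ((algebraMap B k).comp φ) v P = 0 ↔ ∀ α, φ (P.coeff α) = 0 := by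
  rw [← MvPolynomial.eval₂_map, ← MvPolynomial.aeval_def]
  constructor
  · intro h α
    have h1 : MvPolynomial.map φ P = 0 := by
      rw [algebraicIndependent_iff] at hv
      exact hv _ h
    rw [← MvPolynomial.coeff_map, h1, MvPolynomial.coeff_zero]
  · intro h
    have h1 : MvPolynomial.map φ P = 0 := by
      ext α
      rw [MvPolynomial.coeff_map, h, MvPolynomial.coeff_zero]
    rw [h1, map_zero]

private theorem mero_pi {m : ℕ} {F : ℂ → Fin m → ℂ} {z₀ : ℂ}
    (h : ∀ i, MeromorphicAt (fun z => F z i) z₀) : MeromorphicAt F z₀ := by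
  choose k hk using h
  refine ⟨∑ i, k i, analyticAt_pi_iff.2 fun i => ?_⟩
  have h1 : k i ≤ ∑ i, k i := Finset.single_le_sum (fun _ _ => Nat.zero_le _) (Finset.mem_univ i)
  have h2 : (fun z => ((z - z₀) ^ (∑ i, k i) • F z) i) =
      fun z => (z - z₀) ^ ((∑ i, k i) - k i) * ((z - z₀) ^ k i • F z i) := by
    funext z
    rw [Pi.smul_apply, smul_eq_mul, smul_eq_mul, ← mul_assoc, ← pow_add, Nat.sub_add_cancel h1]
  rw [h2]
  exact ((analyticAt_id.sub analyticAt_const).pow _).mul (hk i)

/-- Proof. Choose `z₁` where `U` and all `D₀ i` are analytic and `D₀ i z₁ ≠ 0` (the exceptions are discrete). The germs at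
`z₁` of analytic functions form a domain (`AnalyticAt.eventually_eq_zero_or_eventually_ne_zero`; for example a
subring of `Filter.Germ (𝓝 z₁) ℂ`), let `M` be its field of fractions. Let `F₀ ⊆ M` be the field generated by the
`U_a`. For each `j` let `e_j` be the germ of `exp (z^(j+1))`: these are algebraically independent over `ℂ` (`bc_disc`
with `c = 0`, or `bcg_disc`, in `Lib_MP_1209e6_ab/F1.lean`). Choose the `h i` one after the other: if `D₀ 0 h_0, …,
D₀ (i-1) h_(i-1)` are algebraically independent over `F₀`, let `F` be the algebraic closure in `M` of the field generated by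
`F₀` and these; its transcendence degree over `ℂ` is at most `n₀ + i`, so not all `e_j` lie in `F`; hence one of `D₀ i`
(`h i = 0`) and `D₀ i e_j` (`h i = z^(j+1)`) is not in `F` for some `j` (otherwise `e_j = (D₀ i e_j) / D₀ i ∈ F`).
So `D i = D₀ i exp (h i)` (germs) are algebraically independent over `F₀`. Now the claim: the curve is meromorphic. Let
`p = ∑_α p_α(X) Y^α` be a polynomial in the `n₀ + r` variables. If `p(t, d) = 0` then `p_α(t) = 0` for all `α` (`hd`), so
`p_α(U) = 0` near each point by `hU`, so `p(U, D) = 0`. Conversely if `p(U, D) = 0` near `z₁` then `p_α(U) = 0` near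
`z₁` for all `α`, so `p_α(t) = 0` (if `p_α(t) ≠ 0` then `p_α(U) ≠ 0` off `z₁` by `dense_ne`, `Lib_MP_1209e6_ab/N2.lean`), so
`p(t, d) = 0`. (In the Lean proof `z₁ = 0` and `M` is the field of meromorphic germs.) -/
theorem exists_indep {K L : Type} [Field K] [Algebra ℂ K] [Field L] [Algebra ℂ L] [Algebra K L]
    [IsScalarTower ℂ K L] {n₀ r : ℕ} (t : Fin n₀ → K) (U : ℂ → Fin n₀ → ℂ) (hU : IsDenseCurve t U)
    (d : Fin r → L) (hd : AlgebraicIndependent K d) (D₀ : Fin r → ℂ → ℂ)
    (hD : ∀ i z, MeromorphicAt (D₀ i) z) (hne : ∀ i z, ∀ᶠ w in 𝓝[≠] z, D₀ i w ≠ 0) :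
    ∃ h : Fin r → ℂ → ℂ, (∀ i, Differentiable ℂ (h i)) ∧
      IsDenseCurve (Fin.append (fun a => algebraMap K L (t a)) d)
        fun z => Fin.append (U z) fun i => D₀ i z * Complex.exp (h i z) := by
  have hUm : ∀ a z, MeromorphicAt (fun w => U w a) z := fun a z => by
    obtain ⟨k, hk⟩ := hU.1 z
    exact ⟨k, analyticAt_pi_iff.1 hk a⟩
  obtain ⟨h, hh, hind⟩ := exists_fac (fun a => gm (fun w => U w a) (hUm a 0)) r D₀
    (fun i => hD i 0) fun i => hne i 0
  have hDm : ∀ i z, MeromorphicAt (fun w => D₀ i w * Complex.exp (h i w)) z := fun i z =>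
    (hD i z).mul ((hh i).cexp.analyticAt z).meromorphicAt
  refine ⟨h, hh, ?_, fun p => ?_⟩
  · intro z
    refine mero_pi fun s => ?_
    refine Fin.addCases (fun a => ?_) (fun i => ?_) s
    · simp only [Fin.append_left]
      exact hUm a z
    · simp only [Fin.append_right]
      exact hDm i z
  · obtain ⟨P, hP⟩ := exists_iter p
    have hL : MvPolynomial.aeval (Fin.append (fun a => algebraMap K L (t a)) d) p = 0 ↔
        ∀ α, MvPolynomial.aeval t (P.coeff α) = 0 := by
      rw [hP]
      refine Iff.trans ?_ (eval₂_zero_iff d hd (MvPolynomial.aeval (R := ℂ) t).toRingHom P)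
      have h1 : (MvPolynomial.aeval (R := ℂ) fun a => algebraMap K L (t a)).toRingHom =
          (algebraMap K L).comp (MvPolynomial.aeval (R := ℂ) t).toRingHom := by
        refine RingHom.ext fun q => ?_
        exact MvPolynomial.aeval_algebraMap_apply L t q
      rw [h1]
    rw [hL]
    constructor
    · intro h0 z₀
      have h1 : ∀ᶠ z in 𝓝[≠] z₀, ∀ α ∈ P.support, MvPolynomial.eval (U z) (P.coeff α) = 0 := by
        rw [Filter.eventually_all_finset]
        intro α _
        exact (hU.2 _).1 (h0 α) z₀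
      filter_upwards [h1] with z hz
      have h2 := hP (U z) fun i => D₀ i z * Complex.exp (h i z)
      rw [MvPolynomial.aeval_eq_eval] at h2
      rw [h2, MvPolynomial.eval₂_eq']
      refine Finset.sum_eq_zero fun α hα => ?_
      have h3 : (MvPolynomial.aeval (R := ℂ) (U z)).toRingHom (P.coeff α) = 0 := hz α hα
      rw [h3, zero_mul]
    · intro h0 α
      let Ub : Fin n₀ → Mer := fun a => gm (fun w => U w a) (hUm a 0)
      let B := Algebra.adjoin ℂ (Set.range Ub)
      let φ : MvPolynomial (Fin n₀) ℂ →ₐ[ℂ] B :=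
        MvPolynomial.aeval fun a => (⟨Ub a, Algebra.subset_adjoin ⟨a, rfl⟩⟩ : B)
      have hφ : ∀ q, ((φ q : B) : Mer) = MvPolynomial.aeval Ub q := by
        intro q
        exact MvPolynomial.comp_aeval_apply (R := ℂ)
          (f := fun a => (⟨Ub a, Algebra.subset_adjoin ⟨a, rfl⟩⟩ : B)) B.val q
      have hF : ∀ s, MeromorphicAt (fun z => Fin.append (U z)
          (fun i => D₀ i z * Complex.exp (h i z)) s) 0 := by
        intro s
        refine Fin.addCases (fun a => ?_) (fun i => ?_) s
        · simp only [Fin.append_left]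
          exact hUm a 0
        · simp only [Fin.append_right]
          exact hDm i 0
      have h1 := (aeval_gm (fun z => Fin.append (U z) fun i => D₀ i z * Complex.exp (h i z))
        hF p).2 (h0 0)
      have h2 : (fun s => gm (fun z => Fin.append (U z)
          (fun i => D₀ i z * Complex.exp (h i z)) s) (hF s)) = Fin.append Ub fun i =>
            gm (fun z => D₀ i z * Complex.exp (h i z)) (hDm i 0) := by
        funext s
        refine Fin.addCases (fun a => ?_) (fun i => ?_) s
        · rw [Fin.append_left]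
          refine gm_eq _ _ (Filter.Eventually.of_forall fun z => ?_)
          rw [Fin.append_left]
        · rw [Fin.append_right]
          refine gm_eq _ _ (Filter.Eventually.of_forall fun z => ?_)
          rw [Fin.append_right]
      rw [h2, hP] at h1
      have h3 : (MvPolynomial.aeval (R := ℂ) Ub).toRingHom =
          (algebraMap B Mer).comp φ.toRingHom := by
        refine RingHom.ext fun q => ?_
        exact (hφ q).symm
      rw [h3] at h1
      have h4 := (eval₂_zero_iff _ (hind fun i => hDm i 0) φ.toRingHom P).1 h1 α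
      have h5 : MvPolynomial.aeval Ub (P.coeff α) = 0 := by
        rw [← hφ]
        have h6 : φ (P.coeff α) = 0 := h4
        rw [h6]
        rfl
      have h7 := (aeval_gm U (fun a => hUm a 0) _).1 h5
      by_contra hcon
      obtain ⟨z, hz1, hz2⟩ := (h7.and (dense_ne hU _ hcon 0)).exists
      exact hz2 hz1

end Pool.Agent.AbPencil
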