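import Pool.Agent.Lib_MP_1209e6_ab.Main2
import Pool.Agent.Lib_MP_1209e6_sk.Defs

/-! Lifting theorem for fibrations whose total space dominates `X`. -/

set_option autoImplicit false

open Filter Topology

namespace Pool.Agent.AbPencil

open Pool.Agent.Campana Pool.Agent.CampanaFlow Pool.Agent.AbFib

theorem brody_of_lifts {m : ℕ} (P : Ideal (MvPolynomial (Fin (m + 1)) ℂ)) [P.IsPrime]
    (hP : IsVariety P) {L : Type} [Field L] [Algebra ℂ L] (J : FunField P →ₐ[ℂ] L) {n N : ℕ}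
    (t : Fin n → L) (x : Fin (N + 1) → L) (h : IsAbelianFibration t x) (u : ℂ → Fin n → ℂ)
    (hu : IsDenseCurve t u) (hl : LiftsLocally t x u) : BrodySpecial P := by
  obtain ⟨U, hU, hUu, hUd⟩ := dense_cone hu
  refine of_entire P hP ((jE L).comp J) (tC t) (xC x) (cone_abelian t x h) U hU hUd fun z => ?_
  obtain ⟨v, hv, hv1⟩ := hl z
  obtain ⟨w, hw, hw0, hw1⟩ := lift_ne hv hv1
  refine ⟨w, hw, hw0, ?_⟩
  filter_upwards [hw1, hUu z] with y h1 h2
  have h3 : (fun a : Fin n => U y a.succ / U y 0) = u y := by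
    funext a
    rw [h2.2 a, mul_div_cancel_left₀ _ h2.1]
  rw [fibre_cone t x (U y) h2.1, h3]
  exact h1

end Pool.Agent.AbPencil
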