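import Pool.Agent.Lib_MP_1209e6_sk.Defs

/-! PIECE Z8: algebra in `K(w_1, …, w_r)`. -/

set_option autoImplicit false

open Filter Topology

namespace Pool.Agent.AbPencil

open Pool.Agent.Campana

private lemma exists_pow_mem {K : Type} [Field K] (O : ValuationSubring K) (v : K → ℤ)
    (hv : IsOrd O v) {ι : Type} [Fintype ι] (c : ι → K) :
    ∃ π : K, π ≠ 0 ∧ ∀ i, π * c i ∈ O := by
  classical
  obtain ⟨t, ht0, ht⟩ := hv.2.2
  refine ⟨t ^ (∑ i, (v (c i)).natAbs), pow_ne_zero _ ht0, fun i => ?_⟩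
  by_cases hc : c i = 0
  · rw [hc, mul_zero]
    exact O.zero_mem
  · rw [hv.mem_iff (mul_ne_zero (pow_ne_zero _ ht0) hc), hv.map_mul (pow_ne_zero _ ht0) hc,
      hv.map_pow ht0, ht, mul_one]
    have h1 : (v (c i)).natAbs ≤ ∑ i, (v (c i)).natAbs :=
      Finset.single_le_sum (f := fun i => (v (c i)).natAbs) (fun _ _ => Nat.zero_le _)
        (Finset.mem_univ i)
    have h2 : ((v (c i)).natAbs : ℤ) ≤ ((∑ i, (v (c i)).natAbs : ℕ) : ℤ) := by exact_mod_cast h1
    have h3 : -v (c i) ≤ ((v (c i)).natAbs : ℤ) := by omega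
    linarith

private lemma exists_coeffs {K : Type} [Field K] [Algebra ℂ K] (O : ValuationSubring K) (v : K → ℤ)
    (hv : IsOrd O v) {r N : ℕ} (p : Fin N → MvPolynomial (Fin r) K) :
    ∃ (m : ℕ) (g : Fin m → K) (A : Fin N → MvPolynomial (Fin m ⊕ Fin r) ℂ) (π : K), π ≠ 0 ∧
      (∀ j, g j ∈ O) ∧ ∀ l, MvPolynomial.aeval (Sum.elim (fun j => MvPolynomial.C (g j))
        MvPolynomial.X : Fin m ⊕ Fin r → MvPolynomial (Fin r) K) (A l) = MvPolynomial.C π * p l := by
  classical
  let J : Type := Σ l : Fin N, {s // s ∈ (p l).support}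
  let c : J → K := fun x => (p x.1).coeff x.2.1
  obtain ⟨π, hπ, hO⟩ := exists_pow_mem O v hv c
  let e : J ≃ Fin (Fintype.card J) := Fintype.equivFin J
  refine ⟨Fintype.card J, fun j => π * c (e.symm j), fun l => ∑ s : {s // s ∈ (p l).support},
    MvPolynomial.X (Sum.inl (e ⟨l, s⟩)) *
      MvPolynomial.rename Sum.inr (MvPolynomial.monomial s.1 (1 : ℂ)), π, hπ,
    fun j => hO _, fun l => ?_⟩
  rw [map_sum]
  have h1 : ∀ s : {s // s ∈ (p l).support},
      MvPolynomial.aeval (Sum.elim (fun j => MvPolynomial.C (π * c (e.symm j)))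
        MvPolynomial.X : Fin (Fintype.card J) ⊕ Fin r → MvPolynomial (Fin r) K)
        (MvPolynomial.X (Sum.inl (e ⟨l, s⟩)) *
          MvPolynomial.rename Sum.inr (MvPolynomial.monomial s.1 (1 : ℂ))) =
      MvPolynomial.C π * MvPolynomial.monomial s.1 ((p l).coeff s.1) := by
    intro s
    rw [map_mul, MvPolynomial.aeval_X, Sum.elim_inl, MvPolynomial.aeval_rename,
      Equiv.symm_apply_apply, MvPolynomial.aeval_monomial, map_one, one_mul, map_mul, mul_assoc]
    congr 1
    rw [MvPolynomial.monomial_eq]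
    rfl
  rw [Finset.sum_congr rfl fun s _ => h1 s, ← Finset.mul_sum]
  congr 1
  rw [← Finset.sum_subtype (s := (p l).support) (p := fun s => s ∈ (p l).support) (fun x => Iff.rfl)
    (f := fun s => MvPolynomial.monomial s ((p l).coeff s))]
  exact (p l).support_sum_monomial_coeff

private lemma aeval_coeffs {K L : Type} [Field K] [Algebra ℂ K] [Field L] [Algebra ℂ L] [Algebra K L]
    [IsScalarTower ℂ K L] {r m : ℕ} (g : Fin m → K) (x : Fin r → L)
    (A : MvPolynomial (Fin m ⊕ Fin r) ℂ) :
    MvPolynomial.aeval (Sum.elim (fun j => algebraMap K L (g j)) x : Fin m ⊕ Fin r → L) A =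
      MvPolynomial.aeval x (MvPolynomial.aeval (Sum.elim (fun j => MvPolynomial.C (g j))
        MvPolynomial.X : Fin m ⊕ Fin r → MvPolynomial (Fin r) K) A) := by
  have h := MvPolynomial.comp_aeval_apply (R := ℂ) (Sum.elim (fun j => MvPolynomial.C (g j))
        MvPolynomial.X : Fin m ⊕ Fin r → MvPolynomial (Fin r) K)
        ((MvPolynomial.aeval x : MvPolynomial (Fin r) K →ₐ[K] L).restrictScalars ℂ) A
  rw [AlgHom.restrictScalars_apply] at h
  rw [h]
  congr 1
  congr 1
  funext i
  rcases i with j | j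
  · simp
  · simp

private lemma aeval_wv {K : Type} [Field K] {r : ℕ} (p : MvPolynomial (Fin r) K) :
    MvPolynomial.aeval (wv : Fin r → KW K r) p = algebraMap (MvPolynomial (Fin r) K) (KW K r) p := by
  have h : (MvPolynomial.aeval (wv : Fin r → KW K r) : MvPolynomial (Fin r) K →ₐ[K] KW K r) =
      IsScalarTower.toAlgHom K (MvPolynomial (Fin r) K) (KW K r) := by
    ext i
    simp [wv]
  rw [h]
  rfl

/-- Common denominators. Proof: `q l = a l / b` with `a l, b ∈ K[w]`, `b ≠ 0`; multiply numerators and denominator by a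
power of an element `π` of order 1 (`hv.2.2`) so that all (finitely many) coefficients lie in `O`; `g` = the list of these coefficients. -/
theorem exists_num {K : Type} [Field K] [Algebra ℂ K] (O : ValuationSubring K) (v : K → ℤ)
    (hv : IsOrd O v) {r N : ℕ} (q : Fin N → KW K r) :
    ∃ (m : ℕ) (g : Fin m → K) (A : Fin N → MvPolynomial (Fin m ⊕ Fin r) ℂ)
      (B : MvPolynomial (Fin m ⊕ Fin r) ℂ), (∀ j, g j ∈ O) ∧
      MvPolynomial.aeval (Sum.elim (fun j => algebraMap K (KW K r) (g j)) (wv : Fin r → KW K r)) B ≠ 0 ∧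
      ∀ l, MvPolynomial.aeval (Sum.elim (fun j => algebraMap K (KW K r) (g j)) (wv : Fin r → KW K r)) B *
          q l =
        MvPolynomial.aeval (Sum.elim (fun j => algebraMap K (KW K r) (g j)) (wv : Fin r → KW K r))
          (A l) := by
  classical
  obtain ⟨b, hb⟩ := IsLocalization.exist_integer_multiples_of_finite
    (nonZeroDivisors (MvPolynomial (Fin r) K)) q
  choose p hp using hb
  obtain ⟨m, g, A, π, hπ, hg, hA⟩ := exists_coeffs O v hv
    (Fin.cons (b : MvPolynomial (Fin r) K) p : Fin (N + 1) → MvPolynomial (Fin r) K)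
  have hπ' : algebraMap K (KW K r) π ≠ 0 := by
    rw [Ne, map_eq_zero]
    exact hπ
  have h0 : MvPolynomial.aeval (Sum.elim (fun j => algebraMap K (KW K r) (g j))
      (wv : Fin r → KW K r)) (A 0) = algebraMap K (KW K r) π *
        algebraMap (MvPolynomial (Fin r) K) (KW K r) b := by
    rw [aeval_coeffs, hA 0, map_mul, MvPolynomial.aeval_C, aeval_wv, Fin.cons_zero]
  have h1 : ∀ l, MvPolynomial.aeval (Sum.elim (fun j => algebraMap K (KW K r) (g j))
      (wv : Fin r → KW K r)) (A (Fin.succ l)) = algebraMap K (KW K r) π *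
        algebraMap (MvPolynomial (Fin r) K) (KW K r) (p l) := by
    intro l
    rw [aeval_coeffs, hA, map_mul, MvPolynomial.aeval_C, aeval_wv, Fin.cons_succ]
  refine ⟨m, g, fun l => A (Fin.succ l), A 0, hg, ?_, fun l => ?_⟩
  · rw [h0]
    apply mul_ne_zero hπ'
    exact IsLocalization.to_map_ne_zero_of_mem_nonZeroDivisors _ le_rfl b.2
  · rw [h0, h1, hp l, Algebra.smul_def, mul_assoc]

/-- The elements `d i = w_i ^ n_i / δ_i` are algebraically independent over `K`: the `w_i` are algebraic over the field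
generated by `K` and the `d i`, so the transcendence degree is `r`; or directly: a polynomial relation
`∑ c_α d^α = 0` becomes `∑ c_α δ^(-α) w^(n α) = 0` with distinct monomials `w^(n α)`. -/
theorem algebraicIndependent_tw {K : Type} [Field K] {r : ℕ} (δ : Fin r → K) (hδ : ∀ i, δ i ≠ 0)
    (n : Fin r → ℕ) (hn : ∀ i, 1 ≤ n i) :
    AlgebraicIndependent K fun i : Fin r => (wv i ^ n i / algebraMap K (KW K r) (δ i) : KW K r) := by
  have h0 : AlgebraicIndependent K (wv : Fin r → KW K r) := by
    intro a b hab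
    rw [aeval_wv, aeval_wv] at hab
    exact IsFractionRing.injective (MvPolynomial (Fin r) K) (KW K r) hab
  have h1 := h0.polynomial_aeval_of_transcendental
    (f := fun i => Polynomial.C (δ i)⁻¹ * Polynomial.X ^ n i) (by
      intro i
      apply Polynomial.transcendental
      · rw [Polynomial.natDegree_C_mul_X_pow _ _ (inv_ne_zero (hδ i))]
        exact Nat.one_le_iff_ne_zero.1 (hn i)
      · rw [Polynomial.leadingCoeff_C_mul_X_pow]
        exact mem_nonZeroDivisors_of_ne_zero (inv_ne_zero (hδ i)))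
  convert h1 using 2 with i
  rw [map_mul, map_pow, Polynomial.aeval_X, Polynomial.aeval_C, map_inv₀]
  field_simp

/-- Algebraic equation over `K[d]`, `d i = w_i ^ n_i / δ_i`. Proof: `K(w)` is algebraic over the field generated by `K` and
the `d i` (each `w_i` is), so `b ≠ 0` satisfies an equation `∑_{i ≤ M} a_i b^i = 0` with `a_i ∈ K[d]`, `a_0 ≠ 0`; write `a_i` as a
polynomial in `d` with coefficients in `K`, multiply by a power of `π` so that the coefficients lie in `O`; `g` = the list
of these coefficients. `a 0` is not zero as a polynomial over `K` because its value is not zero. -/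
theorem exists_eqn {K : Type} [Field K] [Algebra ℂ K] (O : ValuationSubring K) (v : K → ℤ)
    (hv : IsOrd O v) {r : ℕ} (δ : Fin r → K) (hδ : ∀ i, δ i ≠ 0)
    (n : Fin r → ℕ) (hn : ∀ i, 1 ≤ n i) (b : KW K r) (hb : b ≠ 0) :
    ∃ (m : ℕ) (g : Fin m → K) (M : ℕ) (a : ℕ → MvPolynomial (Fin m ⊕ Fin r) ℂ), (∀ j, g j ∈ O) ∧
      MvPolynomial.aeval (Sum.elim (fun j => MvPolynomial.C (g j)) MvPolynomial.X :
        Fin m ⊕ Fin r → MvPolynomial (Fin r) K) (a 0) ≠ 0 ∧
      ∑ i ∈ Finset.range (M + 1),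
        MvPolynomial.aeval (Sum.elim (fun j => algebraMap K (KW K r) (g j))
          (fun i => wv i ^ n i / algebraMap K (KW K r) (δ i)) : Fin m ⊕ Fin r → KW K r) (a i) * b ^ i = 0 := by
  classical
  set y : Fin r → KW K r := fun i => wv i ^ n i / algebraMap K (KW K r) (δ i) with hy
  have hδ' : ∀ i, algebraMap K (KW K r) (δ i) ≠ 0 := by
    intro i
    rw [Ne, map_eq_zero]
    exact hδ i
  let D := Algebra.adjoin K (Set.range y)
  have hyD : ∀ i, y i ∈ D := fun i => Algebra.subset_adjoin ⟨i, rfl⟩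
  have halgK : ∀ c : K, IsAlgebraic D (algebraMap K (KW K r) c) := fun c =>
    isAlgebraic_algebraMap (⟨algebraMap K (KW K r) c, D.algebraMap_mem c⟩ : D)
  have halgw : ∀ i, IsAlgebraic D (wv i : KW K r) := by
    intro i
    have h1 : IsAlgebraic D ((wv i : KW K r) ^ n i) := by
      have h2 : (wv i : KW K r) ^ n i = algebraMap K (KW K r) (δ i) * y i := by
        rw [hy]
        field_simp [hδ' i]
      rw [h2]
      exact isAlgebraic_algebraMap
        (⟨algebraMap K (KW K r) (δ i) * y i, mul_mem (D.algebraMap_mem _) (hyD i)⟩ : D)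
    exact h1.of_pow (hn i)
  have halgp : ∀ p : MvPolynomial (Fin r) K,
      IsAlgebraic D (algebraMap (MvPolynomial (Fin r) K) (KW K r) p) := by
    intro p
    induction p using MvPolynomial.induction_on with
    | C c =>
      have : algebraMap (MvPolynomial (Fin r) K) (KW K r) (MvPolynomial.C c) =
          algebraMap K (KW K r) c := by
        rw [IsScalarTower.algebraMap_apply K (MvPolynomial (Fin r) K) (KW K r)]
        rfl
      rw [this]
      exact halgK c
    | add p q hp hq => rw [map_add]; exact hp.add hq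
    | mul_X p i hp => rw [map_mul]; exact hp.mul (halgw i)
  have halgb : IsAlgebraic D b := by
    obtain ⟨p, q, hq, rfl⟩ := IsFractionRing.div_surjective (A := MvPolynomial (Fin r) K) b
    rw [div_eq_mul_inv]
    exact (halgp p).mul (halgp q).inv
  obtain ⟨P, hP0, hPb⟩ := halgb
  obtain ⟨Q, hPQ, hQ⟩ := P.exists_eq_pow_rootMultiplicity_mul_and_not_dvd hP0 0
  rw [Polynomial.C_0, sub_zero] at hPQ hQ
  rw [Polynomial.X_dvd_iff] at hQ
  have hQb : Polynomial.aeval b Q = 0 := by
    rw [hPQ, map_mul, map_pow, Polynomial.aeval_X] at hPb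
    exact (mul_eq_zero.1 hPb).resolve_left (pow_ne_zero _ hb)
  have hlift : ∀ i : ℕ, ∃ c : MvPolynomial (Fin r) K, MvPolynomial.aeval y c = (Q.coeff i : KW K r) := by
    intro i
    have h1 : (Q.coeff i : KW K r) ∈ Algebra.adjoin K (Set.range y) := (Q.coeff i).2
    rw [Algebra.adjoin_range_eq_range_aeval] at h1
    exact h1
  choose c hc using hlift
  obtain ⟨m, g, A, π, hπ, hg, hA⟩ := exists_coeffs O v hv
    (fun i : Fin (Q.natDegree + 1) => c i)
  let a : ℕ → MvPolynomial (Fin m ⊕ Fin r) ℂ := fun i =>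
    if h : i < Q.natDegree + 1 then A ⟨i, h⟩ else 0
  have ha : ∀ i, i < Q.natDegree + 1 → MvPolynomial.aeval (Sum.elim (fun j => MvPolynomial.C (g j))
      MvPolynomial.X : Fin m ⊕ Fin r → MvPolynomial (Fin r) K) (a i) = MvPolynomial.C π * c i := by
    intro i hi
    simp only [a, dif_pos hi]
    exact hA ⟨i, hi⟩
  refine ⟨m, g, Q.natDegree, a, hg, ?_, ?_⟩
  · rw [ha 0 (Nat.succ_pos _)]
    apply mul_ne_zero
    · rw [Ne, MvPolynomial.C_eq_zero]
      exact hπ
    · intro h0
      have := hc 0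
      rw [h0, map_zero] at this
      apply hQ
      exact Subtype.ext this.symm
  · have h2 : ∀ i ∈ Finset.range (Q.natDegree + 1),
        MvPolynomial.aeval (Sum.elim (fun j => algebraMap K (KW K r) (g j)) y :
          Fin m ⊕ Fin r → KW K r) (a i) * b ^ i =
        algebraMap K (KW K r) π * (Q.coeff i • b ^ i) := by
      intro i hi
      rw [aeval_coeffs, ha i (Finset.mem_range.1 hi), map_mul, MvPolynomial.aeval_C, hc i,
        Algebra.smul_def, mul_assoc]
      rfl
    rw [Finset.sum_congr rfl h2, ← Finset.mul_sum, ← Polynomial.aeval_eq_sum_range, hQb, mul_zero]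

end Pool.Agent.AbPencil
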