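import Pool.Agent.Lib_MP_1209e6_sk.Z6
import Pool.Agent.Lib_MP_1209e6_sk.Z8

/-! PIECE Z9: points of `K(w)` with values in germs. -/

set_option autoImplicit false

open Filter Topology

namespace Pool.Agent.AbPencil

open Pool.Agent.Campana

private lemma z9_mero {ι : Type} {z₀ : ℂ} {F : ℂ → ι → ℂ}
    (hF : ∀ i, MeromorphicAt (fun z => F z i) z₀) (p : MvPolynomial ι ℂ) :
    MeromorphicAt (fun z => MvPolynomial.aeval (F z) p) z₀ := by
  induction p using MvPolynomial.induction_on with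
  | C a =>
    simp only [MvPolynomial.aeval_C]
    exact MeromorphicAt.const _ _
  | add p q hp hq =>
    simp only [map_add]
    exact hp.add hq
  | mul_X p i hp =>
    simp only [map_mul, MvPolynomial.aeval_X]
    exact hp.mul (hF i)

/-- `exists_germ` for an arbitrary finite index type. -/
private lemma z9_germ {K : Type} [Field K] [Algebra ℂ K] (T₀ : Finset K)
    (hT₀ : IntermediateField.adjoin ℂ (T₀ : Set K) = ⊤) (O : ValuationSubring K) (hO : IsPlace O)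
    (v : K → ℤ) (hv : IsOrd O v) (e k : ℕ) (he : 1 ≤ e) (hk : 1 ≤ k) {ι : Type} [Fintype ι]
    (i₀ : ι) (g : ι → K)
    (hg : ∀ j, g j ∈ O) (hg0 : g i₀ ≠ 0) (hve : v (g i₀) = e) (z₀ : ℂ) (s : ℂ → ℂ)
    (hs : AnalyticAt ℂ s z₀)
    (hso : analyticOrderAt s z₀ = (k * e : ℕ)) {r : ℕ} (D : ℂ → Fin r → ℂ)
    (hD : ∀ i, MeromorphicAt (fun z => D z i) z₀)
    (hind : ∀ p : MvPolynomial (Fin 1 ⊕ Fin r) ℂ, p ≠ 0 →
      ∀ᶠ z in 𝓝[≠] z₀, MvPolynomial.aeval (Sum.elim (fun _ => s z) (D z)) p ≠ 0)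
    (R : MvPolynomial (ι ⊕ Fin r) ℂ)
    (hR : MvPolynomial.aeval (Sum.elim (fun j => MvPolynomial.C (g j)) MvPolynomial.X :
      ι ⊕ Fin r → MvPolynomial (Fin r) K) R ≠ 0) :
    ∃ G : ℂ → ι → ℂ, AnalyticAt ℂ G z₀ ∧ (∀ᶠ z in 𝓝 z₀, G z i₀ = s z) ∧ Rel z₀ g G ∧
      (∀ j, g j ≠ 0 → analyticOrderAt (fun z => G z j) z₀ = (k * (v (g j)).toNat : ℕ)) ∧
      ∀ᶠ z in 𝓝[≠] z₀, MvPolynomial.aeval (Sum.elim (G z) (D z)) R ≠ 0 := by
  classical
  obtain ⟨m, hm⟩ : ∃ m, Fintype.card ι = m + 1 := by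
    have : 0 < Fintype.card ι := Fintype.card_pos_iff.2 ⟨i₀⟩
    exact ⟨Fintype.card ι - 1, by omega⟩
  let σ₀ : ι ≃ Fin (m + 1) := Fintype.equivFinOfCardEq hm
  let σ : ι ≃ Fin (m + 1) := σ₀.trans (Equiv.swap (σ₀ i₀) 0)
  have hσ : σ i₀ = 0 := by simp [σ]
  have hσ' : σ.symm 0 = i₀ := by rw [← hσ, Equiv.symm_apply_apply]
  have hren : MvPolynomial.aeval (Sum.elim (fun j => MvPolynomial.C (g (σ.symm j))) MvPolynomial.X :
      Fin (m + 1) ⊕ Fin r → MvPolynomial (Fin r) K) (MvPolynomial.rename (Sum.map σ id) R) ≠ 0 := by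
    rw [MvPolynomial.aeval_rename]
    have h1 : (Sum.elim (fun j => MvPolynomial.C (g (σ.symm j))) MvPolynomial.X :
        Fin (m + 1) ⊕ Fin r → MvPolynomial (Fin r) K) ∘ Sum.map σ id =
        Sum.elim (fun j => MvPolynomial.C (g j)) MvPolynomial.X := by
      funext j
      rcases j with j | j
      · simp
      · simp
    rw [h1]
    exact hR
  obtain ⟨G, hG, hG0, hGrel, hGo, hGR⟩ := exists_germ T₀ hT₀ O hO v hv e k he hk
    (fun j => g (σ.symm j)) (fun j => hg _) (by rw [hσ']; exact hg0) (by rw [hσ']; exact hve)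
    z₀ s hs hso D hD hind (MvPolynomial.rename (Sum.map σ id) R) hren
  refine ⟨fun z i => G z (σ i), ?_, ?_, ?_, ?_, ?_⟩
  · rw [analyticAt_pi_iff]
    intro i
    exact (analyticAt_pi_iff.1 hG) (σ i)
  · filter_upwards [hG0] with z hz
    rw [hσ, hz]
  · have h1 := rel_map σ hGrel
    simpa using h1
  · intro j hj
    have h1 := hGo (σ j) (by simpa using hj)
    simpa using h1
  · filter_upwards [hGR] with z hz
    rw [MvPolynomial.aeval_rename] at hz
    have h1 : (Sum.elim (G z) (D z)) ∘ Sum.map σ id = Sum.elim (fun i => G z (σ i)) (D z) := by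
      funext j
      rcases j with j | j <;> rfl
    rw [h1] at hz
    exact hz

/-- Proof. `exists_num` for `q`: `g₁`, `A`, `B`, `b` = the value of `B` in `KW K r`. `exists_eqn` for `b`: `g₂`, `M`, `a`. Choose
`n'` with `δ' i = δ i * (g 0)^n' ∈ O` for all `i`. Let `g⁺ = (g, g₁, g₂, δ')` (first entry `g 0`), `R = a 0` (variables renamed).
`exists_germ`: `G⁺`, with `a 0 (G₂, D) ≠ 0` off `z₀` and `ord (G⁺ at δ' i) = k (v (δ i) + n' e)`. The germ
`D i * G(δ' i) / s^n'` has order `- k v(δ i) + k (v (δ i) + n' e) - n' k e = 0`, so it is `W i ^ n i` off `z₀` (`mero_root`).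
`rel_free`: relations between `(g⁺, w)` hold for `(G⁺, W)`. `rel_frac` adds `d i = w_i^{n_i} (g 0)^n' / δ' i` with germs `D i`
(`D i * G(δ' i) = W i ^ n i * s^n'`). The relation `∑ a_i(g₂, d) B(g₁, w)^i = 0` gives `∑ a_i(G₂, D) B(G₁, W)^i = 0`. `B(G₁, W)` is
meromorphic, so it is eventually zero or eventually nonzero; in the first case `a_0(G₂, D) = 0`, contradiction.
`rel_frac` adds `q l = A l (g₁, w) / B(g₁, w)` with `Q l = A l (G₁, W) / B(G₁, W)`, meromorphic. `rel_map` to forget the other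
elements. -/
theorem lift_point {K : Type} [Field K] [Algebra ℂ K] (T₀ : Finset K)
    (hT₀ : IntermediateField.adjoin ℂ (T₀ : Set K) = ⊤) (O : ValuationSubring K) (hO : IsPlace O)
    (v : K → ℤ) (hv : IsOrd O v) (e k : ℕ) (he : 1 ≤ e) (hk : 1 ≤ k) {m : ℕ} (g : Fin (m + 1) → K)
    (hg : ∀ j, g j ∈ O) (hg0 : g 0 ≠ 0) (hve : v (g 0) = e) (z₀ : ℂ) (s : ℂ → ℂ) (hs : AnalyticAt ℂ s z₀)
    (hso : analyticOrderAt s z₀ = (k * e : ℕ)) {r : ℕ} (δ : Fin r → K) (hδ : ∀ i, δ i ≠ 0)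
    (n : Fin r → ℕ) (hn : ∀ i, 1 ≤ n i) (D : ℂ → Fin r → ℂ)
    (hD : ∀ i, MeromorphicAt (fun z => D z i) z₀)
    (hDo : ∀ i, meromorphicOrderAt (fun z => D z i) z₀ = ((-((k : ℤ) * v (δ i)) : ℤ) : WithTop ℤ))
    (hind : ∀ p : MvPolynomial (Fin 1 ⊕ Fin r) ℂ, p ≠ 0 →
      ∀ᶠ z in 𝓝[≠] z₀, MvPolynomial.aeval (Sum.elim (fun _ => s z) (D z)) p ≠ 0)
    {N : ℕ} (q : Fin N → KW K r) :
    ∃ (G : ℂ → Fin (m + 1) → ℂ) (Q : ℂ → Fin N → ℂ), AnalyticAt ℂ G z₀ ∧
      (∀ᶠ z in 𝓝 z₀, G z 0 = s z) ∧ Rel z₀ g G ∧ (∀ l, MeromorphicAt (fun z => Q z l) z₀) ∧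
      Rel z₀ (Sum.elim (Sum.elim (fun j => algebraMap K (KW K r) (g j))
          (fun i => wv i ^ n i / algebraMap K (KW K r) (δ i))) q)
        fun z => Sum.elim (Sum.elim (G z) (D z)) (Q z) := by
  classical
  obtain ⟨m₁, g₁, A, B, hg₁, hB, hAB⟩ := exists_num O v hv q
  obtain ⟨m₂, g₂, M, a, hg₂, ha0, haeq⟩ := exists_eqn O v hv δ hδ n hn _ hB
  -- the exponent `n'`
  obtain ⟨n', hn'⟩ : ∃ n' : ℕ, ∀ i, 0 ≤ v (δ i) + n' * e := by
    refine ⟨∑ i, (v (δ i)).natAbs, fun i => ?_⟩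
    have h1 : (v (δ i)).natAbs ≤ ∑ i, (v (δ i)).natAbs :=
      Finset.single_le_sum (f := fun i => (v (δ i)).natAbs) (fun _ _ => Nat.zero_le _)
        (Finset.mem_univ i)
    have h2 : (1 : ℤ) ≤ e := by exact_mod_cast he
    have h3 : ((v (δ i)).natAbs : ℤ) ≤ ((∑ i, (v (δ i)).natAbs : ℕ) : ℤ) := by exact_mod_cast h1
    have h4 : -((v (δ i)).natAbs : ℤ) ≤ v (δ i) := by omega
    have h5 : ((∑ i, (v (δ i)).natAbs : ℕ) : ℤ) ≤ ((∑ i, (v (δ i)).natAbs : ℕ) : ℤ) * e :=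
      le_mul_of_one_le_right (by positivity) h2
    linarith
  set δ' : Fin r → K := fun i => δ i * g 0 ^ n' with hδ'
  have hδ'0 : ∀ i, δ' i ≠ 0 := fun i => mul_ne_zero (hδ i) (pow_ne_zero _ hg0)
  have hvδ' : ∀ i, v (δ' i) = v (δ i) + n' * e := by
    intro i
    rw [hδ', hv.map_mul (hδ i) (pow_ne_zero _ hg0), hv.map_pow hg0, hve]
  have hδ'O : ∀ i, δ' i ∈ O := fun i => (hv.mem_iff (hδ'0 i)).2 (by rw [hvδ']; exact hn' i)
  -- the big family
  let ι : Type := Fin (m + 1) ⊕ (Fin m₁ ⊕ (Fin m₂ ⊕ Fin r))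
  let gp : ι → K := Sum.elim g (Sum.elim g₁ (Sum.elim g₂ δ'))
  let R : MvPolynomial (ι ⊕ Fin r) ℂ :=
    MvPolynomial.rename (Sum.map (fun j => Sum.inr (Sum.inr (Sum.inl j))) id) (a 0)
  have hR : MvPolynomial.aeval (Sum.elim (fun j => MvPolynomial.C (gp j)) MvPolynomial.X :
      ι ⊕ Fin r → MvPolynomial (Fin r) K) R ≠ 0 := by
    have h1 : (Sum.elim (fun j => MvPolynomial.C (gp j)) MvPolynomial.X :
        ι ⊕ Fin r → MvPolynomial (Fin r) K) ∘
        (Sum.map (fun j => Sum.inr (Sum.inr (Sum.inl j))) id : Fin m₂ ⊕ Fin r → ι ⊕ Fin r) =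
        Sum.elim (fun j => MvPolynomial.C (g₂ j)) MvPolynomial.X := by
      funext j
      rcases j with j | j <;> rfl
    change MvPolynomial.aeval _ (MvPolynomial.rename _ (a 0)) ≠ 0
    rw [MvPolynomial.aeval_rename, h1]
    exact ha0
  have hgp : ∀ j, gp j ∈ O := by
    rintro (j | j | j | j)
    · exact hg j
    · exact hg₁ j
    · exact hg₂ j
    · exact hδ'O j
  obtain ⟨G, hG, hG0, hGrel, hGo, hGR⟩ := z9_germ T₀ hT₀ O hO v hv e k he hk (Sum.inl 0 : ι) gp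
    hgp hg0 hve z₀ s hs hso D hD hind R hR
  have hGi : ∀ j, AnalyticAt ℂ (fun z => G z j) z₀ := fun j => analyticAt_pi_iff.1 hG j
  -- `s` is not zero off `z₀`
  have hs0 : ∀ᶠ z in 𝓝[≠] z₀, s z ≠ 0 := by
    rcases hs.eventually_eq_zero_or_eventually_ne_zero with h | h
    · exfalso
      have h1 := analyticOrderAt_eq_top.2 h
      rw [hso] at h1
      exact absurd h1 (ENat.natCast_ne_top _)
    · exact h
  have hδG : ∀ i, ∀ᶠ z in 𝓝[≠] z₀, G z (Sum.inr (Sum.inr (Sum.inr i))) ≠ 0 := by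
    intro i
    rcases (hGi (Sum.inr (Sum.inr (Sum.inr i)))).eventually_eq_zero_or_eventually_ne_zero with h | h
    · exfalso
      have h1 := analyticOrderAt_eq_top.2 h
      rw [hGo (Sum.inr (Sum.inr (Sum.inr i))) (hδ'0 i)] at h1
      exact absurd h1 (ENat.natCast_ne_top _)
    · exact h
  -- the roots `W`
  have hroot : ∀ i, ∃ w : ℂ → ℂ, MeromorphicAt w z₀ ∧ ∀ᶠ z in 𝓝[≠] z₀,
      w z ^ n i = D z i * G z (Sum.inr (Sum.inr (Sum.inr i))) * (s z ^ n')⁻¹ := by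
    intro i
    have hm1 : MeromorphicAt (fun z => D z i) z₀ := hD i
    have hm2 : MeromorphicAt (fun z => G z (Sum.inr (Sum.inr (Sum.inr i)))) z₀ :=
      (hGi _).meromorphicAt
    have hm3 : MeromorphicAt (s ^ n') z₀ := hs.meromorphicAt.pow n'
    refine mero_root ((hm1.mul hm2).mul hm3.inv) ?_ (hn i)
    have h4 : meromorphicOrderAt (((fun z => D z i) * fun z => G z (Sum.inr (Sum.inr (Sum.inr i)))) *
        (s ^ n')⁻¹) z₀ = 0 := by
      rw [meromorphicOrderAt_mul (hm1.mul hm2) hm3.inv, meromorphicOrderAt_mul hm1 hm2, hDo i,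
        meromorphicOrderAt_inv, meromorphicOrderAt_pow hs.meromorphicAt, hs.meromorphicOrderAt_eq,
        (hGi _).meromorphicOrderAt_eq, hGo (Sum.inr (Sum.inr (Sum.inr i))) (hδ'0 i), hso]
      have hk1 : ∀ x : ℕ, ENat.map Nat.cast ((x : ℕ) : ℕ∞) = ((x : ℤ) : WithTop ℤ) := fun _ => rfl
      have hk2 : ((n' : ℕ) : WithTop ℤ) * (((k * e : ℕ) : ℤ) : WithTop ℤ) =
          (((n' : ℤ) * ((k * e : ℕ) : ℤ) : ℤ) : WithTop ℤ) := by
        rw [WithTop.coe_mul]
        rfl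
      rw [hk1, hk1, hk2]
      have h5 : ((v (δ' i)).toNat : ℤ) = v (δ i) + n' * e := by
        rw [Int.toNat_of_nonneg (by rw [hvδ']; exact hn' i), hvδ']
      have h6 : -((k : ℤ) * v (δ i)) + ((k * (v (δ' i)).toNat : ℕ) : ℤ) +
          -((n' : ℤ) * ((k * e : ℕ) : ℤ)) = 0 := by
        rw [Nat.cast_mul, h5]
        push_cast
        ring
      calc _ = ((-((k : ℤ) * v (δ i)) + ((k * (v (δ' i)).toNat : ℕ) : ℤ) +
          -((n' : ℤ) * ((k * e : ℕ) : ℤ)) : ℤ) : WithTop ℤ) := rfl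
        _ = 0 := by rw [h6]; rfl
    exact h4
  choose W hW hWn using hroot
  -- relations with `w`
  have hrel1 := rel_free hGrel (fun z i => W i z)
  -- add `d`
  have hrel2 := rel_frac hrel1 (fun i : Fin r => (wv i ^ n i / algebraMap K (KW K r) (δ i) : KW K r)) D
    (fun i => MvPolynomial.X (Sum.inr i) ^ n i * MvPolynomial.X (Sum.inl (Sum.inl 0)) ^ n')
    (fun i => MvPolynomial.X (Sum.inl (Sum.inr (Sum.inr (Sum.inr i)))))
    (fun i => by
      rw [MvPolynomial.aeval_X]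
      exact (map_ne_zero _).2 (hδ'0 i))
    (fun i => by
      rw [map_mul, map_pow, map_pow, MvPolynomial.aeval_X, MvPolynomial.aeval_X,
        MvPolynomial.aeval_X]
      change algebraMap K (KW K r) (δ' i) * (wv i ^ n i / algebraMap K (KW K r) (δ i)) =
        wv i ^ n i * algebraMap K (KW K r) (g 0) ^ n'
      have h1 : algebraMap K (KW K r) (δ i) ≠ 0 := (map_ne_zero _).2 (hδ i)
      rw [hδ', map_mul, map_pow]
      field_simp)
    (fun i => by
      filter_upwards [hs0, hδG i, hWn i, hG0.filter_mono nhdsWithin_le_nhds] with z h1 h2 h3 h4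
      rw [map_mul, map_pow, map_pow, MvPolynomial.aeval_X, MvPolynomial.aeval_X,
        MvPolynomial.aeval_X]
      change G z (Sum.inr (Sum.inr (Sum.inr i))) ≠ 0 ∧
        G z (Sum.inr (Sum.inr (Sum.inr i))) * D z i = W i z ^ n i * G z (Sum.inl 0) ^ n'
      refine ⟨h2, ?_⟩
      rw [h3, h4]
      field_simp)
  -- the equation for `B`
  let σ₁ : Fin m₁ ⊕ Fin r → (ι ⊕ Fin r) ⊕ Fin r :=
    Sum.elim (fun j => Sum.inl (Sum.inl (Sum.inr (Sum.inl j)))) (fun i => Sum.inl (Sum.inr i))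
  let σ₂ : Fin m₂ ⊕ Fin r → (ι ⊕ Fin r) ⊕ Fin r :=
    Sum.elim (fun j => Sum.inl (Sum.inl (Sum.inr (Sum.inr (Sum.inl j))))) (fun i => Sum.inr i)
  have e1 : ∀ p : MvPolynomial (Fin m₁ ⊕ Fin r) ℂ, MvPolynomial.aeval (Sum.elim
      (Sum.elim (fun j => algebraMap K (KW K r) (gp j)) (wv : Fin r → KW K r))
      (fun i : Fin r => (wv i ^ n i / algebraMap K (KW K r) (δ i) : KW K r)))
        (MvPolynomial.rename σ₁ p) =
      MvPolynomial.aeval (Sum.elim (fun j => algebraMap K (KW K r) (g₁ j))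
        (wv : Fin r → KW K r)) p := by
    intro p
    rw [MvPolynomial.aeval_rename]
    congr 2
    funext j
    rcases j with j | j <;> rfl
  have e2 : ∀ p : MvPolynomial (Fin m₂ ⊕ Fin r) ℂ, MvPolynomial.aeval (Sum.elim
      (Sum.elim (fun j => algebraMap K (KW K r) (gp j)) (wv : Fin r → KW K r))
      (fun i : Fin r => (wv i ^ n i / algebraMap K (KW K r) (δ i) : KW K r)))
        (MvPolynomial.rename σ₂ p) =
      MvPolynomial.aeval (Sum.elim (fun j => algebraMap K (KW K r) (g₂ j))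
          (fun i => wv i ^ n i / algebraMap K (KW K r) (δ i)) : Fin m₂ ⊕ Fin r → KW K r) p := by
    intro p
    rw [MvPolynomial.aeval_rename]
    congr 2
    funext j
    rcases j with j | j <;> rfl
  have e1' : ∀ (z : ℂ) (p : MvPolynomial (Fin m₁ ⊕ Fin r) ℂ), MvPolynomial.aeval (Sum.elim
      (Sum.elim (G z) (fun i => W i z)) (D z)) (MvPolynomial.rename σ₁ p) =
      MvPolynomial.aeval (Sum.elim (fun j => G z (Sum.inr (Sum.inl j))) (fun i => W i z)) p := by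
    intro z p
    rw [MvPolynomial.aeval_rename]
    congr 2
    funext j
    rcases j with j | j <;> rfl
  have e2' : ∀ (z : ℂ) (p : MvPolynomial (Fin m₂ ⊕ Fin r) ℂ), MvPolynomial.aeval (Sum.elim
      (Sum.elim (G z) (fun i => W i z)) (D z)) (MvPolynomial.rename σ₂ p) =
      MvPolynomial.aeval (Sum.elim (fun j => G z (Sum.inr (Sum.inr (Sum.inl j)))) (D z)) p := by
    intro z p
    rw [MvPolynomial.aeval_rename]
    congr 2
    funext j
    rcases j with j | j <;> rfl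
  have hBm : ∀ p : MvPolynomial (Fin m₁ ⊕ Fin r) ℂ, MeromorphicAt (fun z =>
      MvPolynomial.aeval (Sum.elim (fun j => G z (Sum.inr (Sum.inl j))) (fun i => W i z)) p) z₀ := by
    intro p
    refine z9_mero (F := fun z => Sum.elim (fun j => G z (Sum.inr (Sum.inl j)))
      (fun i => W i z)) ?_ p
    rintro (j | j)
    · exact (hGi _).meromorphicAt
    · exact hW j
  have hB0 : ∀ᶠ z in 𝓝[≠] z₀, MvPolynomial.aeval (Sum.elim (fun j => G z (Sum.inr (Sum.inl j)))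
      (fun i => W i z)) B ≠ 0 := by
    rcases (hBm B).eventually_eq_zero_or_eventually_ne_zero with h | h
    swap
    · exact h
    exfalso
    have h1 := hrel2 (∑ i ∈ Finset.range (M + 1), MvPolynomial.rename σ₂ (a i) *
      (MvPolynomial.rename σ₁ B) ^ i) (by
        rw [map_sum]
        rw [← haeq]
        refine Finset.sum_congr rfl fun i _ => ?_
        rw [map_mul, map_pow, e1, e2])
    have h2 : ∀ᶠ z in 𝓝[≠] z₀, False := by
      filter_upwards [h, h1, hGR] with z h3 h4 h5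
      rw [map_sum] at h4
      simp only [map_mul, map_pow] at h4
      rw [Finset.sum_range_succ'] at h4
      rw [e1', h3] at h4
      have h6 : ∀ i ∈ Finset.range M, MvPolynomial.aeval (Sum.elim (Sum.elim (G z)
          (fun i => W i z)) (D z)) (MvPolynomial.rename σ₂ (a (i + 1))) * (0 : ℂ) ^ (i + 1) = 0 := by
        intro i _
        rw [zero_pow (Nat.succ_ne_zero i), mul_zero]
      rw [Finset.sum_eq_zero h6, zero_add, pow_zero, mul_one, e2'] at h4
      apply h5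
      change MvPolynomial.aeval _ (MvPolynomial.rename _ (a 0)) = 0
      rw [MvPolynomial.aeval_rename, ← h4]
      congr 2
      funext j
      rcases j with j | j <;> rfl
    exact (h2.exists).elim fun _ hh => hh
  -- add `q`
  let Q : ℂ → Fin N → ℂ := fun z l =>
    MvPolynomial.aeval (Sum.elim (fun j => G z (Sum.inr (Sum.inl j))) (fun i => W i z)) (A l) *
    (MvPolynomial.aeval (Sum.elim (fun j => G z (Sum.inr (Sum.inl j))) (fun i => W i z)) B)⁻¹
  have hQm : ∀ l, MeromorphicAt (fun z => Q z l) z₀ := fun l => (hBm (A l)).mul (hBm B).inv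
  have hrel3 := rel_frac hrel2 q Q (fun l => MvPolynomial.rename σ₁ (A l))
    (fun _ => MvPolynomial.rename σ₁ B) (fun l => by rw [e1]; exact hB)
    (fun l => by rw [e1, e1]; exact hAB l)
    (fun l => by
      filter_upwards [hB0] with z hz
      rw [e1', e1']
      refine ⟨hz, ?_⟩
      change _ * (_ * _⁻¹) = _
      field_simp)
  have hrel4 := rel_map (κ := (Fin (m + 1) ⊕ Fin r) ⊕ Fin N)
    (Sum.elim (Sum.elim (fun j => Sum.inl (Sum.inl (Sum.inl (Sum.inl j)))) fun i => Sum.inl (Sum.inr i))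
      fun l => Sum.inr l) hrel3
  have hrel5 := rel_map (κ := Fin (m + 1)) (fun j => Sum.inl j) hGrel
  refine ⟨fun z j => G z (Sum.inl j), Q, ?_, hG0, hrel5, hQm, ?_⟩
  · rw [analyticAt_pi_iff]
    exact fun j => hGi _
  · have e3 : (Sum.elim (Sum.elim (fun j => algebraMap K (KW K r) (g j))
          (fun i => wv i ^ n i / algebraMap K (KW K r) (δ i))) q :
          (Fin (m + 1) ⊕ Fin r) ⊕ Fin N → KW K r) = fun k =>
        Sum.elim (Sum.elim (Sum.elim (fun j => algebraMap K (KW K r) (gp j)) (wv : Fin r → KW K r))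
          (fun i : Fin r => (wv i ^ n i / algebraMap K (KW K r) (δ i) : KW K r))) q
        ((Sum.elim (Sum.elim (fun j => Sum.inl (Sum.inl (Sum.inl (Sum.inl j))))
          fun i => Sum.inl (Sum.inr i)) fun l => Sum.inr l :
          (Fin (m + 1) ⊕ Fin r) ⊕ Fin N → ((ι ⊕ Fin r) ⊕ Fin r) ⊕ Fin N) k) := by
      funext j
      rcases j with (j | j) | j <;> rfl
    have e4 : (fun z => Sum.elim (Sum.elim (fun j => G z (Sum.inl j)) (D z)) (Q z) :
          ℂ → (Fin (m + 1) ⊕ Fin r) ⊕ Fin N → ℂ) = fun z k =>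
        Sum.elim (Sum.elim (Sum.elim (G z) (fun i => W i z)) (D z)) (Q z)
        ((Sum.elim (Sum.elim (fun j => Sum.inl (Sum.inl (Sum.inl (Sum.inl j))))
          fun i => Sum.inl (Sum.inr i)) fun l => Sum.inr l :
          (Fin (m + 1) ⊕ Fin r) ⊕ Fin N → ((ι ⊕ Fin r) ⊕ Fin r) ⊕ Fin N) k) := by
      funext z j
      rcases j with (j | j) | j <;> rfl
    rw [e3, e4]
    exact hrel4

end Pool.Agent.AbPencil
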