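import Pool.Agent.Lib_MP_1209e6_fl.W1
import Pool.Agent.Lib_MP_1209e6_fl.W4
import Pool.Agent.Lib_MP_1209e6_sk.Z0
import Pool.Agent.Lib_MP_1209e6_sk.Z9
import Pool.Agent.Lib_MP_1209e6_sk.Z10
import Pool.Agent.Lib_MP_1209e6_sk.Z11
import Pool.Agent.Lib_MP_1209e6_sk.Z13

/-! Dense entire curves from base curves given by places. -/

set_option autoImplicit false

open Filter Topology

namespace Pool.Agent.AbPencil

open Pool.Agent.Campana Pool.Agent.CampanaFlow Pool.Agent.AbFib

/-- meromorphic functions with given orders -/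
theorem exists_orders {r : ℕ} (ν : ℂ → Fin r → ℤ) (hν : ∀ z, ∀ᶠ w in 𝓝[≠] z, ν w = 0) :
    ∃ D₀ : Fin r → ℂ → ℂ, ∀ i z, MeromorphicAt (D₀ i) z ∧
      meromorphicOrderAt (D₀ i) z = ((ν z i : ℤ) : WithTop ℤ) := by
  have h1 : ∀ i, ∃ E : ℂ → ℂ, Differentiable ℂ E ∧ ∀ z, analyticOrderAt E z = (ν z i).toNat := by
    intro i
    refine weierstrass (fun z => (ν z i).toNat) fun z => ?_
    filter_upwards [hν z] with w hw
    rw [hw]
    rfl
  have h2 : ∀ i, ∃ E : ℂ → ℂ, Differentiable ℂ E ∧ ∀ z, analyticOrderAt E z = (-(ν z i)).toNat := by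
    intro i
    refine weierstrass (fun z => (-(ν z i)).toNat) fun z => ?_
    filter_upwards [hν z] with w hw
    rw [hw]
    rfl
  choose E hE hE1 using h1
  choose E' hE' hE1' using h2
  refine ⟨fun i z => E i z * (E' i z)⁻¹, fun i z => ?_⟩
  have h3 := (hE i).analyticAt z
  have h4 := (hE' i).analyticAt z
  have h5 : MeromorphicAt (E i) z := h3.meromorphicAt
  have h6 : MeromorphicAt (E' i)⁻¹ z := h4.meromorphicAt.inv
  refine ⟨h5.mul h6, ?_⟩
  have h7 : meromorphicOrderAt (E i * (E' i)⁻¹) z =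
      meromorphicOrderAt (E i) z + meromorphicOrderAt (E' i)⁻¹ z :=
    meromorphicOrderAt_mul h5 h6
  change meromorphicOrderAt (E i * (E' i)⁻¹) z = _
  rw [h7, meromorphicOrderAt_inv, h3.meromorphicOrderAt_eq, h4.meromorphicOrderAt_eq, hE1, hE1']
  have h10 : (ν z i : ℤ) = ((ν z i).toNat : ℤ) - ((-(ν z i)).toNat : ℤ) := by omega
  conv_rhs => rw [h10]
  rw [sub_eq_add_neg]
  rfl

/-- Dense entire curves from base curves given by places. -/
theorem brody_of_local {m n₀ r N : ℕ} (P : Ideal (MvPolynomial (Fin (m + 1)) ℂ)) [P.IsPrime]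
    (hP : IsVariety P) (t : Fin n₀ → FunField P) (U : ℂ → Fin n₀ → ℂ) (hU : IsDenseCurve t U)
    (δ : Fin r → FunField P) (hδ : ∀ i, δ i ≠ 0) (n : Fin r → ℕ) (hn : ∀ i, 1 ≤ n i)
    (ν : ℂ → Fin r → ℤ) (hν : ∀ z, ∀ᶠ w in 𝓝[≠] z, ν w = 0)
    (hloc : ∀ z, LocalPlace t U δ z (ν z)) (x : Fin (N + 1) → KW (FunField P) r)
    (h : IsAbelianFibration (twist t δ n) x) : BrodySpecial P := by
  classical
  obtain ⟨T₀, hT₀⟩ := funField_fg P
  obtain ⟨D₀, hD₀⟩ := exists_orders ν hν
  have hne : ∀ i z, ∀ᶠ w in 𝓝[≠] z, D₀ i w ≠ 0 := by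
    intro i z
    have h1 := (hD₀ i z).1
    rw [← meromorphicOrderAt_ne_top_iff_eventually_ne_zero h1, (hD₀ i z).2]
    exact WithTop.coe_ne_top
  have hd := algebraicIndependent_tw δ hδ n hn
  obtain ⟨hh, hh1, hdense⟩ := exists_indep t U hU
    (fun i : Fin r => (wv i ^ n i / algebraMap (FunField P) (KW (FunField P) r) (δ i)))
    hd D₀ (fun i z => (hD₀ i z).1) hne
  set D : ℂ → Fin r → ℂ := fun z i => D₀ i z * Complex.exp (hh i z) with hDdef
  have hexp : ∀ i z, AnalyticAt ℂ (fun w => Complex.exp (hh i w)) z := fun i z =>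
    ((hh1 i).analyticAt z).cexp
  have hDm : ∀ i z, MeromorphicAt (fun w => D w i) z := fun i z =>
    ((hD₀ i z).1).mul (hexp i z).meromorphicAt
  have hDo : ∀ i z, meromorphicOrderAt (fun w => D w i) z = ((ν z i : ℤ) : WithTop ℤ) := by
    intro i z
    have h1 : (fun w => D w i) = D₀ i * fun w => Complex.exp (hh i w) := rfl
    have h2 : meromorphicOrderAt (fun w => Complex.exp (hh i w)) z = 0 := by
      rw [(hexp i z).meromorphicOrderAt_eq,
        (hexp i z).analyticOrderAt_eq_zero.2 (Complex.exp_ne_zero _)]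
      rfl
    rw [h1, meromorphicOrderAt_mul (hD₀ i z).1 (hexp i z).meromorphicAt, (hD₀ i z).2, h2, add_zero]
  refine brody_of_lifts P hP (IsScalarTower.toAlgHom ℂ (FunField P) (KW (FunField P) r))
    (twist t δ n) x h (fun z => Fin.append (U z) (D z)) hdense fun z₀ => ?_
  obtain ⟨O, v, e, k, m', g, s, A, B, A', B', hO, hv, he, hk, hg, hg0, hve, hνz, hs, hso, hB, hAB,
    hsAB, hB', hmatch⟩ := hloc z₀
  have hτ := trans_of_ord hO hv hg0 (by rw [hve]; exact_mod_cast he)
  have hind := ind_of_dense t _ hd U D hdense (g 0) hτ A B hB hAB z₀ s hsAB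
  obtain ⟨G, Q, hG, hG0, hGrel, hQ, hrel⟩ := lift_point T₀ hT₀ O hO v hv e k he hk g hg hg0 hve z₀ s
    hs hso δ hδ n hn D (fun i => hDm i z₀) (fun i => by rw [hDo, hνz]) hind
    (fun l : Fin (N + 1) => x l / x 0)
  have hm := hmatch G hG hG0 hGrel
  -- add `t`
  have key : ∀ (F : (Fin (m' + 1) ⊕ Fin r) ⊕ Fin (N + 1) → ℂ) (p : MvPolynomial (Fin (m' + 1)) ℂ),
      MvPolynomial.aeval F (MvPolynomial.rename (fun j => Sum.inl (Sum.inl j)) p) =
        MvPolynomial.aeval (fun j => F (Sum.inl (Sum.inl j))) p := by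
    intro F p
    rw [MvPolynomial.aeval_rename]
    rfl
  have key2 : ∀ p : MvPolynomial (Fin (m' + 1)) ℂ,
      MvPolynomial.aeval (Sum.elim (Sum.elim (fun j => algebraMap (FunField P)
          (KW (FunField P) r) (g j))
          (fun i => wv i ^ n i / algebraMap (FunField P) (KW (FunField P) r) (δ i)))
          (fun l : Fin (N + 1) => x l / x 0))
          (MvPolynomial.rename (fun j => Sum.inl (Sum.inl j)) p) =
        algebraMap (FunField P) (KW (FunField P) r) (MvPolynomial.aeval g p) := by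
    intro p
    rw [MvPolynomial.aeval_rename]
    exact (MvPolynomial.aeval_algebraMap_apply (KW (FunField P) r) g p)
  have h1 := rel_frac hrel (fun a : Fin n₀ => algebraMap (FunField P) (KW (FunField P) r) (t a)) U
    (fun a => MvPolynomial.rename (fun j => Sum.inl (Sum.inl j)) (A' a))
    (fun a => MvPolynomial.rename (fun j => Sum.inl (Sum.inl j)) (B' a))
    (fun a => by
      rw [key2]
      exact (map_ne_zero _).2 (hB' a).1)
    (fun a => by
      rw [key2, key2, ← map_mul, (hB' a).2])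
    (fun a => by
      filter_upwards [hm a] with z hz
      rw [key, key]
      exact hz)
  have h2 := rel_map (κ := Fin (n₀ + r) ⊕ Fin (N + 1))
    (Sum.elim (Fin.append (fun a => Sum.inr a) fun i => Sum.inl (Sum.inl (Sum.inr i)))
      fun l => Sum.inl (Sum.inr l)) h1
  refine fibre_of_rel (twist t δ n) x h.ne_zero z₀ _ Q hQ ?_
  have e1 : (Sum.elim (twist t δ n) fun l => x l / x 0 : Fin (n₀ + r) ⊕ Fin (N + 1) →
      KW (FunField P) r) = fun k => (Sum.elim
        (Sum.elim (Sum.elim (fun j => (algebraMap (FunField P) (KW (FunField P) r)) (g j))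
          fun i => wv i ^ n i / (algebraMap (FunField P) (KW (FunField P) r)) (δ i))
          fun l => x l / x 0) (fun a => (algebraMap (FunField P) (KW (FunField P) r)) (t a))
      (Sum.elim (Fin.append (fun a => Sum.inr a) fun i => Sum.inl (Sum.inl (Sum.inr i)))
        (fun l => Sum.inl (Sum.inr l)) k)) := by
    funext j
    rcases j with j | l
    · induction j using Fin.addCases with
      | left a => simp [twist]
      | right i => simp [twist]
    · rfl
  rw [e1]
  have e2 : (fun z => Sum.elim (Fin.append (U z) (D z)) (Q z)) = fun z k => Sum.elim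
      (Sum.elim (Sum.elim (G z) (D z)) (Q z)) (U z)
      (Sum.elim (Fin.append (fun a => Sum.inr a) fun i => Sum.inl (Sum.inl (Sum.inr i)))
        (fun l => Sum.inl (Sum.inr l)) k) := by
    funext z j
    rcases j with j | l
    · induction j using Fin.addCases with
      | left a => simp
      | right i => simp
    · rfl
  rw [e2]
  exact h2

end Pool.Agent.AbPencil
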