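import Pool.Agent.Lib_MP_1209e6_sp.P0
import Pool.Agent.Lib_MP_1209e6_sp.Defs

/-! The inf-multiplicities. -/

set_option autoImplicit false

open Filter Topology

namespace Pool.Agent.AbPencil

open Pool.Agent.Campana

theorem par_trans {K : Type} [Field K] [Algebra ℂ K] (T : K) (hT : Transcendental ℂ T)
    (b : Option ℂ) : Transcendental ℂ (par T b) := by
  intro hA
  apply hT
  cases b with
  | none =>
    have h1 : IsAlgebraic ℂ (T⁻¹) := hA
    exact IsAlgebraic.inv_iff.1 h1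
  | some c =>
    have h1 : IsAlgebraic ℂ (T - algebraMap ℂ K c) := hA
    have h2 := h1.add (isAlgebraic_algebraMap (R := ℂ) (A := K) c)
    rwa [sub_add_cancel] at h2

/-- The orbifold bases of all pencils on `X` have nonpositive degree: a common consequence of `SpecialField`
(`special_bound`) and of `BrodySpecial` (`sum_le_two_of_brody`). -/
def PencilBound (K : Type) [Field K] [Algebra ℂ K] : Prop :=
  ∀ T : K, Transcendental ℂ T → ∀ μ : Option ℂ → ℕ, (∀ b, 1 ≤ μ b) →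
    (∀ (b : Option ℂ) (O : ValuationSubring K) (v : K → ℤ), IsPlace O → IsOrd O v →
      1 ≤ v (par T b) → (μ b : ℤ) ≤ v (par T b)) →
    ∀ S : Finset (Option ℂ), ∑ b ∈ S, (1 - 1 / (μ b : ℝ)) ≤ 2

/-- The same for the pencils `T` in the field generated by `S`. -/
def BoundOn {K : Type} [Field K] [Algebra ℂ K] (S₀ : Set K) : Prop :=
  ∀ T ∈ IntermediateField.adjoin ℂ S₀, Transcendental ℂ T → ∀ μ : Option ℂ → ℕ, (∀ b, 1 ≤ μ b) →
    (∀ (b : Option ℂ) (O : ValuationSubring K) (v : K → ℤ), IsPlace O → IsOrd O v →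
      1 ≤ v (par T b) → (μ b : ℤ) ≤ v (par T b)) →
    ∀ S : Finset (Option ℂ), ∑ b ∈ S, (1 - 1 / (μ b : ℝ)) ≤ 2

theorem PencilBound.on {K : Type} [Field K] [Algebra ℂ K] (h : PencilBound K) (S₀ : Set K) :
    BoundOn S₀ := fun T _ => h T

theorem BoundOn.mono {K : Type} [Field K] [Algebra ℂ K] {S₀ S₁ : Set K} (h : BoundOn S₀)
    (hS : ∀ a ∈ S₁, a ∈ IntermediateField.adjoin ℂ S₀) : BoundOn S₁ := fun T hT =>
  h T (IntermediateField.adjoin_le_iff.2 hS hT)

theorem exists_mult {K : Type} [Field K] [Algebra ℂ K] (T₀ : Finset K)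
    (hT₀ : IntermediateField.adjoin ℂ (T₀ : Set K) = ⊤) (T : K) (hT : Transcendental ℂ T) :
    ∃ μ : Option ℂ → ℕ, (∀ b, 1 ≤ μ b) ∧
      (∀ (b : Option ℂ) (O : ValuationSubring K) (v : K → ℤ), IsPlace O → IsOrd O v →
        1 ≤ v (par T b) → (μ b : ℤ) ≤ v (par T b)) ∧
      ∀ b, ∃ (O : ValuationSubring K) (v : K → ℤ), IsPlace O ∧ IsOrd O v ∧ v (par T b) = μ b := by
  classical
  let Q : Option ℂ → ℕ → Prop := fun b e => ∃ (O : ValuationSubring K)
    (v : K → ℤ), IsPlace O ∧ IsOrd O v ∧ 1 ≤ e ∧ v (par T b) = e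
  have hQ : ∀ b, ∃ e, Q b e := by
    intro b
    obtain ⟨O, v, hO, hv, h1⟩ := exists_place_over T₀ hT₀ (par T b) (par_trans T hT b)
    obtain ⟨e, he⟩ := Int.eq_ofNat_of_zero_le (by omega : (0 : ℤ) ≤ v (par T b))
    exact ⟨e, O, v, hO, hv, by omega, he⟩
  refine ⟨fun b => Nat.find (hQ b), ?_, ?_, ?_⟩
  · intro b
    obtain ⟨O, v, hO, hv, h1, h2⟩ := Nat.find_spec (hQ b)
    exact h1
  · intro b O v hO hv h3
    obtain ⟨e, he⟩ := Int.eq_ofNat_of_zero_le (by omega : (0 : ℤ) ≤ v (par T b))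
    rw [he]
    have h4 : Nat.find (hQ b) ≤ e := Nat.find_min' (hQ b) ⟨O, v, hO, hv, by omega, he⟩
    exact_mod_cast h4
  · intro b
    obtain ⟨O, v, hO, hv, h5, h6⟩ := Nat.find_spec (hQ b)
    exact ⟨O, v, hO, hv, h6⟩

end Pool.Agent.AbPencil
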