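import Pool.Agent.Lib_MP_1209e6_sp.P2
import Pool.Agent.Lib_MP_1209e6_sp.D
import Pool.Agent.Lib_MP_1209e6_sp.U6
import Pool.Agent.Lib_MP_1209e6_sp.E2
import Pool.Agent.Lib_MP_1209e6_sk.M1
import Pool.Agent.Lib_MP_1209e6_sk.Z12
import Pool.Agent.Lib_MP_1209e6_sk.Z0

/-! PIECE L1: base curves for pencils over the line. -/

set_option autoImplicit false

open Filter Topology

namespace Pool.Agent.AbPencil

open Pool.Agent.Campana Pool.Agent.AbFib

/-- a germ of positive order avoids every value -/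
private theorem l1_s_ne {s : ℂ → ℂ} {z₀ : ℂ} {n : ℕ} (hs : AnalyticAt ℂ s z₀) (hn : 1 ≤ n)
    (ho : analyticOrderAt s z₀ = n) (c : ℂ) : s z₀ = 0 ∧ ∀ᶠ z in 𝓝[≠] z₀, s z ≠ c := by
  have h0 : s z₀ = 0 := by
    by_contra h
    have := (hs.analyticOrderAt_eq_zero).2 h
    rw [this] at ho
    have h2 : (0 : ℕ) = n := by exact_mod_cast ho
    omega
  refine ⟨h0, ?_⟩
  by_cases hc : c = 0
  · subst hc
    rcases hs.eventually_eq_zero_or_eventually_ne_zero with h | h
    · exfalso
      have := (analyticOrderAt_eq_top).2 h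
      rw [this] at ho
      exact absurd ho (by simp)
    · exact h
  · have h1 : Tendsto s (𝓝 z₀) (𝓝 0) := by
      have := hs.continuousAt.tendsto
      rwa [h0] at this
    have h2 : ∀ᶠ z in 𝓝 z₀, s z ≠ c := h1.eventually_ne (Ne.symm hc)
    exact h2.filter_mono nhdsWithin_le_nhds

/-- one variable out of two -/
private theorem l1_aeval {A : Type} [CommRing A] [Algebra ℂ A] (a : A) (p : MvPolynomial (Fin 2) ℂ) :
    MvPolynomial.aeval ![a, 0] p = MvPolynomial.aeval (fun _ : Fin 1 => a)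
      (MvPolynomial.aeval ![(MvPolynomial.X 0 : MvPolynomial (Fin 1) ℂ), 0] p) := by
  rw [← AlgHom.comp_apply, MvPolynomial.comp_aeval]
  congr 2
  funext i
  fin_cases i <;> simp

private theorem l1_dense {K : Type} [Field K] [Algebra ℂ K] (T : K) (u : ℂ → ℂ)
    (h : IsDenseCurve (fun _ : Fin 1 => T) fun z _ => u z) :
    IsDenseCurve ![T, 0] fun z => ![u z, 0] := by
  refine ⟨fun z => ?_, fun p => ?_⟩
  · have h1 : MeromorphicAt (fun z (_ : Fin 1) => u z) z := h.1 z
    obtain ⟨n, hn⟩ := h1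
    refine ⟨n, ?_⟩
    have h2 : AnalyticAt ℂ (fun w => (w - z) ^ n • u w) z := by
      have h3 : AnalyticAt ℂ (fun w => (fun f : Fin 1 → ℂ => f 0) ((w - z) ^ n • fun _ : Fin 1 => u w)) z :=
        (analyticAt_pi_iff.1 hn) 0
      exact h3
    have h4 : AnalyticAt ℂ (fun w => fun i : Fin 2 => (w - z) ^ n • (![u w, 0] : Fin 2 → ℂ) i) z := by
      refine AnalyticAt.pi fun i => ?_
      fin_cases i
      · exact h2
      · simp only [Fin.mk_one, Matrix.cons_val_one, Matrix.cons_val_fin_one, smul_zero]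
        exact analyticAt_const
    exact h4
  · rw [l1_aeval, h.2]
    refine forall_congr' fun z₀ => ?_
    refine eventually_congr (Eventually.of_forall fun z => ?_)
    have h5 := l1_aeval (A := ℂ) (u z) p
    rw [MvPolynomial.aeval_eq_eval, MvPolynomial.aeval_eq_eval] at h5
    rw [h5]

/-- Proof. `μ` from `exists_mult`, `hbd`, `u` from `exists_ram ellCurve`; `dense_of_ram` (the second coordinate is
constant `0`). `S` from `good_places` with `y = 0` (for `b ∉ S` take `y₀ = 0`). For each point `b` of `ℙ¹` choose a place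
`O_b`, `v_b` over `b` with `v_b (par T b) = μ b`, and with `v_b (δ i) = 0` for all `i` if `b = some c`, `c ∉ S` (then
`v_b (T - c) = 1`, so `μ b = 1`). At `z₀` let `b, s, k` be as in `Ram`, `ν z₀ i = - k v_b (δ i)`, `O = O_b`, `e = μ b`, `m = 0`,
`g = ![par T b]`. `b = some c`: `A = X 0 - C c`, `B = 1`, `A' = ![X 0 + C c, 0]`, `B' = 1`. `b = none`: `A = 1`, `B = X 0`,
`A' = ![1, 0]`, `B' = ![X 0, 1]` (`T = 1 / T⁻¹`; `s ≠ 0` off `z₀`). `par T b ∈ O` by `mem_iff`.
`ν` has discrete support: near `z₁` write `u = pt b₁ ∘ s₁` off `z₁`; for `w ≠ z₁` near `z₁` the limit of `u` at `w` is the number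
`pt b₁ (s₁ w)` (`s₁ w ≠ 0`), so the point `b` chosen at `w` is `some (pt b₁ (s₁ w))` (compare limits of `pt b (s z)` with
`s → 0`), and `pt b₁ (s₁ w) ∉ S` for `w ≠ z₁` near `z₁` since `s₁` is not locally constant. -/
theorem local_line_on {K : Type} [Field K] [Algebra ℂ K] (T₀ : Finset K)
    (hT₀ : IntermediateField.adjoin ℂ (T₀ : Set K) = ⊤) (T : K) (hT : Transcendental ℂ T)
    (hbd : BoundOn ({T} : Set K)) {r : ℕ} (δ : Fin r → K) (hδ : ∀ i, δ i ≠ 0) :
    ∃ (u : ℂ → ℂ) (ν : ℂ → Fin r → ℤ), IsDenseCurve ![T, 0] (fun z => ![u z, 0]) ∧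
      (∀ z, ∀ᶠ w in 𝓝[≠] z, ν w = 0) ∧ ∀ z, LocalPlace ![T, 0] (fun z => ![u z, 0]) δ z (ν z) := by
  classical
  obtain ⟨μ, h1, hμ, hex⟩ := exists_mult T₀ hT₀ T hT
  obtain ⟨u, hu⟩ := exists_ram ellCurve μ h1
    (hbd T (IntermediateField.subset_adjoin _ _ (Set.mem_singleton T)) hT μ h1 hμ)
  obtain ⟨S, hS⟩ := good_places T₀ hT₀ T hT 0 isIntegral_zero δ hδ
  -- a place for each point
  have hP : ∀ b : Option ℂ, ∃ (O : ValuationSubring K) (v : K → ℤ), IsPlace O ∧ IsOrd O v ∧
      v (par T b) = μ b ∧ ∀ c, b = some c → c ∉ S → ∀ i, v (δ i) = 0 := by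
    intro b
    by_cases hb : ∃ c, b = some c ∧ c ∉ S
    · obtain ⟨c, rfl, hc⟩ := hb
      have hrel : ∀ p : MvPolynomial (Fin 2) ℂ, MvPolynomial.aeval ![T, 0] p = 0 →
          MvPolynomial.aeval ![c, 0] p = 0 := by
        intro p hp
        rw [l1_aeval] at hp
        have hA : AlgebraicIndependent ℂ fun _ : Fin 1 => T :=
          (algebraicIndependent_unique_type_iff (x := fun _ : Fin 1 => T)).2 hT
        have h0 := (injective_iff_map_eq_zero _).1 hA _ hp
        rw [l1_aeval, h0, map_zero]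
      obtain ⟨O, v, hO, hv, hv1, -, hvδ⟩ := hS c hc 0 hrel
      refine ⟨O, v, hO, hv, ?_, fun _ _ _ => hvδ⟩
      have h2 : (μ (some c) : ℤ) ≤ v (par T (some c)) := hμ (some c) O v hO hv (by
        change 1 ≤ v (T - algebraMap ℂ K c)
        omega)
      have h3 : v (par T (some c)) = 1 := hv1
      have h4 := h1 (some c)
      omega
    · obtain ⟨O, v, hO, hv, hvb⟩ := hex b
      exact ⟨O, v, hO, hv, hvb, fun c hbc hc => absurd ⟨c, hbc, hc⟩ hb⟩
  choose O v hO hv hpar hgood using hP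
  choose b s k hk hsa hso hus using hu
  have hn : ∀ z, 1 ≤ k z * μ (b z) := fun z => Nat.mul_pos (hk z) (h1 _)
  have hs0 : ∀ z, s z z = 0 := fun z => (l1_s_ne (hsa z) (hn z) (hso z) 0).1
  have hsne : ∀ z c, ∀ᶠ w in 𝓝[≠] z, s z w ≠ c := fun z c => (l1_s_ne (hsa z) (hn z) (hso z) c).2
  -- the values are avoided
  have hune : ∀ z e, ∀ᶠ w in 𝓝[≠] z, u w ≠ e := by
    intro z e
    have h2 := hus z
    cases hb : b z with
    | some c =>
      rw [hb] at h2
      filter_upwards [h2, hsne z (e - c)] with w h3 h4 h5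
      apply h4
      rw [h5] at h3
      simp only [pt] at h3
      rw [h3]; ring
    | none =>
      rw [hb] at h2
      filter_upwards [h2, hsne z e⁻¹] with w h3 h4 h5
      apply h4
      rw [h5] at h3
      simp only [pt] at h3
      rw [h3, inv_inv]
  refine ⟨u, fun z i => -((k z : ℤ) * v (b z) (δ i)), l1_dense T u ?_, ?_, ?_⟩
  · refine dense_of_ram T hT μ h1 u fun z => ⟨b z, s z, k z, hk z, hsa z, hso z, hus z⟩
  · -- discreteness
    intro z₁
    have hcont : ∀ᶠ w in 𝓝[≠] z₁, ContinuousAt u w := by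
      have h3 : ∀ᶠ w in 𝓝[≠] z₁, ∀ᶠ z in 𝓝 w, u z = pt (b z₁) (s z₁ z) := by
        have h4 := eventually_eventually_nhdsWithin.2 (hus z₁)
        filter_upwards [h4, self_mem_nhdsWithin] with w hw hwz
        have h6 : 𝓝[{z₁}ᶜ] w = 𝓝 w := isOpen_compl_singleton.nhdsWithin_eq hwz
        rwa [h6] at hw
      have h7 : ∀ᶠ w in 𝓝[≠] z₁, AnalyticAt ℂ (s z₁) w :=
        (hsa z₁).eventually_analyticAt.filter_mono nhdsWithin_le_nhds
      filter_upwards [h3, h7, hsne z₁ 0] with w h8 h9 h10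
      have h11 : ContinuousAt (fun z => pt (b z₁) (s z₁ z)) w := by
        cases hb : b z₁ with
        | some c => exact continuousAt_const.add h9.continuousAt
        | none => exact h9.continuousAt.inv₀ h10
      exact h11.congr (h8.mono fun z hz => hz.symm)
    have hSall : ∀ᶠ w in 𝓝[≠] z₁, ∀ e ∈ S, u w ≠ e := by
      rw [Finset.eventually_all]
      exact fun e _ => hune z₁ e
    filter_upwards [hcont, hSall] with w hc hSw
    -- the point at `w`
    have hlim : Tendsto u (𝓝[≠] w) (𝓝 (u w)) := hc.tendsto.mono_left nhdsWithin_le_nhds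
    have hslim : Tendsto (s w) (𝓝[≠] w) (𝓝 0) := by
      have h2 := (hsa w).continuousAt.tendsto
      rw [hs0] at h2
      exact h2.mono_left nhdsWithin_le_nhds
    have hbw : ∃ c, b w = some c ∧ c ∉ S := by
      cases hb : b w with
      | some c =>
        refine ⟨c, rfl, fun hcS => ?_⟩
        have h2 := hus w
        rw [hb] at h2
        have h3 : Tendsto u (𝓝[≠] w) (𝓝 (c + 0)) := by
          refine Tendsto.congr' (h2.mono fun z hz => hz.symm) ?_
          exact tendsto_const_nhds.add hslim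
        rw [add_zero] at h3
        exact hSw c hcS (tendsto_nhds_unique hlim h3)
      | none =>
        exfalso
        have h2 := hus w
        rw [hb] at h2
        have h3 : Tendsto (fun z => u z * s w z) (𝓝[≠] w) (𝓝 (u w * 0)) := hlim.mul hslim
        have h4 : Tendsto (fun z => u z * s w z) (𝓝[≠] w) (𝓝 1) := by
          refine Tendsto.congr' ?_ tendsto_const_nhds
          filter_upwards [h2, hsne w 0] with z h5 h6
          simp only [pt] at h5
          rw [h5, inv_mul_cancel₀ h6]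
        have h7 := tendsto_nhds_unique h3 h4
        rw [mul_zero] at h7
        exact zero_ne_one h7
    obtain ⟨c, hbc, hcS⟩ := hbw
    funext i
    change -((k w : ℤ) * v (b w) (δ i)) = 0
    rw [hgood (b w) c hbc hcS i, mul_zero, neg_zero]
  · -- the local place
    intro z₀
    have hT0 : T ≠ 0 := fun h => hT (h ▸ isAlgebraic_zero)
    have hpar0 : par T (b z₀) ≠ 0 := fun h => par_trans T hT (b z₀) (h ▸ isAlgebraic_zero)
    have hmem : par T (b z₀) ∈ O (b z₀) := by
      rw [(hv (b z₀)).mem_iff hpar0, hpar]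
      exact Int.natCast_nonneg _
    have hus₀ := hus z₀
    cases hb : b z₀ with
    | some c =>
      rw [hb] at hus₀ hpar0 hmem
      refine ⟨O (b z₀), v (b z₀), μ (b z₀), k z₀, 0, fun _ => par T (b z₀), s z₀,
        MvPolynomial.X 0 - MvPolynomial.C c, 1, ![MvPolynomial.X 0 + MvPolynomial.C c, 0],
        fun _ => 1, hO _, hv _, h1 _, hk z₀, ?_, ?_, ?_, fun i => ?_, hsa z₀, ?_, ?_, ?_, ?_, ?_, ?_⟩
      · intro _; rw [hb]; exact hmem
      · rw [hb]; exact hpar0
      · exact hpar _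
      · change -((k z₀ : ℤ) * v (b z₀) (δ i)) = _
        rw [hb]
      · exact hso z₀
      · simp
      · rw [hb]; simp [par]
      · filter_upwards [hus₀] with z hz
        simp only [pt] at hz
        simp [hz]
      · intro a
        rw [hb]
        fin_cases a <;> simp [par]
      · intro G hG hG0 hR a
        have h2 := hG0.filter_mono (nhdsWithin_le_nhds (s := {z₀}ᶜ))
        filter_upwards [hus₀, h2] with z hz h3
        simp only [pt] at hz
        refine ⟨by simp, ?_⟩
        fin_cases a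
        · simp [hz, h3, add_comm]
        · simp
    | none =>
      rw [hb] at hus₀ hpar0 hmem
      refine ⟨O (b z₀), v (b z₀), μ (b z₀), k z₀, 0, fun _ => par T (b z₀), s z₀,
        1, MvPolynomial.X 0, ![1, 0],
        ![MvPolynomial.X 0, 1], hO _, hv _, h1 _, hk z₀, ?_, ?_, ?_, fun i => ?_, hsa z₀, ?_, ?_, ?_,
        ?_, ?_, ?_⟩
      · intro _; rw [hb]; exact hmem
      · rw [hb]; exact hpar0
      · exact hpar _
      · change -((k z₀ : ℤ) * v (b z₀) (δ i)) = _
        rw [hb]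
      · exact hso z₀
      · simpa using hT0
      · rw [hb]; simp [par, hT0]
      · filter_upwards [hus₀, hsne z₀ 0] with z hz h3
        simp only [pt] at hz
        simp [hz, h3]
      · intro a
        rw [hb]
        fin_cases a <;> simp [par, hT0]
      · intro G hG hG0 hR a
        have h2 := hG0.filter_mono (nhdsWithin_le_nhds (s := {z₀}ᶜ))
        filter_upwards [hus₀, h2, hsne z₀ 0] with z hz h3 h4
        simp only [pt] at hz
        fin_cases a
        · simp [hz, h3, h4]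
        · simp

theorem local_line {K : Type} [Field K] [Algebra ℂ K] (T₀ : Finset K)
    (hT₀ : IntermediateField.adjoin ℂ (T₀ : Set K) = ⊤) (T : K) (hT : Transcendental ℂ T)
    (hbd : PencilBound K) {r : ℕ} (δ : Fin r → K) (hδ : ∀ i, δ i ≠ 0) :
    ∃ (u : ℂ → ℂ) (ν : ℂ → Fin r → ℤ), IsDenseCurve ![T, 0] (fun z => ![u z, 0]) ∧
      (∀ z, ∀ᶠ w in 𝓝[≠] z, ν w = 0) ∧ ∀ z, LocalPlace ![T, 0] (fun z => ![u z, 0]) δ z (ν z) :=
  local_line_on T₀ hT₀ T hT (hbd.on _) δ hδ

end Pool.Agent.AbPencil
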