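import Pool.Agent.Lib_MP_1209e6_fl.W4
import Pool.Agent.Lib_MP_1209e6_sk.Z0
import Pool.Agent.Lib_MP_1209e6_sk.Z9
import Pool.Agent.Lib_MP_1209e6_sk.Z13
import Pool.Agent.Lib_MP_1209e6_sk.L1
import Pool.Agent.Lib_MP_1209e6_sk.C4

/-! Dense entire curves in abelian fibrations from base curves given by places (no twist). -/

set_option autoImplicit false

open Filter Topology

namespace Pool.Agent.AbPencil

open Pool.Agent.Campana Pool.Agent.CampanaFlow Pool.Agent.AbFib

/-- a nonzero polynomial in a germ of positive finite order is not locally zero -/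
theorem poly_germ_ne {s : ℂ → ℂ} {z₀ : ℂ} {n : ℕ} (hs : AnalyticAt ℂ s z₀) (hn : 1 ≤ n)
    (ho : analyticOrderAt s z₀ = n) (c : ℂ) : ∀ᶠ z in 𝓝[≠] z₀, s z ≠ c := by
  have h0 : s z₀ = 0 := by
    by_contra h
    have := (hs.analyticOrderAt_eq_zero).2 h
    rw [this] at ho
    have h2 : (0 : ℕ) = n := by exact_mod_cast ho
    omega
  by_cases hc : c = 0
  · subst hc
    rcases hs.eventually_eq_zero_or_eventually_ne_zero with h | h
    · exfalso
      have := (analyticOrderAt_eq_top).2 h
      rw [this] at ho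
      exact absurd ho (by simp)
    · exact h
  · have h1 : Tendsto s (𝓝 z₀) (𝓝 0) := by
      have := hs.continuousAt.tendsto
      rwa [h0] at this
    exact (h1.eventually_ne (Ne.symm hc)).filter_mono nhdsWithin_le_nhds

theorem ind_germ {s : ℂ → ℂ} {z₀ : ℂ} {n : ℕ} (hs : AnalyticAt ℂ s z₀) (hn : 1 ≤ n)
    (ho : analyticOrderAt s z₀ = n) (D : ℂ → Fin 0 → ℂ) (p : MvPolynomial (Fin 1 ⊕ Fin 0) ℂ)
    (hp : p ≠ 0) :
    ∀ᶠ z in 𝓝[≠] z₀, MvPolynomial.aeval (Sum.elim (fun _ => s z) (D z)) p ≠ 0 := by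
  classical
  let e : Fin 1 ⊕ Fin 0 → Unit := fun _ => ()
  set q : Polynomial ℂ := MvPolynomial.aeval (fun _ : Fin 1 ⊕ Fin 0 => (Polynomial.X : Polynomial ℂ)) p
    with hq
  have hev : ∀ z, MvPolynomial.aeval (Sum.elim (fun _ => s z) (D z)) p = q.eval (s z) := by
    intro z
    have h1 : (Polynomial.aeval (s z)).comp
        (MvPolynomial.aeval (fun _ : Fin 1 ⊕ Fin 0 => (Polynomial.X : Polynomial ℂ))) =
        (MvPolynomial.aeval (Sum.elim (fun _ => s z) (D z)) :
          MvPolynomial (Fin 1 ⊕ Fin 0) ℂ →ₐ[ℂ] ℂ) := by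
      apply MvPolynomial.algHom_ext
      rintro (i | i)
      · simp
      · exact i.elim0
    rw [← h1, AlgHom.comp_apply, ← hq]
    exact Polynomial.coe_aeval_eq_eval (s z) ▸ rfl
  have hq0 : q ≠ 0 := by
    intro h0
    apply hp
    have h2 : Function.Injective (MvPolynomial.aeval
        (fun _ : Fin 1 ⊕ Fin 0 => (Polynomial.X : Polynomial ℂ)) :
        MvPolynomial (Fin 1 ⊕ Fin 0) ℂ →ₐ[ℂ] Polynomial ℂ) := by
      have h3 : (Polynomial.aeval (MvPolynomial.X (Sum.inl 0) : MvPolynomial (Fin 1 ⊕ Fin 0) ℂ)).comp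
          (MvPolynomial.aeval (fun _ : Fin 1 ⊕ Fin 0 => (Polynomial.X : Polynomial ℂ))) =
          AlgHom.id ℂ _ := by
        apply MvPolynomial.algHom_ext
        rintro (i | i)
        · have : i = 0 := Subsingleton.elim _ _
          subst this
          simp
        · exact i.elim0
      intro a b hab
      have h4 := congrArg (Polynomial.aeval
        (MvPolynomial.X (Sum.inl 0) : MvPolynomial (Fin 1 ⊕ Fin 0) ℂ)) hab
      rw [← AlgHom.comp_apply, ← AlgHom.comp_apply, h3] at h4
      exact h4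
    exact h2 (h0.trans (map_zero _).symm)
  have h1 : ∀ᶠ z in 𝓝[≠] z₀, ∀ c ∈ q.roots.toFinset, s z ≠ c :=
    (Filter.eventually_all_finset _).2 fun c _ => poly_germ_ne hs hn ho c
  filter_upwards [h1] with z hz h2
  rw [hev] at h2
  exact hz (s z) (Multiset.mem_toFinset.2 ((Polynomial.mem_roots hq0).2 h2)) rfl

/-- Version of `brody_of_local` for an abelian fibration on `X` itself. -/
theorem brody_of_local₀ {m n₀ N : ℕ} (P : Ideal (MvPolynomial (Fin (m + 1)) ℂ)) [P.IsPrime]
    (hP : IsVariety P) (t : Fin n₀ → FunField P) (U : ℂ → Fin n₀ → ℂ) (hU : IsDenseCurve t U)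
    (ν : ℂ → Fin 0 → ℤ)
    (hloc : ∀ z, LocalPlace t U (fun i : Fin 0 => i.elim0) z (ν z))
    (x : Fin (N + 1) → FunField P) (h : IsAbelianFibration t x) : BrodySpecial P := by
  classical
  obtain ⟨T₀, hT₀⟩ := funField_fg P
  refine brody_of_lifts P hP (AlgHom.id ℂ (FunField P)) t x h U hU fun z₀ => ?_
  obtain ⟨O, v, e, k, m', g, s, A, B, A', B', hO, hv, he, hk, hg, hg0, hve, hνz, hs, hso, hB, hAB,
    hsAB, hB', hmatch⟩ := hloc z₀
  have hke : 1 ≤ k * e := Nat.mul_pos hk he
  obtain ⟨G, Q, hG, hG0, hGrel, hQ, hrel⟩ := lift_point T₀ hT₀ O hO v hv e k he hk g hg hg0 hve z₀ s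
    hs hso (fun i : Fin 0 => i.elim0) (fun i => i.elim0) (fun i : Fin 0 => i.elim0)
    (fun i => i.elim0) (fun _ i => i.elim0) (fun i => i.elim0) (fun i => i.elim0)
    (fun p hp => ind_germ hs hke hso (fun _ i => i.elim0) p hp)
    (fun l : Fin (N + 1) => algebraMap (FunField P) (KW (FunField P) 0) (x l / x 0))
  have hm := hmatch G hG hG0 hGrel
  -- the relations in `K`
  have h1 : Rel z₀ (Sum.elim g fun l => x l / x 0) fun z => Sum.elim (G z) (Q z) := by
    have h2 := rel_map (κ := Fin (m' + 1) ⊕ Fin (N + 1))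
      (Sum.elim (fun j => Sum.inl (Sum.inl j)) fun l => Sum.inr l) hrel
    intro p hp
    have h3 := h2 p ?_
    · filter_upwards [h3] with z hz
      have e2 : (Sum.elim (G z) (Q z)) = fun k => (Sum.elim (Sum.elim (G z) fun i : Fin 0 => i.elim0)
          (Q z)) (Sum.elim (fun j => Sum.inl (Sum.inl j)) (fun l => Sum.inr l) k) := by
        funext k
        rcases k with k | k <;> rfl
      rw [e2]
      exact hz
    · have e1 : (fun k => (Sum.elim (Sum.elim (fun j => algebraMap (FunField P)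
          (KW (FunField P) 0) (g j)) (fun i => wv i ^ (i.elim0 : ℕ) /
            algebraMap (FunField P) (KW (FunField P) 0) i.elim0))
          (fun l => algebraMap (FunField P) (KW (FunField P) 0) (x l / x 0)))
          (Sum.elim (fun j => Sum.inl (Sum.inl j)) (fun l => Sum.inr l) k)) =
          fun k => algebraMap (FunField P) (KW (FunField P) 0)
            ((Sum.elim g fun l => x l / x 0) k) := by
        funext k
        rcases k with k | k <;> rfl
      rw [e1]
      have h6 := MvPolynomial.aeval_algebraMap_apply (KW (FunField P) 0)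
        (Sum.elim g fun l => x l / x 0) p
      rw [hp, map_zero] at h6
      exact h6
  -- add `t`
  have h4 := rel_frac h1 t U
    (fun a => MvPolynomial.rename Sum.inl (A' a)) (fun a => MvPolynomial.rename Sum.inl (B' a))
    (fun a => by
      rw [MvPolynomial.aeval_rename]
      exact (hB' a).1)
    (fun a => by
      rw [MvPolynomial.aeval_rename, MvPolynomial.aeval_rename]
      exact (hB' a).2)
    (fun a => by
      filter_upwards [hm a] with z hz
      rw [MvPolynomial.aeval_rename, MvPolynomial.aeval_rename]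
      exact hz)
  have h5 := rel_map (κ := Fin n₀ ⊕ Fin (N + 1))
    (Sum.elim (fun a => Sum.inr a) fun l => Sum.inl (Sum.inr l)) h4
  refine fibre_of_rel t x h.ne_zero z₀ _ Q hQ ?_
  have e1 : (Sum.elim t fun l => x l / x 0 : Fin n₀ ⊕ Fin (N + 1) → FunField P) =
      fun k => (Sum.elim (Sum.elim g fun l => x l / x 0) t)
        (Sum.elim (fun a => Sum.inr a) (fun l => Sum.inl (Sum.inr l)) k) := by
    funext k
    rcases k with k | k <;> rfl
  have e2 : (fun z => Sum.elim (U z) (Q z)) = fun z k => (Sum.elim (Sum.elim (G z) (Q z)) (U z))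
        (Sum.elim (fun a => Sum.inr a) (fun l => Sum.inl (Sum.inr l)) k) := by
    funext z k
    rcases k with k | k <;> rfl
  rw [e1, e2]
  exact h5

/-- Abelian pencils over the line or an elliptic curve: if all pencils have nonpositive orbifold degree then
`X` has a Zariski dense entire curve. -/
theorem main_ab {m N : ℕ} (P : Ideal (MvPolynomial (Fin (m + 1)) ℂ)) [P.IsPrime]
    (hP : IsVariety P) (t : Fin 2 → FunField P) (ht : IsBase t) (x : Fin (N + 1) → FunField P)
    (h : IsAbelianFibration t x) (hbd : PencilBound (FunField P)) : BrodySpecial P := by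
  obtain ⟨T₀, hT₀⟩ := funField_fg P
  have ht2 : t = ![t 0, t 1] := by
    funext i
    fin_cases i <;> rfl
  obtain ⟨h0, h1 | ⟨a, b, c, hd, hc⟩⟩ := ht
  · obtain ⟨u, ν, hu, hν, hloc⟩ := local_line T₀ hT₀ (t 0) h0 hbd (fun i : Fin 0 => i.elim0)
      (fun i => i.elim0)
    rw [← h1, ← ht2] at hu hloc
    exact brody_of_local₀ P hP t _ hu ν hloc x h
  · obtain ⟨U, ν, hu, hν, hloc⟩ := local_cubic T₀ hT₀ hbd a b c hd (t 0) (t 1) h0 hc
      (fun i : Fin 0 => i.elim0) (fun i => i.elim0)
    rw [← ht2] at hu hloc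
    exact brody_of_local₀ P hP t U hu ν hloc x h

end Pool.Agent.AbPencil
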