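import Pool.Agent.Lib_MP_1209e6_sk.G
import Pool.Agent.Lib_MP_1209e6_sk.L1
import Pool.Agent.Lib_MP_1209e6_sk.C4
import Pool.Agent.Lib_MP_1209e6_sp.P2

/-! Assembly. -/

set_option autoImplicit false

open Filter Topology

namespace Pool.Agent.AbPencil

open Pool.Agent.Campana Pool.Agent.CampanaFlow Pool.Agent.AbFib

/-- Special pencils of abelian type have a Zariski dense entire curve. -/
theorem main_tw {m r N : ℕ} (P : Ideal (MvPolynomial (Fin (m + 1)) ℂ)) [P.IsPrime]
    (hP : IsVariety P) (t : Fin 2 → FunField P) (ht : IsBase t)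
    (δ : Fin r → FunField P) (hδ : ∀ i, δ i ≠ 0) (n : Fin r → ℕ) (hn : ∀ i, 1 ≤ n i)
    (x : Fin (N + 1) → KW (FunField P) r) (h : IsAbelianFibration (twist t δ n) x)
    (hs : SpecialField (FunField P)) : BrodySpecial P := by
  obtain ⟨T₀, hT₀⟩ := funField_fg P
  have ht2 : t = ![t 0, t 1] := by
    funext i
    fin_cases i <;> rfl
  have hb : PencilBound (FunField P) := fun T hT μ h1 h2 => special_bound T hT hs μ h1 h2
  obtain ⟨h0, h1 | ⟨a, b, c, hd, hc⟩⟩ := ht
  · obtain ⟨u, ν, hu, hν, hloc⟩ := local_line T₀ hT₀ (t 0) h0 hb δ hδ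
    rw [← h1, ← ht2] at hu hloc
    exact brody_of_local P hP t _ hu δ hδ n hn ν hν hloc x h
  · obtain ⟨U, ν, hu, hν, hloc⟩ := local_cubic T₀ hT₀ hb a b c hd (t 0) (t 1) h0 hc δ hδ
    rw [← ht2] at hu hloc
    exact brody_of_local P hP t U hu δ hδ n hn ν hν hloc x h

/-- Special pencils of abelian type have a Zariski dense entire curve. -/
theorem main_type {m : ℕ} (P : Ideal (MvPolynomial (Fin (m + 1)) ℂ)) [P.IsPrime]
    (hP : IsVariety P) (t : Fin 2 → FunField P) (ht : IsBase t) (h : IsAbelianType t)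
    (hs : SpecialField (FunField P)) : BrodySpecial P := by
  obtain ⟨r, N, δ, n, x, hδ, hn, hx⟩ := h
  exact main_tw P hP t ht δ hδ n hn x hx hs

end Pool.Agent.AbPencil
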