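import Pool.Agent.Lib_MP_1209e6_sp.A1
import Pool.Agent.Lib_MP_1209e6_sk.Defs

/-! PIECE Z1: arcs with free parameters. -/

set_option autoImplicit false

open Filter Topology

namespace Pool.Agent.AbPencil

open Pool.Agent.Campana Polynomial

/-- A polynomial in the variables `some i` with coefficients in polynomials, as a polynomial in `Option`
variables. -/
private noncomputable def z1_toOpt {d : ℕ} (q : Polynomial (MvPolynomial (Fin (d + 1)) ℂ)) :
    MvPolynomial (Option (Fin (d + 1))) ℂ :=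
  q.eval₂ (MvPolynomial.rename (R := ℂ) (some : Fin (d + 1) → Option (Fin (d + 1)))).toRingHom
    (MvPolynomial.X none)

private theorem z1_aeval_toOpt {d : ℕ} {B : Type} [CommRing B] [Algebra ℂ B]
    (G : Option (Fin (d + 1)) → B) (q : Polynomial (MvPolynomial (Fin (d + 1)) ℂ)) :
    MvPolynomial.aeval G (z1_toOpt q) =
      q.eval₂ (MvPolynomial.aeval fun i => G (some i)).toRingHom (G none) := by
  unfold z1_toOpt
  have h1 := Polynomial.hom_eval₂ q
    (MvPolynomial.rename (R := ℂ) (some : Fin (d + 1) → Option (Fin (d + 1)))).toRingHom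
    (MvPolynomial.aeval (R := ℂ) G).toRingHom (MvPolynomial.X none)
  have h2 : (MvPolynomial.aeval (R := ℂ) G).toRingHom.comp
      (MvPolynomial.rename (R := ℂ) (some : Fin (d + 1) → Option (Fin (d + 1)))).toRingHom =
      (MvPolynomial.aeval (R := ℂ) fun i => G (some i)).toRingHom := by
    ext x
    · simp
    · simp
  have h3 : (MvPolynomial.aeval (R := ℂ) G).toRingHom (MvPolynomial.X none) = G none := by
    simp
  rw [h2, h3] at h1
  exact h1

/-- A polynomial in two variables evaluated at holomorphic germs is holomorphic. -/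
private theorem z1_analyticAt_eval_map (P : Polynomial ℂ[X]) (δ : ℂ → ℂ) (hδ : AnalyticAt ℂ δ 0) :
    AnalyticAt ℂ (fun z => (P.map (evalRingHom z)).eval (δ z)) 0 := by
  have hpol : ∀ a : ℂ[X], AnalyticAt ℂ (fun z => a.eval z) 0 := by
    intro a
    exact a.differentiable.analyticAt 0
  induction P using Polynomial.induction_on' with
  | add p q hp hq =>
    have : (fun z => ((p + q).map (evalRingHom z)).eval (δ z)) =
        fun z => (p.map (evalRingHom z)).eval (δ z) + (q.map (evalRingHom z)).eval (δ z) := by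
      funext z
      rw [Polynomial.map_add, eval_add]
    rw [this]
    exact hp.add hq
  | monomial n a =>
    have : (fun z => ((monomial n a).map (evalRingHom z)).eval (δ z)) =
        fun z => a.eval z * δ z ^ n := by
      funext z
      rw [map_monomial, eval_monomial]
      rfl
    rw [this]
    exact (hpol a).mul (hδ.pow n)

/-- The value at `h₀ + z ^ N * w` of a polynomial over `ℂ[X]`. -/
private theorem z1_expand (Q : Polynomial ℂ[X]) (h₀ : ℂ[X]) (N : ℕ) (w : ℂ → ℂ)
    (hw : AnalyticAt ℂ w 0) :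
    ∃ R : ℂ → ℂ, AnalyticAt ℂ R 0 ∧ ∀ z, (Q.map (evalRingHom z)).eval (h₀.eval z + z ^ N * w z) =
      (Q.eval h₀).eval z + z ^ N * R z := by
  have hpow : AnalyticAt ℂ (fun z : ℂ => z ^ N * w z) 0 := (analyticAt_id.pow _).mul hw
  set T : Polynomial ℂ[X] := taylor h₀ Q with hT
  have hT1 : T = divX T * X + C (Q.eval h₀) := by
    conv_lhs => rw [← divX_mul_X_add T]
    rw [hT, taylor_coeff_zero]
  refine ⟨fun z => w z * ((divX T).map (evalRingHom z)).eval (z ^ N * w z),
    hw.mul (z1_analyticAt_eval_map _ _ hpow), fun z => ?_⟩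
  have h2 : (Q.map (evalRingHom z)).eval (h₀.eval z + z ^ N * w z) =
      (T.map (evalRingHom z)).eval (z ^ N * w z) := by
    rw [hT, map_taylor, taylor_eval]
    congr 1
    simp [add_comm]
  have h5 : (T.map (evalRingHom z)).eval (z ^ N * w z) =
      ((divX T).map (evalRingHom z)).eval (z ^ N * w z) * (z ^ N * w z) +
        (Q.eval h₀).eval z := by
    conv_lhs => rw [hT1]
    rw [Polynomial.map_add, Polynomial.map_mul, map_X, map_C, eval_add, eval_mul, eval_X, eval_C,
      coe_evalRingHom]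
  rw [h2, h5]
  ring

/-- Divisibility of the difference of the values of a polynomial at two points. -/
private theorem z1_dvd_sub {σ : Type} (N : ℕ) (H H' : σ → ℂ[X]) (h : ∀ i, X ^ N ∣ H' i - H i)
    (q : MvPolynomial σ ℂ) : X ^ N ∣ MvPolynomial.aeval H' q - MvPolynomial.aeval H q := by
  induction q using MvPolynomial.induction_on with
  | C a => simp
  | add p q hp hq =>
    have : MvPolynomial.aeval H' (p + q) - MvPolynomial.aeval H (p + q) =
        (MvPolynomial.aeval H' p - MvPolynomial.aeval H p) +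
          (MvPolynomial.aeval H' q - MvPolynomial.aeval H q) := by
      rw [map_add, map_add]
      ring
    rw [this]
    exact dvd_add hp hq
  | mul_X p i hp =>
    have : MvPolynomial.aeval H' (p * MvPolynomial.X i) - MvPolynomial.aeval H (p * MvPolynomial.X i) =
        (MvPolynomial.aeval H' p - MvPolynomial.aeval H p) * H' i +
          MvPolynomial.aeval H p * (H' i - H i) := by
      rw [map_mul, map_mul, MvPolynomial.aeval_X, MvPolynomial.aeval_X]
      ring
    rw [this]
    exact dvd_add (Dvd.dvd.mul_right hp _) (Dvd.dvd.mul_left (h i) _)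

/-- Variant of `exists_arc₀` (`Lib_MP_1209e6_sp/A1.lean`): exact orders for finitely many polynomials in `(y, η)`,
and the polynomials `Y i` may be changed by arbitrary constant multiples of `z^(L+1)`. Proof. As there, `c₁ = v (f'(η))`,
`L ≥ 2 c₁ + 1 + L₀ + ∑_{q ∈ 𝓠} v(q(y, η))`, `exists_spec` for `g = (y, η)` and `Q = {f'} ∪ 𝓠` (as polynomials in
`Option` variables): `H`; `Y i = H (some i)`. Given `c` put `Y' i = Y i + X^(L+1) * C (c i)`. For each polynomial `Q` in the
`Option` variables `aeval (Y', H none) Q - aeval H Q` is divisible by `X^(L+1)`, so `X^s ∣ aeval (Y', H none) Q` iff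
`X^s ∣ aeval H Q` for `s ≤ L + 1`. Apply `hensel` to `f.map (aeval Y')`, `H none`, `c₁`, `L`:
`e z = (H none)(z) + z^(L+1-c₁) w z`. For each `q`: `q(Y', e) = q(Y', H none) + (e - H none) * (…)`; since
`L + 1 - c₁ > L₀` and `L + 1 - c₁ > v (q(y, η))` for `q ∈ 𝓠` both claims follow. -/
theorem exists_arc₁ {K : Type} [Field K] [Algebra ℂ K] (O : ValuationSubring K) (hO : IsPlace O)
    (v : K → ℤ) (hv : IsOrd O v) {d : ℕ} (y : Fin (d + 1) → K) (η : K)
    (f : Polynomial (MvPolynomial (Fin (d + 1)) ℂ)) (h : Pres y η f) (hy : ∀ i, y i ∈ O) (hη : η ∈ O)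
    (𝓠 : Finset (Polynomial (MvPolynomial (Fin (d + 1)) ℂ)))
    (h𝓠 : ∀ q ∈ 𝓠, q.eval₂ (MvPolynomial.aeval y).toRingHom η ≠ 0) (L₀ : ℕ) :
    ∃ (Y : Fin (d + 1) → ℂ[X]) (L : ℕ), L₀ ≤ L ∧ ∀ c : Fin (d + 1) → ℂ, ∃ e : ℂ → ℂ, AnalyticAt ℂ e 0 ∧
      (∀ᶠ z in 𝓝 (0 : ℂ),
        f.eval₂ (MvPolynomial.aeval fun i => (Y i).eval z + z ^ (L + 1) * c i).toRingHom (e z) = 0) ∧
      (∀ q ∈ 𝓠, ∃ w : ℂ → ℂ, AnalyticAt ℂ w 0 ∧ w 0 ≠ 0 ∧ ∀ᶠ z in 𝓝 (0 : ℂ),
        q.eval₂ (MvPolynomial.aeval fun i => (Y i).eval z + z ^ (L + 1) * c i).toRingHom (e z) =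
          z ^ (v (q.eval₂ (MvPolynomial.aeval y).toRingHom η)).toNat * w z) ∧
      ∀ (q : Polynomial (MvPolynomial (Fin (d + 1)) ℂ)) (s : ℕ), s ≤ L₀ →
        (q.eval₂ (MvPolynomial.aeval y).toRingHom η = 0 ∨
          (s : ℤ) ≤ v (q.eval₂ (MvPolynomial.aeval y).toRingHom η)) →
        ∃ w : ℂ → ℂ, AnalyticAt ℂ w 0 ∧ ∀ᶠ z in 𝓝 (0 : ℂ),
          q.eval₂ (MvPolynomial.aeval fun i => (Y i).eval z + z ^ (L + 1) * c i).toRingHom (e z) =
            z ^ s * w z := by
  classical
  -- the point `(y, η)`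
  set g : Option (Fin (d + 1)) → K := fun o => o.elim η y with hg
  have hgO : ∀ o, g o ∈ O := by
    intro o
    cases o with
    | none => exact hη
    | some i => exact hy i
  have hge : ∀ q : Polynomial (MvPolynomial (Fin (d + 1)) ℂ), MvPolynomial.aeval g (z1_toOpt q) =
      q.eval₂ (MvPolynomial.aeval y).toRingHom η := fun q => z1_aeval_toOpt g q
  -- values of polynomials lie in `O`
  have hval : ∀ q : MvPolynomial (Option (Fin (d + 1))) ℂ, MvPolynomial.aeval g q ∈ O := by
    intro q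
    induction q using MvPolynomial.induction_on with
    | C a =>
      rw [MvPolynomial.aeval_C]
      exact hO.1 a
    | add p q hp hq =>
      rw [map_add]
      exact O.add_mem _ _ hp hq
    | mul_X p i hp =>
      rw [map_mul, MvPolynomial.aeval_X]
      exact O.mul_mem _ _ hp (hgO i)
  -- the order of the derivative
  have hD0 : MvPolynomial.aeval g (z1_toOpt (derivative f)) ≠ 0 := by
    rw [hge]
    exact h.sep
  obtain ⟨c₁, hc₁⟩ := Int.eq_ofNat_of_zero_le ((hv.mem_iff hD0).1 (hval _))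
  -- the orders of the elements of `𝓠`
  set B : ℕ := ∑ q ∈ 𝓠, (v (q.eval₂ (MvPolynomial.aeval y).toRingHom η)).toNat with hB
  have hBle : ∀ q ∈ 𝓠, (v (q.eval₂ (MvPolynomial.aeval y).toRingHom η)).toNat ≤ B := by
    intro q hq
    exact Finset.single_le_sum
      (f := fun q => (v (q.eval₂ (MvPolynomial.aeval y).toRingHom η)).toNat)
      (fun _ _ => Nat.zero_le _) hq
  have hQnn : ∀ q ∈ 𝓠, ((v (q.eval₂ (MvPolynomial.aeval y).toRingHom η)).toNat : ℤ) =
      v (q.eval₂ (MvPolynomial.aeval y).toRingHom η) := by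
    intro q hq
    refine Int.toNat_of_nonneg ?_
    have h1 := (hv.mem_iff (h𝓠 q hq)).1
    refine h1 ?_
    rw [← hge]
    exact hval _
  set L : ℕ := 2 * c₁ + 1 + L₀ + B with hL
  obtain ⟨H, hH1, hH2⟩ := exists_spec O hO v hv L g hgO
    (insert (z1_toOpt (derivative f)) (𝓠.image z1_toOpt)) (by
      intro q hq
      rw [Finset.mem_insert, Finset.mem_image] at hq
      rcases hq with rfl | ⟨E, hE, rfl⟩
      · refine ⟨hD0, ?_⟩
        rw [hc₁]
        omega
      · refine ⟨?_, ?_⟩
        · rw [hge]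
          exact h𝓠 E hE
        · rw [hge, ← hQnn E hE]
          have h1 := hBle E hE
          omega)
  refine ⟨fun i => H (some i), L, by omega, fun c => ?_⟩
  set H' : Option (Fin (d + 1)) → ℂ[X] :=
    fun o => o.elim (H none) (fun i => H (some i) + X ^ (L + 1) * C (c i)) with hH'
  set Y : Fin (d + 1) → ℂ[X] := fun i => H' (some i) with hY
  set h₀ : ℂ[X] := H none with hh₀
  have hdvd : ∀ q : MvPolynomial (Option (Fin (d + 1))) ℂ,
      X ^ (L + 1) ∣ MvPolynomial.aeval H' q - MvPolynomial.aeval H q := by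
    refine z1_dvd_sub (L + 1) H H' ?_
    intro o
    cases o with
    | none => simp [hH', hh₀]
    | some i =>
      refine ⟨C (c i), ?_⟩
      simp only [hH', Option.elim_some]
      ring
  have hiff : ∀ (q : MvPolynomial (Option (Fin (d + 1))) ℂ) (s : ℕ), s ≤ L + 1 →
      (X ^ s ∣ MvPolynomial.aeval H' q ↔ X ^ s ∣ MvPolynomial.aeval H q) := by
    intro q s hs
    have h1 : X ^ s ∣ MvPolynomial.aeval H' q - MvPolynomial.aeval H q :=
      (pow_dvd_pow X hs).trans (hdvd q)
    constructor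
    · intro h2
      have h3 := dvd_sub h2 h1
      rwa [sub_sub_cancel] at h3
    · intro h2
      have h3 := dvd_add h1 h2
      rwa [sub_add_cancel] at h3
  -- the polynomial `f` over `ℂ[X]`
  have hmap : ∀ q : Polynomial (MvPolynomial (Fin (d + 1)) ℂ),
      (q.map (MvPolynomial.aeval (R := ℂ) Y).toRingHom).eval h₀ = MvPolynomial.aeval H' (z1_toOpt q) := by
    intro q
    rw [eval_map, z1_aeval_toOpt]
    rfl
  have hF1 : X ^ (L + 1) ∣ (f.map (MvPolynomial.aeval (R := ℂ) Y).toRingHom).eval h₀ := by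
    rw [hmap, hiff _ _ le_rfl]
    refine hH1 _ _ le_rfl (Or.inl ?_)
    rw [hge]
    exact h.root
  have hF2 : ¬ X ^ (c₁ + 1) ∣
      (derivative (f.map (MvPolynomial.aeval (R := ℂ) Y).toRingHom)).eval h₀ := by
    rw [derivative_map, hmap, hiff _ _ (by omega), hH2 _ (Finset.mem_insert_self _ _), hc₁]
    omega
  obtain ⟨w, hw, hwz⟩ := hensel (f.map (MvPolynomial.aeval (R := ℂ) Y).toRingHom) h₀ c₁ L (by omega)
    hF1 hF2
  -- specialisation at `z`
  have hspec : ∀ (q : Polynomial (MvPolynomial (Fin (d + 1)) ℂ)) (z t : ℂ),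
      q.eval₂ (MvPolynomial.aeval fun i => (H (some i)).eval z + z ^ (L + 1) * c i).toRingHom t =
        ((q.map (MvPolynomial.aeval (R := ℂ) Y).toRingHom).map (evalRingHom z)).eval t := by
    intro q z t
    rw [Polynomial.map_map, eval_map]
    congr 1
    ext x
    · simp
    · simp only [hY, hH', Option.elim_some]
      simp
      ring
  have hpow : AnalyticAt ℂ (fun z : ℂ => z ^ (L + 1 - c₁) * w z) 0 :=
    (analyticAt_id.pow _).mul hw
  have hh0an : AnalyticAt ℂ (fun z : ℂ => h₀.eval z) 0 := h₀.differentiable.analyticAt 0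
  refine ⟨fun z => h₀.eval z + z ^ (L + 1 - c₁) * w z, hh0an.add hpow, ?_, ?_, ?_⟩
  · filter_upwards [hwz] with z hz
    rw [hspec]
    exact hz
  · intro q hq
    obtain ⟨R, hR, hRz⟩ := z1_expand (q.map (MvPolynomial.aeval (R := ℂ) Y).toRingHom) h₀
      (L + 1 - c₁) w hw
    set m : ℕ := (v (q.eval₂ (MvPolynomial.aeval y).toRingHom η)).toNat with hm
    have hmB : m ≤ B := hBle q hq
    have hqm : z1_toOpt q ∈ insert (z1_toOpt (derivative f)) (𝓠.image z1_toOpt) :=
      Finset.mem_insert_of_mem (Finset.mem_image_of_mem _ hq)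
    have h1 : X ^ m ∣ (q.map (MvPolynomial.aeval (R := ℂ) Y).toRingHom).eval h₀ := by
      rw [hmap, hiff _ _ (by omega), hH2 _ hqm, hge, ← hQnn q hq]
    have h2 : ¬ X ^ (m + 1) ∣ (q.map (MvPolynomial.aeval (R := ℂ) Y).toRingHom).eval h₀ := by
      rw [hmap, hiff _ _ (by omega), hH2 _ hqm, hge, ← hQnn q hq]
      omega
    obtain ⟨A, hA⟩ := h1
    have hA0 : A.eval 0 ≠ 0 := by
      intro h0
      apply h2
      have h3 : X ∣ A := by
        rw [X_dvd_iff, coeff_zero_eq_eval_zero]
        exact h0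
      rw [hA, pow_succ]
      exact mul_dvd_mul_left _ h3
    have hle : L + 1 - c₁ = m + (L - c₁ - m) + 1 := by omega
    refine ⟨fun z => A.eval z + z ^ (L - c₁ - m + 1) * R z,
      (A.differentiable.analyticAt 0).add ((analyticAt_id.pow _).mul hR), ?_, ?_⟩
    · simpa using hA0
    · refine Filter.Eventually.of_forall fun z => ?_
      rw [hspec, hRz, hA, hle, eval_mul, eval_pow, eval_X]
      ring
  · intro q s hs hq
    obtain ⟨R, hR, hRz⟩ := z1_expand (q.map (MvPolynomial.aeval (R := ℂ) Y).toRingHom) h₀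
      (L + 1 - c₁) w hw
    have h1 : X ^ s ∣ (q.map (MvPolynomial.aeval (R := ℂ) Y).toRingHom).eval h₀ := by
      rw [hmap, hiff _ _ (by omega)]
      refine hH1 _ _ (by omega) ?_
      rw [hge]
      exact hq
    obtain ⟨A, hA⟩ := h1
    have hle : L + 1 - c₁ = s + (L + 1 - c₁ - s) := by omega
    refine ⟨fun z => A.eval z + z ^ (L + 1 - c₁ - s) * R z,
      (A.differentiable.analyticAt 0).add ((analyticAt_id.pow _).mul hR), ?_⟩
    refine Filter.Eventually.of_forall fun z => ?_
    rw [hspec, hRz, hA, hle, eval_mul, eval_pow, eval_X]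
    simp only [Nat.add_sub_cancel_left]
    ring

end Pool.Agent.AbPencil
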