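import Mathlib

/-! PIECE Z2: reparametrisation of germs. -/

set_option autoImplicit false

open Filter Topology

namespace Pool.Agent.AbPencil

/-- a holomorphic function of order `k e` is the `e`-th power of a holomorphic function of order `k` -/
private theorem z2_root {f : ℂ → ℂ} {z₀ : ℂ} {e k : ℕ} (he : 1 ≤ e) (hf : AnalyticAt ℂ f z₀)
    (ho : analyticOrderAt f z₀ = (k * e : ℕ)) :
    ∃ ρ : ℂ → ℂ, AnalyticAt ℂ ρ z₀ ∧ ρ z₀ ≠ 0 ∧
      ∀ᶠ z in 𝓝 z₀, f z = ((z - z₀) ^ k * ρ z) ^ e := by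
  obtain ⟨g, hg, hg0, hfg⟩ := (hf.analyticOrderAt_eq_natCast).1 ho
  obtain ⟨c, hc⟩ := IsAlgClosed.exists_pow_nat_eq (g z₀) (n := e) (by omega)
  have he' : (e : ℂ) ≠ 0 := by
    rw [Nat.cast_ne_zero]
    omega
  have hc0 : c ≠ 0 := by
    rintro rfl
    apply hg0
    rw [← hc, zero_pow (by omega)]
  have hq : AnalyticAt ℂ (fun z => g z / g z₀) z₀ := hg.div analyticAt_const hg0
  have hlog : AnalyticAt ℂ (fun z => Complex.log (g z / g z₀)) z₀ := by
    apply AnalyticAt.clog hq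
    rw [div_self hg0]
    exact Complex.one_mem_slitPlane
  refine ⟨fun z => c * Complex.exp (Complex.log (g z / g z₀) / e), ?_, ?_, ?_⟩
  · exact analyticAt_const.mul ((hlog.div analyticAt_const he').cexp)
  · exact mul_ne_zero hc0 (Complex.exp_ne_zero _)
  · filter_upwards [hfg, hg.continuousAt.eventually_ne hg0] with z hz hz0
    rw [hz, smul_eq_mul, mul_pow, mul_pow, ← pow_mul, ← Complex.exp_nat_mul, hc,
      mul_div_cancel₀ _ he', Complex.exp_log (div_ne_zero hz0 hg0), mul_div_cancel₀ _ hg0]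

/-- Proof. In `Lib_MP_1209e6_sp/C.lean` (`c_root` and the proof of `lifts_of_arcs`): `r = g^e`, `s = h^e` near the points
with `g` of order 1 at `0` and `h` of order `k` at `z₀`, `φ = g⁻¹ ∘ h` (local inverse). `g (φ z) = h z` and `g` of order 1 give
the order `k` of `φ`. -/
theorem exists_phi {r s : ℂ → ℂ} {z₀ : ℂ} {e k : ℕ} (he : 1 ≤ e) (hk : 1 ≤ k)
    (hr : AnalyticAt ℂ r 0) (hro : analyticOrderAt r 0 = e) (hs : AnalyticAt ℂ s z₀)
    (hso : analyticOrderAt s z₀ = (k * e : ℕ)) :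
    ∃ φ : ℂ → ℂ, AnalyticAt ℂ φ z₀ ∧ φ z₀ = 0 ∧ analyticOrderAt φ z₀ = k ∧
      ∀ᶠ z in 𝓝 z₀, r (φ z) = s z := by
  obtain ⟨σ, hσ, hσ0, hsσ⟩ := z2_root he hs hso
  obtain ⟨ρ, hρ, hρ0, hrρ⟩ := z2_root (k := 1) he hr (by rw [one_mul]; exact hro)
  set g : ℂ → ℂ := fun z => (z - 0) ^ 1 * ρ z with hgdef
  set h : ℂ → ℂ := fun z => (z - z₀) ^ k * σ z with hhdef
  have hg : AnalyticAt ℂ g 0 := ((analyticAt_id.sub analyticAt_const).pow 1).mul hρ
  have hh : AnalyticAt ℂ h z₀ := ((analyticAt_id.sub analyticAt_const).pow k).mul hσ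
  have hg00 : g 0 = 0 := by simp [hgdef]
  have hh0 : h z₀ = 0 := by
    simp only [hhdef, sub_self]
    rw [zero_pow (by omega), zero_mul]
  have hdg : deriv g 0 ≠ 0 := by
    have h2 : HasDerivAt g (1 * ρ 0 + (0 : ℂ) * deriv ρ 0) 0 := by
      have h3 := (hasDerivAt_id (0 : ℂ)).mul hρ.differentiableAt.hasDerivAt
      refine h3.congr_of_eventuallyEq (Eventually.of_forall fun z => ?_)
      simp [hgdef]
    rw [h2.deriv, one_mul, zero_mul, add_zero]
    exact hρ0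
  set γ : ℂ → ℂ := hg.hasStrictDerivAt.localInverse _ _ _ hdg with hγdef
  have hγ : AnalyticAt ℂ γ (g 0) := hg.analyticAt_localInverse hdg
  have hγ0 : γ (g 0) = 0 := (HasStrictDerivAt.eventually_left_inverse ..).self_of_nhds
  have hgγ : ∀ᶠ y in 𝓝 (g 0), g (γ y) = y := HasStrictDerivAt.eventually_right_inverse ..
  rw [hg00] at hγ hγ0 hgγ
  have hφ : AnalyticAt ℂ (fun z => γ (h z)) z₀ := by
    have h3 : AnalyticAt ℂ γ (h z₀) := by rw [hh0]; exact hγ
    exact h3.comp hh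
  have hφ0 : γ (h z₀) = 0 := by rw [hh0, hγ0]
  have hgφ : ∀ᶠ z in 𝓝 z₀, g (γ (h z)) = h z := by
    have h3 : Tendsto h (𝓝 z₀) (𝓝 0) := by
      have := hh.continuousAt.tendsto
      rwa [hh0] at this
    exact h3.eventually hgγ
  have hφt : Tendsto (fun z => γ (h z)) (𝓝 z₀) (𝓝 0) := by
    have := hφ.continuousAt.tendsto
    rwa [hφ0] at this
  have hog : analyticOrderAt g ((fun z => γ (h z)) z₀) = ((1 : ℕ) : ℕ∞) := by
    rw [show (fun z => γ (h z)) z₀ = 0 from hφ0]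
    exact (hg.analyticOrderAt_eq_natCast).2 ⟨ρ, hρ, hρ0, Eventually.of_forall fun z => rfl⟩
  have hoh : analyticOrderAt h z₀ = (k : ℕ∞) :=
    (hh.analyticOrderAt_eq_natCast).2 ⟨σ, hσ, hσ0, Eventually.of_forall fun z => rfl⟩
  have hg' : AnalyticAt ℂ g ((fun z => γ (h z)) z₀) := by
    rw [show (fun z => γ (h z)) z₀ = 0 from hφ0]
    exact hg
  have hcomp := AnalyticAt.analyticOrderAt_comp (f := g) (g := fun z => γ (h z)) (z₀ := z₀) hg' hφ
  have hcong : analyticOrderAt (g ∘ fun z => γ (h z)) z₀ = analyticOrderAt h z₀ :=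
    analyticOrderAt_congr hgφ
  refine ⟨fun z => γ (h z), hφ, hφ0, ?_, ?_⟩
  · rw [hcong, hoh, hog] at hcomp
    have h9 : (fun z => γ (h z)) = fun z => γ (h z) - (fun z => γ (h z)) z₀ := by
      funext z
      rw [show (fun z => γ (h z)) z₀ = 0 from hφ0, sub_zero]
    rw [h9]
    simpa using hcomp.symm
  · filter_upwards [hgφ, hφt.eventually hrρ, hsσ] with z hz3 hz4 hz5
    have h7 : r (γ (h z)) = (g (γ (h z))) ^ e := hz4
    have h8 : s z = (h z) ^ e := hz5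
    rw [h7, h8, hz3]

end Pool.Agent.AbPencil
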