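import Pool.Agent.Lib_MP_1209e6_sk.Z1
import Pool.Agent.Lib_MP_1209e6_sk.Z2

/-! PIECE Z3: germs from places, with free parameters. -/

set_option autoImplicit false

open Filter Topology

namespace Pool.Agent.AbPencil

open Pool.Agent.Campana

/-- substitution of fractions with denominator `S` in a polynomial, cleared -/
private theorem z3_subst {d m : ℕ} (S : MvPolynomial (Fin (d + 1)) ℂ)
    (Q : Fin m → Polynomial (MvPolynomial (Fin (d + 1)) ℂ))
    (p : MvPolynomial (Fin (d + 1) ⊕ Fin m) ℂ) :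
    ∃ (R : Polynomial (MvPolynomial (Fin (d + 1)) ℂ)) (k : ℕ),
      ∀ {A : Type} [CommRing A] [Algebra ℂ A] (ρ : Fin (d + 1) → A) (e : A) (w : Fin m → A),
        (∀ l, MvPolynomial.aeval ρ S * w l = (Q l).eval₂ (MvPolynomial.aeval ρ).toRingHom e) →
        R.eval₂ (MvPolynomial.aeval ρ).toRingHom e =
          MvPolynomial.aeval ρ S ^ k * MvPolynomial.aeval (Sum.elim ρ w) p := by
  induction p using MvPolynomial.induction_on with
  | C a =>
    refine ⟨Polynomial.C (MvPolynomial.C a), 0, ?_⟩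
    intro A _ _ ρ e w hw
    simp
  | add p q hp hq =>
    obtain ⟨R₁, k₁, h₁⟩ := hp
    obtain ⟨R₂, k₂, h₂⟩ := hq
    refine ⟨R₁ * Polynomial.C (S ^ k₂) + R₂ * Polynomial.C (S ^ k₁), k₁ + k₂, ?_⟩
    intro A _ _ ρ e w hw
    rw [Polynomial.eval₂_add, Polynomial.eval₂_mul, Polynomial.eval₂_mul, Polynomial.eval₂_C,
      Polynomial.eval₂_C, h₁ ρ e w hw, h₂ ρ e w hw]
    simp only [AlgHom.toRingHom_eq_coe, RingHom.coe_coe, map_pow, map_add]
    ring
  | mul_X p s hp =>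
    obtain ⟨R₁, k₁, h₁⟩ := hp
    rcases s with i | l
    · refine ⟨R₁ * Polynomial.C (MvPolynomial.X i), k₁, ?_⟩
      intro A _ _ ρ e w hw
      rw [Polynomial.eval₂_mul, Polynomial.eval₂_C, h₁ ρ e w hw]
      simp only [AlgHom.toRingHom_eq_coe, RingHom.coe_coe, map_mul, MvPolynomial.aeval_X,
        Sum.elim_inl]
      ring
    · refine ⟨R₁ * Q l, k₁ + 1, ?_⟩
      intro A _ _ ρ e w hw
      rw [Polynomial.eval₂_mul, h₁ ρ e w hw, ← hw l]
      simp only [map_mul, MvPolynomial.aeval_X, Sum.elim_inr]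
      ring

/-- polynomials in elements of a place lie in the place -/
private theorem z3_mem {K : Type} [Field K] [Algebra ℂ K] (O : ValuationSubring K) (hO : IsPlace O)
    {σ : Type} (y : σ → K) (hy : ∀ i, y i ∈ O) (p : MvPolynomial σ ℂ) :
    MvPolynomial.aeval y p ∈ O := by
  induction p using MvPolynomial.induction_on with
  | C a => simpa using hO.1 a
  | add p q hp hq => simpa using O.add_mem _ _ hp hq
  | mul_X p s hp => simpa using O.mul_mem _ _ hp (hy s)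

/-- the order of `z ^ n * w z` with `w 0 ≠ 0` -/
private theorem z3_order {a w : ℂ → ℂ} {n : ℕ} (ha : AnalyticAt ℂ a 0) (hw : AnalyticAt ℂ w 0)
    (hw0 : w 0 ≠ 0) (h : ∀ᶠ z in 𝓝 (0 : ℂ), a z = z ^ n * w z) : analyticOrderAt a 0 = (n : ℕ) := by
  rw [ha.analyticOrderAt_eq_natCast]
  refine ⟨w, hw, hw0, ?_⟩
  filter_upwards [h] with z hz
  rw [hz, sub_zero, smul_eq_mul]

/-- Variant of `exists_arc` (`Lib_MP_1209e6_sp/A2.lean`). Proof. As there: common denominator `S ≠ 0` and `Q j` with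
`S(y) g j = Q j (y, η)`; the ideal of relations `p` between `(y, g)` is generated by finitely many `p`, and for each
`p` there are `R = S^k p(y, Q/S)` (a polynomial in `(y, η)`), `R(y, η) = 0`, `E_p ≠ 0` with `E_p R = f * …`. `exists_arc₁` with
`𝓠` = the `C E_p`, `C S`, `C (X 0)` and the `Q j` with `g j ≠ 0`, `L₀ ≥ v (S(y))`: `Y`, `L`. The germ `ρ = (Y 0).eval` has order
exactly `e` at `0` (`C (X 0) ∈ 𝓠`, `c = 0`); `exists_phi` for `ρ` and `s`: `φ`. Put `H z i = (Y i).eval (φ z)`,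
`ψ z = (φ z)^(L+1)`. Given `c` with `c 0 = 0`, `exists_arc₁` gives the germ `ε` at `0`; the germs `Q j/S` at `(Y + z^(L+1) c, ε)` are
holomorphic at `0` (orders) of order `v (g j)` exactly if `g j ≠ 0`; compose with `φ` (order `k`). -/
theorem exists_germ₀ {K : Type} [Field K] [Algebra ℂ K] (O : ValuationSubring K) (hO : IsPlace O)
    (v : K → ℤ) (hv : IsOrd O v) {d : ℕ} (y : Fin (d + 1) → K) (η : K)
    (f : Polynomial (MvPolynomial (Fin (d + 1)) ℂ)) (h : Pres y η f) (hy : ∀ i, y i ∈ O) (hη : η ∈ O)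
    (e k : ℕ) (he : 1 ≤ e) (hk : 1 ≤ k) (hve : v (y 0) = e) {m : ℕ} (g : Fin m → K)
    (hg : ∀ j, g j ∈ O) (z₀ : ℂ) (s : ℂ → ℂ) (hs : AnalyticAt ℂ s z₀)
    (hso : analyticOrderAt s z₀ = (k * e : ℕ)) :
    ∃ (H : ℂ → Fin (d + 1) → ℂ) (ψ : ℂ → ℂ), AnalyticAt ℂ H z₀ ∧ (∀ᶠ z in 𝓝 z₀, H z 0 = s z) ∧
      AnalyticAt ℂ ψ z₀ ∧ (∀ᶠ z in 𝓝[≠] z₀, ψ z ≠ 0) ∧
      ∀ c : Fin (d + 1) → ℂ, c 0 = 0 → ∃ G : ℂ → Fin m → ℂ, AnalyticAt ℂ G z₀ ∧
        Rel z₀ (Sum.elim y g) (fun z => Sum.elim (fun i => H z i + ψ z * c i) (G z)) ∧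
        ∀ j, g j ≠ 0 → analyticOrderAt (fun z => G z j) z₀ = (k * (v (g j)).toNat : ℕ) := by
  classical
  -- common denominator
  choose S' Q' hS' hQ' using fun l => h.gen (g l)
  set S : MvPolynomial (Fin (d + 1)) ℂ := ∏ l, S' l with hS
  set Q : Fin m → Polynomial (MvPolynomial (Fin (d + 1)) ℂ) := fun l =>
    Polynomial.C (∏ n ∈ Finset.univ.erase l, S' n) * Q' l with hQ
  have hS0 : S ≠ 0 := Finset.prod_ne_zero_iff.2 fun l _ => hS' l
  have hQS : ∀ l, MvPolynomial.aeval y S * g l = (Q l).eval₂ (MvPolynomial.aeval y).toRingHom η := by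
    intro l
    rw [hQ]
    simp only [Polynomial.eval₂_mul, Polynomial.eval₂_C]
    rw [← hQ' l, hS, ← Finset.prod_erase_mul _ _ (Finset.mem_univ l), map_mul]
    simp only [AlgHom.toRingHom_eq_coe, RingHom.coe_coe]
    ring
  have hne : ∀ E : MvPolynomial (Fin (d + 1)) ℂ, E ≠ 0 → MvPolynomial.aeval y E ≠ 0 := by
    intro E hE h0
    exact hE (h.ind (h0.trans (map_zero _).symm))
  have hCe : ∀ (E : MvPolynomial (Fin (d + 1)) ℂ),
      (Polynomial.C E).eval₂ (MvPolynomial.aeval y).toRingHom η = MvPolynomial.aeval y E := by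
    intro E
    rw [Polynomial.eval₂_C]
    rfl
  have hSy : MvPolynomial.aeval y S ≠ 0 := hne S hS0
  obtain ⟨δ, hδ⟩ : ∃ δ : ℕ, (δ : ℤ) = v (MvPolynomial.aeval y S) := by
    have h1 := (hv.mem_iff hSy).1 (z3_mem O hO y hy S)
    exact ⟨(v (MvPolynomial.aeval y S)).toNat, Int.toNat_of_nonneg h1⟩
  -- relations
  choose R κ hR using fun p => z3_subst S Q p
  have hRK : ∀ p : MvPolynomial (Fin (d + 1) ⊕ Fin m) ℂ,
      MvPolynomial.aeval (Sum.elim y g) p = 0 →
      ∃ E : MvPolynomial (Fin (d + 1)) ℂ, E ≠ 0 ∧ ∃ q, Polynomial.C E * R p = f * q := by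
    intro p hp
    apply h.dvd
    rw [hR p y η g hQS, hp, mul_zero]
  obtain ⟨G, hG⟩ : (RingHom.ker (MvPolynomial.aeval
      (Sum.elim y g) : MvPolynomial (Fin (d + 1) ⊕ Fin m) ℂ →ₐ[ℂ] K)).FG :=
    IsNoetherian.noetherian _
  have hGp : ∀ p ∈ G, MvPolynomial.aeval (Sum.elim y g) p = 0 := by
    intro p hp
    have h1 : p ∈ RingHom.ker (MvPolynomial.aeval
      (Sum.elim y g) : MvPolynomial (Fin (d + 1) ⊕ Fin m) ℂ →ₐ[ℂ] K) := by
      rw [← hG]
      exact Ideal.subset_span hp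
    exact h1
  have hch : ∀ p : MvPolynomial (Fin (d + 1) ⊕ Fin m) ℂ,
      ∃ E : MvPolynomial (Fin (d + 1)) ℂ, E ≠ 0 ∧ (p ∈ G → ∃ q, Polynomial.C E * R p = f * q) := by
    intro p
    by_cases hp : p ∈ G
    · obtain ⟨E, hE, hg⟩ := hRK p (hGp p hp)
      exact ⟨E, hE, fun _ => hg⟩
    · exact ⟨1, one_ne_zero, fun h => absurd h hp⟩
  choose E hE0 hEg using hch
  set 𝓠 : Finset (Polynomial (MvPolynomial (Fin (d + 1)) ℂ)) :=
    insert (Polynomial.C (MvPolynomial.X 0)) (insert (Polynomial.C S)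
      ((G.image fun p => Polynomial.C (E p)) ∪
        ((Finset.univ.filter fun j => g j ≠ 0).image Q))) with h𝓠
  have h𝓠0 : ∀ q ∈ 𝓠, q.eval₂ (MvPolynomial.aeval y).toRingHom η ≠ 0 := by
    intro q hq
    rw [h𝓠, Finset.mem_insert, Finset.mem_insert, Finset.mem_union, Finset.mem_image,
      Finset.mem_image] at hq
    rcases hq with rfl | rfl | ⟨p, _, rfl⟩ | ⟨j, hj, rfl⟩
    · rw [hCe]
      exact hne _ (MvPolynomial.X_ne_zero 0)
    · rw [hCe]
      exact hSy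
    · rw [hCe]
      exact hne _ (hE0 p)
    · rw [← hQS j]
      exact mul_ne_zero hSy (Finset.mem_filter.1 hj).2
  have hmX : Polynomial.C (MvPolynomial.X 0) ∈ 𝓠 := Finset.mem_insert_self _ _
  have hmS : Polynomial.C S ∈ 𝓠 := Finset.mem_insert_of_mem (Finset.mem_insert_self _ _)
  have hmE : ∀ p ∈ G, Polynomial.C (E p) ∈ 𝓠 := fun p hp =>
    Finset.mem_insert_of_mem (Finset.mem_insert_of_mem (Finset.mem_union_left _
      (Finset.mem_image_of_mem (fun p => Polynomial.C (E p)) hp)))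
  have hmQ : ∀ j, g j ≠ 0 → Q j ∈ 𝓠 := fun j hj =>
    Finset.mem_insert_of_mem (Finset.mem_insert_of_mem (Finset.mem_union_right _
      (Finset.mem_image_of_mem Q (Finset.mem_filter.2 ⟨Finset.mem_univ _, hj⟩))))
  obtain ⟨Y, L, hL, harc⟩ := exists_arc₁ O hO v hv y η f h hy hη 𝓠 h𝓠0 δ
  -- the base coordinate
  have hYan : ∀ i, AnalyticAt ℂ (fun z => (Y i).eval z) 0 := fun i =>
    (Polynomial.differentiable (Y i)).analyticAt 0
  have hρo : analyticOrderAt (fun z => (Y 0).eval z) 0 = e := by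
    obtain ⟨ε, -, -, hq, -⟩ := harc 0
    obtain ⟨w, hw, hw0, hwz⟩ := hq _ hmX
    refine z3_order (hYan 0) hw hw0 ?_
    filter_upwards [hwz] with z hz
    rw [hCe, MvPolynomial.aeval_X, hve, Int.toNat_natCast, Polynomial.eval₂_C] at hz
    rw [← hz]
    simp
  obtain ⟨φ, hφ, hφ0, hφo, hφs⟩ := exists_phi he hk (hYan 0) hρo hs hso
  have hφt : Tendsto φ (𝓝 z₀) (𝓝 0) := by
    have h1 := hφ.continuousAt.tendsto
    rwa [hφ0] at h1
  have hφne : ∀ᶠ z in 𝓝[≠] z₀, φ z ≠ 0 := by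
    rcases hφ.eventually_eq_zero_or_eventually_ne_zero with h1 | h1
    · exfalso
      rw [analyticOrderAt_eq_top.2 h1] at hφo
      exact ENat.top_ne_coe k hφo
    · exact h1
  have hφt' : Tendsto φ (𝓝[≠] z₀) (𝓝[≠] 0) :=
    tendsto_nhdsWithin_iff.2 ⟨hφt.mono_left nhdsWithin_le_nhds, hφne⟩
  have hcomp : ∀ a : ℂ → ℂ, AnalyticAt ℂ a 0 → AnalyticAt ℂ (fun z => a (φ z)) z₀ := by
    intro a ha
    have h1 : AnalyticAt ℂ a (φ z₀) := by rw [hφ0]; exact ha
    exact h1.comp hφ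
  refine ⟨fun z i => (Y i).eval (φ z), fun z => φ z ^ (L + 1),
    analyticAt_pi_iff.2 fun i => hcomp _ (hYan i), hφs, hφ.pow _, ?_, ?_⟩
  · filter_upwards [hφne] with z hz
    exact pow_ne_zero _ hz
  intro c hc
  obtain ⟨ε, hε, hroot, hexact, hdiv⟩ := harc c
  -- the denominator
  obtain ⟨wS, hwS, hwS0, hwSz⟩ := hexact _ hmS
  rw [hCe, ← hδ, Int.toNat_natCast] at hwSz
  -- the numerators
  have hnum : ∀ j, ∃ w : ℂ → ℂ, AnalyticAt ℂ w 0 ∧ (∀ᶠ z in 𝓝 (0 : ℂ),
      (Q j).eval₂ (MvPolynomial.aeval fun i => (Y i).eval z + z ^ (L + 1) * c i).toRingHom (ε z) =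
        z ^ δ * w z) ∧ (g j ≠ 0 → analyticOrderAt w 0 = ((v (g j)).toNat : ℕ)) := by
    intro j
    by_cases hj : g j = 0
    · obtain ⟨w, hw, hwz⟩ := hdiv (Q j) δ le_rfl (Or.inl (by rw [← hQS j, hj, mul_zero]))
      exact ⟨w, hw, hwz, fun h => absurd hj h⟩
    · obtain ⟨w, hw, hw0, hwz⟩ := hexact _ (hmQ j hj)
      have hvj : 0 ≤ v (g j) := (hv.mem_iff hj).1 (hg j)
      have h1 : (v ((Q j).eval₂ (MvPolynomial.aeval y).toRingHom η)).toNat =
          δ + (v (g j)).toNat := by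
        rw [← hQS j, hv.map_mul hSy hj, ← hδ]
        omega
      have hwan : AnalyticAt ℂ (fun z : ℂ => z ^ (v (g j)).toNat * w z) 0 :=
        (analyticAt_id.pow _).mul hw
      refine ⟨fun z => z ^ (v (g j)).toNat * w z, hwan, ?_, fun _ => ?_⟩
      · filter_upwards [hwz] with z hz
        rw [hz, h1, pow_add, mul_assoc]
      · exact z3_order hwan hw hw0 (Eventually.of_forall fun z => rfl)
  choose w hwan hwz hwo using hnum
  have hGan : ∀ j, AnalyticAt ℂ (fun ζ => w j ζ / wS ζ) 0 := fun j => (hwan j).div hwS hwS0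
  refine ⟨fun z j => w j (φ z) / wS (φ z), analyticAt_pi_iff.2 fun j => hcomp _ (hGan j), ?_, ?_⟩
  · -- relations
    have hwSne : ∀ᶠ z in 𝓝[≠] (0 : ℂ), wS z ≠ 0 :=
      (hwS.continuousAt.eventually_ne hwS0).filter_mono nhdsWithin_le_nhds
    have hz0 : ∀ᶠ z in 𝓝[≠] (0 : ℂ), z ≠ 0 := eventually_mem_nhdsWithin
    have hgen : ∀ p ∈ G, ∀ᶠ z in 𝓝[≠] (0 : ℂ),
        MvPolynomial.aeval (Sum.elim (fun i => (Y i).eval z + z ^ (L + 1) * c i)
          (fun j => w j z / wS z)) p = 0 := by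
      intro p hp
      obtain ⟨wE, hwE, hwE0, hwEz⟩ := hexact _ (hmE p hp)
      have hwEne : ∀ᶠ z in 𝓝[≠] (0 : ℂ), wE z ≠ 0 :=
        (hwE.continuousAt.eventually_ne hwE0).filter_mono nhdsWithin_le_nhds
      filter_upwards [hz0, hwSne, hwEne, hwEz.filter_mono nhdsWithin_le_nhds,
        hwSz.filter_mono nhdsWithin_le_nhds, hroot.filter_mono nhdsWithin_le_nhds,
        (eventually_all.2 hwz).filter_mono nhdsWithin_le_nhds] with z h1 h2 h3 h4 h5 h6 h7
      obtain ⟨q, hq⟩ := hEg p hp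
      rw [Polynomial.eval₂_C] at h4 h5
      have h8 := congrArg (Polynomial.eval₂
        (MvPolynomial.aeval fun i => (Y i).eval z + z ^ (L + 1) * c i).toRingHom (ε z)) hq
      have h9 : MvPolynomial.aeval (fun i => (Y i).eval z + z ^ (L + 1) * c i) S = z ^ δ * wS z := h5
      rw [Polynomial.eval₂_mul, Polynomial.eval₂_mul, h6, zero_mul, Polynomial.eval₂_C, h4,
        hR p (fun i => (Y i).eval z + z ^ (L + 1) * c i) (ε z) (fun l => w l z / wS z) ?_, h9] at h8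
      · exact (mul_eq_zero.1 ((mul_eq_zero.1 h8).resolve_left
          (mul_ne_zero (pow_ne_zero _ h1) h3))).resolve_left
            (pow_ne_zero _ (mul_ne_zero (pow_ne_zero _ h1) h2))
      · intro l
        rw [h7 l, h9]
        field_simp
    intro p hp
    have hpG : p ∈ Ideal.span (G : Set (MvPolynomial (Fin (d + 1) ⊕ Fin m) ℂ)) := by
      rw [hG]
      exact hp
    have hall : ∀ᶠ z in 𝓝[≠] (0 : ℂ), MvPolynomial.aeval (Sum.elim
        (fun i => (Y i).eval z + z ^ (L + 1) * c i) (fun j => w j z / wS z)) p = 0 := by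
      filter_upwards [(Filter.eventually_all_finset G).2 hgen] with z hz
      have hle : Ideal.span (G : Set (MvPolynomial (Fin (d + 1) ⊕ Fin m) ℂ)) ≤
          RingHom.ker (MvPolynomial.aeval (Sum.elim
            (fun i => (Y i).eval z + z ^ (L + 1) * c i) (fun j => w j z / wS z)) :
              MvPolynomial (Fin (d + 1) ⊕ Fin m) ℂ →ₐ[ℂ] ℂ) := by
        rw [Ideal.span_le]
        intro a ha
        exact hz a ha
      exact hle hpG
    exact hφt'.eventually hall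
  · -- orders
    intro j hj
    have h1 : analyticOrderAt (fun ζ => w j ζ / wS ζ) 0 = ((v (g j)).toNat : ℕ) := by
      obtain ⟨a, ha, ha0, haz⟩ := ((hwan j).analyticOrderAt_eq_natCast).1 (hwo j hj)
      refine z3_order (hGan j) (ha.div hwS hwS0) (div_ne_zero ha0 hwS0) ?_
      filter_upwards [haz] with z hz
      rw [hz, sub_zero, smul_eq_mul]
      exact mul_div_assoc _ _ _
    have h2 : AnalyticAt ℂ (fun ζ => w j ζ / wS ζ) (φ z₀) := by rw [hφ0]; exact hGan j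
    have h3 := AnalyticAt.analyticOrderAt_comp (f := fun ζ => w j ζ / wS ζ) (g := φ) (z₀ := z₀) h2 hφ
    have h4 : (fun z => φ z - φ z₀) = φ := by
      funext z
      rw [hφ0, sub_zero]
    rw [h4, hφ0, hφo, h1] at h3
    change analyticOrderAt ((fun ζ => w j ζ / wS ζ) ∘ φ) z₀ = _
    rw [h3]
    push_cast
    exact mul_comm _ _

end Pool.Agent.AbPencil
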