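import Mathlib

/-! PIECE Z4: generic parameters. -/

set_option autoImplicit false

open Filter Topology

namespace Pool.Agent.AbPencil

private def z4idx (d r : ℕ) : Fin (d + 1) ⊕ Fin r → Fin d ⊕ (Fin 1 ⊕ Fin r) :=
  Sum.elim (fun i => Fin.cases (Sum.inr (Sum.inl 0)) (fun k => Sum.inl k) i) (fun j => Sum.inr (Sum.inr j))

private lemma z4idx_inj (d r : ℕ) : Function.Injective (z4idx d r) := by
  intro a b h
  rcases a with a | a <;> rcases b with b | b
  · refine Fin.cases ?_ (fun k => ?_) a h <;> refine Fin.cases ?_ (fun l => ?_) b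
    · intro _; rfl
    · intro h; simp [z4idx] at h
    · intro h; simp [z4idx] at h
    · intro h; simp [z4idx] at h; rw [h]
  · refine Fin.cases ?_ (fun k => ?_) a h
    · intro h; simp [z4idx] at h
    · intro h; simp [z4idx] at h
  · refine Fin.cases ?_ (fun k => ?_) b h
    · intro h; simp [z4idx] at h
    · intro h; simp [z4idx] at h
  · simp [z4idx] at h; rw [h]

private noncomputable def z4poly {d r : ℕ} (ρ : MvPolynomial (Fin (d + 1) ⊕ Fin r) ℂ) :
    MvPolynomial (Fin d) (MvPolynomial (Fin 1 ⊕ Fin r) ℂ) :=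
  MvPolynomial.sumAlgEquiv ℂ (Fin d) (Fin 1 ⊕ Fin r) (MvPolynomial.rename (z4idx d r) ρ)

private lemma z4poly_ne {d r : ℕ} {ρ : MvPolynomial (Fin (d + 1) ⊕ Fin r) ℂ} (h : ρ ≠ 0) : z4poly ρ ≠ 0 := by
  intro h0
  unfold z4poly at h0
  rw [EmbeddingLike.map_eq_zero_iff] at h0
  exact h ((MvPolynomial.rename_injective _ (z4idx_inj d r)) (by rw [h0, map_zero]))

private lemma z4poly_eval {d r : ℕ} (pt : Fin 1 ⊕ Fin r → ℂ) (y : Fin d → ℂ)
    (ρ : MvPolynomial (Fin (d + 1) ⊕ Fin r) ℂ) :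
    MvPolynomial.eval y (MvPolynomial.map ((MvPolynomial.aeval pt : MvPolynomial (Fin 1 ⊕ Fin r) ℂ →ₐ[ℂ] ℂ) :
      MvPolynomial (Fin 1 ⊕ Fin r) ℂ →+* ℂ) (z4poly ρ)) =
    MvPolynomial.aeval (Sum.elim (fun i => Fin.cases (motive := fun _ => ℂ) (pt (Sum.inl 0)) y i)
      (fun j => pt (Sum.inr j))) ρ := by
  unfold z4poly
  induction ρ using MvPolynomial.induction_on with
  | C a => simp
  | add p q hp hq => simp only [map_add, hp, hq]
  | mul_X p i hp =>
    rw [map_mul, map_mul, map_mul, map_mul, map_mul, hp]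
    congr 1
    rcases i with i | j
    · refine Fin.cases ?_ (fun k => ?_) i
      · simp [z4idx]
      · simp [z4idx]
    · simp [z4idx]

private lemma z4_mero {d r : ℕ} (z₀ : ℂ) (g : ℂ → Fin (d + 1) ⊕ Fin r → ℂ)
    (hg : ∀ i, MeromorphicAt (fun z => g z i) z₀) (ρ : MvPolynomial (Fin (d + 1) ⊕ Fin r) ℂ) :
    MeromorphicAt (fun z => MvPolynomial.aeval (g z) ρ) z₀ := by
  induction ρ using MvPolynomial.induction_on with
  | C a =>
    have h : (fun z => MvPolynomial.aeval (g z) (MvPolynomial.C a : MvPolynomial (Fin (d + 1) ⊕ Fin r) ℂ)) =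
        fun _ => a := by
      funext z; simp
    rw [h]
    exact MeromorphicAt.const a z₀
  | add p q hp hq =>
    have h : (fun z => MvPolynomial.aeval (g z) (p + q)) =
        (fun z => MvPolynomial.aeval (g z) p) + (fun z => MvPolynomial.aeval (g z) q) := by
      funext z; simp
    rw [h]
    exact hp.add hq
  | mul_X p i hp =>
    have h : (fun z => MvPolynomial.aeval (g z) (p * MvPolynomial.X i)) =
        (fun z => MvPolynomial.aeval (g z) p) * (fun z => g z i) := by
      funext z; simp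
    rw [h]
    exact hp.mul (hg i)

/-- Proof. For fixed `c` the function `z ↦ ρ(H z + ψ z c, D z)` is meromorphic at `z₀`, so it is either eventually zero or
eventually nonzero on punctured neighbourhoods. Suppose it is eventually zero for all `c` with `c 0 = 0`; use this
for the finitely many `c` with `c i ∈ {0, …, M}` (`i ≠ 0`), where `M ≥` the degrees of `ρ`: for `z` in a punctured
neighbourhood the polynomial `c ↦ ρ(H z + ψ z c, D z)` in the variables `c i`, `i ≠ 0`, vanishes on this grid, so it is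
zero (`MvPolynomial.funext_set`/`MvPolynomial.eq_zero_of_eval_zero_at_prod_finset`, Combinatorial Nullstellensatz), and
since `ψ z ≠ 0` the polynomial `ρ(H z 0, Y_1, …, Y_d, D z)` in `Y_1, …, Y_d` is zero. Write
`ρ = ∑_β ρ_β(Y_0, D) Y^β`: all `ρ_β(H z 0, D z) = 0`, and some `ρ_β ≠ 0`: contradiction with `hind`. -/
theorem generic_param {d r : ℕ} (z₀ : ℂ) (H : ℂ → Fin (d + 1) → ℂ) (ψ : ℂ → ℂ) (D : ℂ → Fin r → ℂ)
    (hH : AnalyticAt ℂ H z₀) (hψ : AnalyticAt ℂ ψ z₀) (hψ0 : ∀ᶠ z in 𝓝[≠] z₀, ψ z ≠ 0)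
    (hD : ∀ i, MeromorphicAt (fun z => D z i) z₀)
    (hind : ∀ p : MvPolynomial (Fin 1 ⊕ Fin r) ℂ, p ≠ 0 →
      ∀ᶠ z in 𝓝[≠] z₀, MvPolynomial.aeval (Sum.elim (fun _ => H z 0) (D z)) p ≠ 0)
    (ρ : MvPolynomial (Fin (d + 1) ⊕ Fin r) ℂ) (hρ : ρ ≠ 0) :
    ∃ c : Fin (d + 1) → ℂ, c 0 = 0 ∧
      ∀ᶠ z in 𝓝[≠] z₀, MvPolynomial.aeval (Sum.elim (fun i => H z i + ψ z * c i) (D z)) ρ ≠ 0 := by
  classical
  by_contra hcon
  push Not at hcon
  -- eventually zero for every `c`
  have hzero : ∀ c : Fin (d + 1) → ℂ, c 0 = 0 →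
      ∀ᶠ z in 𝓝[≠] z₀, MvPolynomial.aeval (Sum.elim (fun i => H z i + ψ z * c i) (D z)) ρ = 0 := by
    intro c hc
    have hm : MeromorphicAt (fun z => MvPolynomial.aeval (Sum.elim (fun i => H z i + ψ z * c i) (D z)) ρ) z₀ := by
      refine z4_mero z₀ (fun z => Sum.elim (fun i => H z i + ψ z * c i) (D z)) ?_ ρ
      rintro (i | j)
      · have h1 : AnalyticAt ℂ (fun z => H z i) z₀ := by
          have := (ContinuousLinearMap.proj (R := ℂ) (φ := fun _ : Fin (d + 1) => ℂ) i).analyticAt (H z₀)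
          exact this.comp hH
        exact (h1.add (hψ.mul analyticAt_const)).meromorphicAt
      · exact hD j
    rcases hm.eventually_eq_zero_or_eventually_ne_zero with h | h
    · exact h
    · exact absurd h (hcon c hc)
  -- the coefficient
  obtain ⟨β, hβ⟩ := MvPolynomial.ne_zero_iff.mp (z4poly_ne hρ)
  set P := z4poly ρ with hP
  set M : ℕ := P.totalDegree with hM
  -- the finite grid
  let G : Finset (Fin d → ℕ) := Fintype.piFinset (fun _ => Finset.range (M + 1))
  have hall : ∀ᶠ z in 𝓝[≠] z₀, ∀ k ∈ G, MvPolynomial.aeval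
      (Sum.elim (fun i => H z i + ψ z * (Fin.cases (motive := fun _ => ℂ) 0 (fun l => (k l : ℂ)) i)) (D z)) ρ = 0 := by
    rw [Filter.eventually_all_finset]
    intro k _
    exact hzero (fun i => Fin.cases (motive := fun _ => ℂ) 0 (fun l => (k l : ℂ)) i) rfl
  obtain ⟨z, hz1, hz2, hz3⟩ := (hall.and (hψ0.and (hind _ hβ))).exists
  apply hz3
  set pt : Fin 1 ⊕ Fin r → ℂ := Sum.elim (fun _ => H z 0) (D z) with hpt
  set Q : MvPolynomial (Fin d) ℂ := MvPolynomial.map ((MvPolynomial.aeval pt : MvPolynomial (Fin 1 ⊕ Fin r) ℂ →ₐ[ℂ] ℂ) :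
      MvPolynomial (Fin 1 ⊕ Fin r) ℂ →+* ℂ) P with hQ
  have hQ0 : Q = 0 := by
    refine MvPolynomial.eq_zero_of_eval_zero_at_prod_finset Q
      (fun i => (Finset.range (M + 1)).image (fun k : ℕ => H z i.succ + ψ z * (k : ℂ))) ?_ ?_
    · intro i
      rw [Finset.card_image_of_injective, Finset.card_range]
      · have h1 : Q.degreeOf i ≤ P.totalDegree := by
          refine (MvPolynomial.degreeOf_le_totalDegree _ _).trans ?_
          unfold MvPolynomial.totalDegree
          exact Finset.sup_mono (MvPolynomial.support_map_subset _ _)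
        omega
      · intro k l hkl
        have h2 : ψ z * (k : ℂ) = ψ z * (l : ℂ) := add_left_cancel hkl
        exact_mod_cast mul_left_cancel₀ hz2 h2
    · intro x hx
      have hx' : ∀ i, ∃ k ∈ Finset.range (M + 1), H z i.succ + ψ z * ((k : ℕ) : ℂ) = x i := by
        intro i
        simpa using Finset.mem_image.mp (hx i)
      choose k hk hkx using hx'
      have h3 := hz1 k (Fintype.mem_piFinset.mpr hk)
      rw [hQ, hP, z4poly_eval]
      rw [← h3]
      congr 1
      congr 1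
      funext i
      rcases i with i | j
      · refine Fin.cases ?_ (fun l => ?_) i
        · simp [hpt]
        · simp [hkx]
      · simp [hpt]
  have h4 : MvPolynomial.coeff β Q = MvPolynomial.aeval pt (MvPolynomial.coeff β P) := by
    rw [hQ, MvPolynomial.coeff_map]
    rfl
  rw [← h4, hQ0, MvPolynomial.coeff_zero]

end Pool.Agent.AbPencil
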