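import Pool.Agent.Lib_MP_1209e6_sk.Defs

/-! PIECE Z5: a multiple of an element which lies in the polynomial ring over the transcendence basis. -/

set_option autoImplicit false

open Filter Topology

namespace Pool.Agent.AbPencil

open Pool.Agent.Campana

private lemma Z5_alg {K : Type} [Field K] [Algebra ℂ K] {d : ℕ} (y : Fin (d + 1) → K) (η : K)
    (f : Polynomial (MvPolynomial (Fin (d + 1)) ℂ)) (h : Pres y η f)
    [Algebra (MvPolynomial (Fin (d + 1)) ℂ) K]
    (hA : algebraMap (MvPolynomial (Fin (d + 1)) ℂ) K = (MvPolynomial.aeval y).toRingHom) :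
    Algebra.IsAlgebraic (MvPolynomial (Fin (d + 1)) ℂ) K := by
  have hη : IsAlgebraic (MvPolynomial (Fin (d + 1)) ℂ) η := by
    refine ⟨f, ?_, ?_⟩
    · rintro rfl
      apply h.sep
      rw [Polynomial.derivative_zero, Polynomial.eval₂_zero]
    · rw [Polynomial.aeval_def, hA]
      exact h.root
  refine ⟨fun a => ?_⟩
  obtain ⟨S, Q, hS, hQ⟩ := h.gen a
  have h1 : IsAlgebraic (MvPolynomial (Fin (d + 1)) ℂ) (S • a) := by
    have h2 : S • a = Polynomial.aeval η Q := by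
      rw [Algebra.smul_def, Polynomial.aeval_def, hA]
      exact hQ
    rw [h2]
    have h3 : Polynomial.aeval η Q ∈ Algebra.adjoin (MvPolynomial (Fin (d + 1)) ℂ) {η} :=
      Polynomial.aeval_mem_adjoin_singleton _ _
    exact Algebra.isAlgebraic_adjoin_singleton_iff.2 hη _ h3
  exact h1.of_smul (mem_nonZeroDivisors_of_ne_zero hS)

private lemma Z5_pow {K : Type} [Field K] {O : ValuationSubring K} {v : K → ℤ} (hv : IsOrd O v)
    (x : K) (hx : x ≠ 0) (n : ℕ) : v (x ^ n) = n * v x := by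
  have h1 : v 1 = 0 := by
    have h := hv.1 1 1 one_ne_zero one_ne_zero
    rw [mul_one] at h
    omega
  induction n with
  | zero => simp [h1]
  | succ n ih =>
    rw [pow_succ, hv.1 _ _ (pow_ne_zero _ hx) hx, ih]
    push_cast
    ring

private lemma Z5_sum {K : Type} [Field K] [Algebra ℂ K] {d r : ℕ} (y : Fin (d + 1) → K)
    (G : MvPolynomial (Fin r) (MvPolynomial (Fin (d + 1)) ℂ)) :
    MvPolynomial.aeval (Sum.elim (fun i => MvPolynomial.C (y i)) MvPolynomial.X :
        Fin (d + 1) ⊕ Fin r → MvPolynomial (Fin r) K)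
      (MvPolynomial.rename Sum.swap ((MvPolynomial.sumAlgEquiv ℂ (Fin r) (Fin (d + 1))).symm G)) =
    MvPolynomial.map (MvPolynomial.aeval y).toRingHom G := by
  have h1 : ((MvPolynomial.aeval (Sum.elim (fun i => MvPolynomial.C (y i)) MvPolynomial.X :
        Fin (d + 1) ⊕ Fin r → MvPolynomial (Fin r) K)).toRingHom.comp
      ((MvPolynomial.rename Sum.swap).toRingHom.comp
        (MvPolynomial.sumAlgEquiv ℂ (Fin r) (Fin (d + 1))).symm.toRingEquiv.toRingHom)) =
      MvPolynomial.map (MvPolynomial.aeval y : MvPolynomial (Fin (d + 1)) ℂ →ₐ[ℂ] K).toRingHom := by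
    refine MvPolynomial.ringHom_ext' (MvPolynomial.ringHom_ext' ?_ ?_) ?_
    · ext c
      simp
    · intro i
      simp
    · intro i
      simp
  exact congrArg (fun q => q G) h1

/-- Proof. `K` is algebraic over `ℂ(y)`: `η` is a root of `f` (not zero at `y` by `h.sep`) and every `a ∈ K` satisfies
`S(y) a = Q(y, η)` (`h.gen`). So each element of the fraction field of `K[X_1, …, X_r]` is algebraic over the subring
`ℂ[y, X_1, …, X_r]`. Apply this to `b = R(g, X) ≠ 0`: `∑_{i=0}^M a_i b^i = 0` with `a_i ∈ ℂ[y, X]` and `a_0 ≠ 0` (divide by a power of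
`b`), so `a_0 = b * R₂'`, `R₂' = - ∑_{i≥1} a_i b^(i-1) ∈ K[X]`. Multiply by `(y 0)^N` with `N` large: all coefficients of
`(y 0)^N R₂'` lie in `O` because `v (y 0) ≥ 1`. (Convenient: `A = MvPolynomial (Fin (d+1) ⊕ Fin r) ℂ` acts on
`MvPolynomial (Fin r) K` and its fraction field through `aeval (Sum.elim (C ∘ y) X)`;
`IsAlgebraic`, `exists_nonzero_coeff_and_aeval_eq_zero` or similar.) -/
theorem exists_norm {K : Type} [Field K] [Algebra ℂ K] (O : ValuationSubring K) (hO : IsPlace O)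
    (v : K → ℤ) (hv : IsOrd O v) {d : ℕ} (y : Fin (d + 1) → K) (η : K)
    (f : Polynomial (MvPolynomial (Fin (d + 1)) ℂ)) (h : Pres y η f) (hy : ∀ i, y i ∈ O)
    (h0 : 1 ≤ v (y 0)) {m r : ℕ} (g : Fin m → K) (R : MvPolynomial (Fin m ⊕ Fin r) ℂ)
    (hR : MvPolynomial.aeval (Sum.elim (fun j => MvPolynomial.C (g j)) MvPolynomial.X :
      Fin m ⊕ Fin r → MvPolynomial (Fin r) K) R ≠ 0) :
    ∃ (ρ : MvPolynomial (Fin (d + 1) ⊕ Fin r) ℂ) (R₂ : MvPolynomial (Fin r) K), ρ ≠ 0 ∧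
      (∀ α, R₂.coeff α ∈ O) ∧
      MvPolynomial.aeval (Sum.elim (fun i => MvPolynomial.C (y i)) MvPolynomial.X :
        Fin (d + 1) ⊕ Fin r → MvPolynomial (Fin r) K) ρ =
      MvPolynomial.aeval (Sum.elim (fun j => MvPolynomial.C (g j)) MvPolynomial.X :
        Fin m ⊕ Fin r → MvPolynomial (Fin r) K) R * R₂ := by
  classical
  let i0 : Algebra (MvPolynomial (Fin (d + 1)) ℂ) K :=
    (MvPolynomial.aeval y : MvPolynomial (Fin (d + 1)) ℂ →ₐ[ℂ] K).toRingHom.toAlgebra
  have hA : algebraMap (MvPolynomial (Fin (d + 1)) ℂ) K = (MvPolynomial.aeval y).toRingHom := rfl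
  have i1 : Algebra.IsAlgebraic (MvPolynomial (Fin (d + 1)) ℂ) K := Z5_alg y η f h hA
  obtain ⟨G, hG, R', hR'⟩ := MvPolynomial.exists_dvd_map_of_isAlgebraic
    (R := MvPolynomial (Fin (d + 1)) ℂ) hR
  have hy0 : y 0 ≠ 0 := by
    intro h1
    have h2 := h.ind.ne_zero 0
    exact h2 h1
  have hpow : ∀ N : ℕ, v (y 0 ^ N) = N * v (y 0) := fun N => Z5_pow hv _ hy0 N
  obtain ⟨N, hN⟩ : ∃ N : ℕ, ∀ α ∈ R'.support, -v (R'.coeff α) ≤ N := by
    refine ⟨R'.support.sup fun α => (-v (R'.coeff α)).toNat, fun α hα => ?_⟩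
    have h1 : (-v (R'.coeff α)).toNat ≤ R'.support.sup fun α => (-v (R'.coeff α)).toNat :=
      Finset.le_sup (f := fun α => (-v (R'.coeff α)).toNat) hα
    omega
  refine ⟨MvPolynomial.rename Sum.swap ((MvPolynomial.sumAlgEquiv ℂ (Fin r) (Fin (d + 1))).symm
    (MvPolynomial.C (MvPolynomial.X 0 ^ N) * G)), MvPolynomial.C (y 0 ^ N) * R', ?_, ?_, ?_⟩
  · intro h1
    have h2 := MvPolynomial.rename_injective (R := ℂ) _ (Sum.swap_leftInverse.injective :
      Function.Injective (Sum.swap : Fin r ⊕ Fin (d + 1) → Fin (d + 1) ⊕ Fin r)) (h1.trans (map_zero _).symm)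
    have h3 := (MvPolynomial.sumAlgEquiv ℂ (Fin r) (Fin (d + 1))).symm.injective
      (h2.trans (map_zero _).symm)
    refine mul_ne_zero ?_ hG h3
    rw [Ne, MvPolynomial.C_eq_zero]
    exact pow_ne_zero _ (MvPolynomial.X_ne_zero _)
  · intro α
    rw [MvPolynomial.coeff_C_mul]
    by_cases h1 : R'.coeff α = 0
    · rw [h1, mul_zero]
      exact O.zero_mem
    · have h2 := hN α (MvPolynomial.mem_support_iff.2 h1)
      refine (hv.2.1 _ (mul_ne_zero (pow_ne_zero _ hy0) h1)).2 ?_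
      rw [hv.1 _ _ (pow_ne_zero _ hy0) h1, hpow]
      nlinarith
  · rw [Z5_sum, map_mul, MvPolynomial.map_C, map_pow]
    change MvPolynomial.C (MvPolynomial.aeval y (MvPolynomial.X 0) ^ N) * _ = _
    rw [MvPolynomial.aeval_X]
    have h1 : MvPolynomial.map (MvPolynomial.aeval y : MvPolynomial (Fin (d + 1)) ℂ →ₐ[ℂ] K).toRingHom G =
      MvPolynomial.aeval (Sum.elim (fun j => MvPolynomial.C (g j)) MvPolynomial.X :
        Fin m ⊕ Fin r → MvPolynomial (Fin r) K) R * R' := hR'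
    rw [h1]
    ring

end Pool.Agent.AbPencil
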