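import Pool.Agent.Lib_MP_1209e6_sp.P
import Pool.Agent.Lib_MP_1209e6_sk.Z0
import Pool.Agent.Lib_MP_1209e6_sk.Z3
import Pool.Agent.Lib_MP_1209e6_sk.Z4
import Pool.Agent.Lib_MP_1209e6_sk.Z5
import Pool.Agent.Lib_MP_1209e6_sk.Z7

/-! PIECE Z6: generic germs from places. -/

set_option autoImplicit false

open Filter Topology

namespace Pool.Agent.AbPencil

open Pool.Agent.Campana

/-- Proof. `g 0` is transcendental (`trans_of_ord`). `exists_pres` with `τ = g 0`: `y`, `η`, `f`. `exists_norm` for `R`: `ρ ≠ 0`, `R₂`, `ρ(y, X) = R(g, X) R₂`. Let `g'` be the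
family `g` together with the (finitely many nonzero) coefficients of `R₂`, so that `R₂ = R₂'(g', X)` with a polynomial
`R₂'` over `ℂ`. `exists_germ₀` for `g'`: `H`, `ψ`; `generic_param` for `ρ` (`H z 0 = s z` near `z₀`): `c`; then the germ `G'` of
`exists_germ₀` for this `c`. `G` = the part of `G'` which belongs to `g`; `G z 0 = s z` off `z₀` by the relation
`g 0 - y 0` and at `z₀` by continuity. The identity `ρ(y, X) = R(g, X) R₂'(g', X)` in `K[X]` gives (`rel_poly`)
`ρ(H z + ψ z c, D z) = R(G z, D z) R₂'(G' z, D z)` off `z₀`. -/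
theorem exists_germ {K : Type} [Field K] [Algebra ℂ K] (T₀ : Finset K)
    (hT₀ : IntermediateField.adjoin ℂ (T₀ : Set K) = ⊤) (O : ValuationSubring K) (hO : IsPlace O)
    (v : K → ℤ) (hv : IsOrd O v) (e k : ℕ) (he : 1 ≤ e) (hk : 1 ≤ k) {m : ℕ} (g : Fin (m + 1) → K)
    (hg : ∀ j, g j ∈ O) (hg0 : g 0 ≠ 0) (hve : v (g 0) = e) (z₀ : ℂ) (s : ℂ → ℂ) (hs : AnalyticAt ℂ s z₀)
    (hso : analyticOrderAt s z₀ = (k * e : ℕ)) {r : ℕ} (D : ℂ → Fin r → ℂ)
    (hD : ∀ i, MeromorphicAt (fun z => D z i) z₀)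
    (hind : ∀ p : MvPolynomial (Fin 1 ⊕ Fin r) ℂ, p ≠ 0 →
      ∀ᶠ z in 𝓝[≠] z₀, MvPolynomial.aeval (Sum.elim (fun _ => s z) (D z)) p ≠ 0)
    (R : MvPolynomial (Fin (m + 1) ⊕ Fin r) ℂ)
    (hR : MvPolynomial.aeval (Sum.elim (fun j => MvPolynomial.C (g j)) MvPolynomial.X :
      Fin (m + 1) ⊕ Fin r → MvPolynomial (Fin r) K) R ≠ 0) :
    ∃ G : ℂ → Fin (m + 1) → ℂ, AnalyticAt ℂ G z₀ ∧ (∀ᶠ z in 𝓝 z₀, G z 0 = s z) ∧ Rel z₀ g G ∧
      (∀ j, g j ≠ 0 → analyticOrderAt (fun z => G z j) z₀ = (k * (v (g j)).toNat : ℕ)) ∧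
      ∀ᶠ z in 𝓝[≠] z₀, MvPolynomial.aeval (Sum.elim (G z) (D z)) R ≠ 0 := by
  classical
  have hτ : Transcendental ℂ (g 0) := trans_of_ord hO hv hg0 (by rw [hve]; exact_mod_cast he)
  obtain ⟨d, y, η, f, hy0, hyO, hηO, hP⟩ := exists_pres T₀ hT₀ O hO v hv (g 0) hτ
    (by rw [hve]; exact_mod_cast he)
  obtain ⟨ρ, R₂, hρ, hR₂O, hid⟩ := exists_norm O hO v hv y η f hP hyO
    (by rw [hy0, hve]; exact_mod_cast he) g R hR
  -- the coefficients of `R₂`
  set n : ℕ := R₂.support.card with hn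
  set E : Fin n ≃ R₂.support := (R₂.support.equivFin).symm with hE
  set g' : Fin ((m + 1) + n) → K := Fin.append g fun i => R₂.coeff (E i).1 with hg'
  have hg'1 : ∀ j, g' (Fin.castAdd n j) = g j := fun j => by rw [hg', Fin.append_left]
  have hg'2 : ∀ i, g' (Fin.natAdd (m + 1) i) = R₂.coeff (E i).1 := fun i => by
    rw [hg', Fin.append_right]
  have hg'O : ∀ j, g' j ∈ O := by
    intro j
    refine Fin.addCases (fun i => ?_) (fun i => ?_) j
    · rw [hg'1]; exact hg i
    · rw [hg'2]; exact hR₂O _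
  set R₂' : MvPolynomial (Fin ((m + 1) + n) ⊕ Fin r) ℂ := ∑ i : Fin n,
    MvPolynomial.X (Sum.inl (Fin.natAdd (m + 1) i)) *
      MvPolynomial.rename Sum.inr (MvPolynomial.monomial (E i).1 (1 : ℂ)) with hR₂'
  have hR₂K : MvPolynomial.aeval (Sum.elim (fun j => MvPolynomial.C (g' j)) MvPolynomial.X :
      Fin ((m + 1) + n) ⊕ Fin r → MvPolynomial (Fin r) K) R₂' = R₂ := by
    have h1 : ∀ α : Fin r →₀ ℕ, MvPolynomial.aeval (MvPolynomial.X : Fin r → MvPolynomial (Fin r) K)
        (MvPolynomial.monomial α (1 : ℂ)) = MvPolynomial.monomial α (1 : K) := by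
      intro α
      rw [MvPolynomial.aeval_monomial, map_one, one_mul, MvPolynomial.monomial_eq,
        MvPolynomial.C_1, one_mul]
    rw [hR₂', map_sum]
    have h2 : ∀ i : Fin n, MvPolynomial.aeval
        (Sum.elim (fun j => MvPolynomial.C (g' j)) MvPolynomial.X :
          Fin ((m + 1) + n) ⊕ Fin r → MvPolynomial (Fin r) K)
        (MvPolynomial.X (Sum.inl (Fin.natAdd (m + 1) i)) *
          MvPolynomial.rename Sum.inr (MvPolynomial.monomial (E i).1 (1 : ℂ))) =
        MvPolynomial.monomial (E i).1 (R₂.coeff (E i).1) := by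
      intro i
      rw [map_mul, MvPolynomial.aeval_X, Sum.elim_inl, MvPolynomial.aeval_rename, Sum.elim_comp_inr,
        h1, hg'2, MvPolynomial.C_mul_monomial, mul_one]
    rw [Finset.sum_congr rfl fun i _ => h2 i,
      Equiv.sum_comp E (fun a : R₂.support => MvPolynomial.monomial a.1 (R₂.coeff a.1)),
      Finset.sum_coe_sort R₂.support fun a => MvPolynomial.monomial a (R₂.coeff a)]
    exact MvPolynomial.support_sum_monomial_coeff R₂
  -- germs with parameters
  obtain ⟨H, ψ, hH, hH0, hψ, hψ0, hc⟩ := exists_germ₀ O hO v hv y η f hP hyO hηO e k he hk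
    (by rw [hy0, hve]) g' hg'O z₀ s hs hso
  obtain ⟨c, hc0, hcne⟩ := generic_param z₀ H ψ D hH hψ hψ0 hD (by
    intro p hp
    filter_upwards [hind p hp, hH0.filter_mono nhdsWithin_le_nhds] with z h1 h2
    rw [h2]
    exact h1) ρ hρ
  obtain ⟨G', hG'an, hG'rel, hG'ord⟩ := hc c hc0
  have hGan : AnalyticAt ℂ (fun z => fun j : Fin (m + 1) => G' z (Fin.castAdd n j)) z₀ :=
    analyticAt_pi_iff.2 fun j => (analyticAt_pi_iff.1 hG'an) (Fin.castAdd n j)
  refine ⟨fun z => fun j => G' z (Fin.castAdd n j), hGan, ?_, ?_, ?_, ?_⟩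
  · -- the first coordinate
    have h1 := hG'rel (MvPolynomial.X (Sum.inr (Fin.castAdd n 0)) - MvPolynomial.X (Sum.inl 0)) (by
      rw [map_sub, MvPolynomial.aeval_X, MvPolynomial.aeval_X, Sum.elim_inr, Sum.elim_inl, hg'1,
        hy0, sub_self])
    have h2 : ∀ᶠ z in 𝓝[≠] z₀, G' z (Fin.castAdd n 0) = s z := by
      filter_upwards [h1, hH0.filter_mono nhdsWithin_le_nhds] with z h3 h4
      rw [map_sub, MvPolynomial.aeval_X, MvPolynomial.aeval_X, Sum.elim_inr, Sum.elim_inl, hc0,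
        mul_zero, add_zero, h4, sub_eq_zero] at h3
      exact h3
    exact (((analyticAt_pi_iff.1 hG'an) (Fin.castAdd n 0)).frequently_eq_iff_eventually_eq hs).1
      h2.frequently
  · have h1 := rel_map (fun j : Fin (m + 1) => (Sum.inr (Fin.castAdd n j) :
      Fin (d + 1) ⊕ Fin ((m + 1) + n))) hG'rel
    have h2 : (fun j : Fin (m + 1) => (Sum.elim y g' : _ → K) (Sum.inr (Fin.castAdd n j))) = g := by
      funext j
      rw [Sum.elim_inr, hg'1]
    rw [h2] at h1
    exact h1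
  · intro j hj
    have h1 := hG'ord (Fin.castAdd n j) (by rw [hg'1]; exact hj)
    rw [hg'1] at h1
    exact h1
  · -- the polynomial identity
    set p : MvPolynomial ((Fin (d + 1) ⊕ Fin ((m + 1) + n)) ⊕ Fin r) ℂ :=
      MvPolynomial.rename (Sum.map Sum.inl id) ρ -
        MvPolynomial.rename (Sum.map (fun j => Sum.inr (Fin.castAdd n j)) id) R *
          MvPolynomial.rename (Sum.map Sum.inr id) R₂' with hp
    have hev : ∀ {A : Type} [CommRing A] [Algebra ℂ A] (a : Fin (d + 1) → A)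
        (b : Fin ((m + 1) + n) → A) (w : Fin r → A),
        MvPolynomial.aeval (Sum.elim (Sum.elim a b) w) p =
          MvPolynomial.aeval (Sum.elim a w) ρ -
            MvPolynomial.aeval (Sum.elim (fun j => b (Fin.castAdd n j)) w) R *
              MvPolynomial.aeval (Sum.elim b w) R₂' := by
      intro A _ _ a b w
      have e1 : Sum.elim (Sum.elim a b) w ∘ Sum.map Sum.inl id = Sum.elim a w := by
        funext i
        rcases i with i | i <;> rfl
      have e2 : Sum.elim (Sum.elim a b) w ∘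
          Sum.map (fun j : Fin (m + 1) => (Sum.inr (Fin.castAdd n j) :
            Fin (d + 1) ⊕ Fin ((m + 1) + n))) id =
          Sum.elim (fun j => b (Fin.castAdd n j)) w := by
        funext i
        rcases i with i | i <;> rfl
      have e3 : Sum.elim (Sum.elim a b) w ∘ Sum.map Sum.inr id = Sum.elim b w := by
        funext i
        rcases i with i | i <;> rfl
      rw [hp, map_sub, map_mul, MvPolynomial.aeval_rename, MvPolynomial.aeval_rename,
        MvPolynomial.aeval_rename, e1, e2, e3]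
    have h0 : MvPolynomial.aeval (Sum.elim (fun j => MvPolynomial.C
        ((Sum.elim y g' : Fin (d + 1) ⊕ Fin ((m + 1) + n) → K) j)) MvPolynomial.X :
        (Fin (d + 1) ⊕ Fin ((m + 1) + n)) ⊕ Fin r → MvPolynomial (Fin r) K) p = 0 := by
      have h1 : (fun j => MvPolynomial.C
          ((Sum.elim y g' : Fin (d + 1) ⊕ Fin ((m + 1) + n) → K) j) :
          Fin (d + 1) ⊕ Fin ((m + 1) + n) → MvPolynomial (Fin r) K) =
          Sum.elim (fun i => MvPolynomial.C (y i)) fun j => MvPolynomial.C (g' j) := by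
        funext i
        rcases i with i | i <;> rfl
      rw [h1, hev, hR₂K, hid]
      have h2 : (fun j : Fin (m + 1) => (MvPolynomial.C (g' (Fin.castAdd n j)) :
          MvPolynomial (Fin r) K)) = fun j => MvPolynomial.C (g j) := by
        funext j
        rw [hg'1]
      rw [h2, sub_self]
    filter_upwards [rel_poly hG'rel p h0, hcne] with z h1 h2 h3
    apply h2
    have h4 := h1 (D z)
    rw [hev, h3, zero_mul, sub_zero] at h4
    exact h4

end Pool.Agent.AbPencil
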